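import Pool.Agent.E8helper35.IN.Coef

/-!
The orders of the coefficients of the normalised differential equation at all places.
-/

set_option autoImplicit false

open FF Polynomial

namespace Pool.Agent.E8helper35.IN

open Pool.Agent.W603.LV Pool.Agent.E8helper90.RM

variable {k K : Type} [Field k] [Field K] [Algebra k K] [CharZero k] [IsFF k K] [IsAlgClosed k]

/-- the place is not an inflection point of the linear system `V` -/
def NonInfl (P : Place k K) (V : Submodule k K) (n : ℕ) : Prop :=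
  ∃ e : ℤ, (∀ f ∈ V, Ge P e f) ∧ ∀ f ∈ V, f ≠ 0 → P.ord f < e + n

omit [CharZero k] [IsFF k K] [IsAlgClosed k] in
theorem exists_lam (P : Place k K) (m : ℤ) : ∃ lam : K, lam ≠ 0 ∧ P.ord lam = m :=
  ⟨unif P ^ m, zpow_ne_zero _ (unif_ne P), by rw [P.ord_zpow, ord_unif, mul_one]⟩

/-- the order of the Wronskian -/
theorem ord_wr (P : Place k K) {D : Derivation k K K} (hD : D ≠ 0) {n : ℕ} {z : Fin n → K}
    (hz : ∀ j, z j ≠ 0) (hinj : Function.Injective fun j => P.ord (z j)) :
    wr D z ≠ 0 ∧ P.ord (wr D z) =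
      ∑ j, P.ord (z j) - (∑ i : Fin n, ((i : ℕ) : ℤ)) * (1 - vo P D) := by
  obtain ⟨lam, hl0, hl⟩ := exists_lam P (1 - vo P D)
  have hσ : Ge P 0 (lam * 0) := by
    rw [mul_zero]
    exact Ge.zero
  obtain ⟨h1, h2⟩ := det_uu P hD hl0 hl hσ hz hinj
  have h3 : (Matrix.of fun j i : Fin n => uu D 0 lam (z j) i) =
      Matrix.diagonal (fun j => (z j)⁻¹) * tm D 0 z *
        Matrix.diagonal (fun i : Fin n => lam ^ (i : ℕ)) := by
    ext j i
    rw [Matrix.mul_diagonal, Matrix.diagonal_mul]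
    change lam ^ (i : ℕ) * ((tw D 0)^[(i : ℕ)] (z j) / z j) =
      (z j)⁻¹ * (tw D 0)^[(i : ℕ)] (z j) * lam ^ (i : ℕ)
    rw [div_eq_mul_inv]
    ring
  rw [h3, Matrix.det_mul, Matrix.det_mul, Matrix.det_diagonal, Matrix.det_diagonal, det_tm] at h1 h2
  have h4 : ∏ j, (z j)⁻¹ ≠ 0 := Finset.prod_ne_zero_iff.2 fun j _ => inv_ne_zero (hz j)
  have h5 : ∏ i : Fin n, lam ^ (i : ℕ) ≠ 0 :=
    Finset.prod_ne_zero_iff.2 fun j _ => pow_ne_zero _ hl0
  have h6 : wr D z ≠ 0 := right_ne_zero_of_mul (left_ne_zero_of_mul h1)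
  refine ⟨h6, ?_⟩
  rw [P.ord_mul (mul_ne_zero h4 h6) h5, P.ord_mul h4 h6] at h2
  have hprod : ∀ (s : Finset (Fin n)) (g : Fin n → K), (∀ i, g i ≠ 0) →
      P.ord (∏ i ∈ s, g i) = ∑ i ∈ s, P.ord (g i) := by
    intro s g hg
    classical
    induction s using Finset.induction_on with
    | empty => rw [Finset.prod_empty, Finset.sum_empty, P.ord_one]
    | insert b s hb ih =>
      rw [Finset.prod_insert hb, Finset.sum_insert hb,
        P.ord_mul (hg b) (Finset.prod_ne_zero_iff.2 fun i _ => hg i), ih]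
  rw [hprod _ _ fun j => inv_ne_zero (hz j), hprod _ _ fun i => pow_ne_zero _ hl0] at h2
  simp only [P.ord_inv, P.ord_pow, hl, Finset.sum_neg_distrib, ← Finset.sum_mul] at h2
  linarith

/-- the orders of the coefficients at an arbitrary place -/
theorem coef_any (P : Place k K) {D : Derivation k K K} (hD : D ≠ 0) {n : ℕ} {z : Fin n → K}
    (hz : ∀ j, z j ≠ 0) (hinj : Function.Injective fun j => P.ord (z j)) {σ : K}
    (hσ : Ge P (vo P D - 1) σ) {a : Fin n → K} (ha : ∀ j, z j ∈ sol D σ a) (i : Fin n) :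
    Ge P ((n - (i : ℕ)) * (vo P D - 1)) (a i) := by
  obtain ⟨lam, hl0, hl⟩ := exists_lam P (1 - vo P D)
  have hσ' : Ge P 0 (lam * σ) := by
    have h1 : Ge P (1 - vo P D) lam := Or.inr hl.ge
    have := h1.mul hσ
    refine this.mono (by omega)
  obtain ⟨h1, h2⟩ := det_uu P hD hl0 hl hσ' hz hinj
  have hR : ∀ f : K, f ∈ P.O.toSubring ↔ Ge P 0 f := fun f => Iff.rfl
  have h3 := cramer_mem P.O.toSubring (Ψ := Matrix.of fun j i : Fin n => uu D σ lam (z j) i)
    (a := fun i => a i * lam ^ (n - (i : ℕ))) (b := fun j => uu D σ lam (z j) n)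
    (fun j i => (red_uu P hD hl0 hl hσ' (hz j) i).1) h1 (by
      rw [hR]
      exact Or.inr (by rw [P.ord_inv, h2, neg_zero])) (fun j => (red_uu P hD hl0 hl hσ' (hz j) n).1)
    (by
      funext j
      change ∑ i : Fin n, uu D σ lam (z j) i * (a i * lam ^ (n - (i : ℕ))) = uu D σ lam (z j) n
      have h4 : (tw D σ)^[n] (z j) = ∑ i : Fin n, a i * (tw D σ)^[(i : ℕ)] (z j) := ha j
      unfold uu
      rw [h4, Finset.sum_div, Finset.mul_sum]
      refine Finset.sum_congr rfl fun i _ => ?_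
      have h5 : lam ^ n = lam ^ (i : ℕ) * lam ^ (n - (i : ℕ)) := by
        rw [← pow_add]
        congr 1
        have := i.2
        omega
      rw [h5]
      ring) i
  have h4 : Ge P 0 (lam ^ (n - (i : ℕ)) * a i) := by
    rw [mul_comm]
    exact h3
  have h5 := h4.of_mul (pow_ne_zero _ hl0)
  refine h5.mono (le_of_eq ?_)
  rw [P.ord_pow, hl]
  have h6 : ((n - (i : ℕ) : ℕ) : ℤ) = (n : ℤ) - ((i : ℕ) : ℤ) := by
    have := i.2
    omega
  rw [h6]
  ring

/-- the derivative of an element of the local ring at a place where `vo P D = 0` -/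
theorem ge_der0 (P : Place k K) {D : Derivation k K K} (hD : D ≠ 0) (hv : vo P D = 0) {f : K}
    (hf : Ge P 0 f) : Ge P 0 (D f) := by
  have := ge_der P hD hf
  rwa [hv] at this

theorem ge_tw (P : Place k K) {D : Derivation k K K} (hD : D ≠ 0) (hv : vo P D = 0) {σ f : K}
    (hσ : Ge P 0 σ) (hf : Ge P 0 f) (i : ℕ) : Ge P 0 ((tw D σ)^[i] f) := by
  induction i with
  | zero => exact hf
  | succ i ih =>
    rw [Function.iterate_succ_apply']
    refine (ge_der0 P hD hv ih).add ?_
    have := hσ.mul ih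
    simpa using this

/-- the coefficients have no poles outside of the inflection points -/
theorem coef_reg (P : Place k K) {D : Derivation k K K} (hD : D ≠ 0) (hv : vo P D = 0) {n : ℕ}
    (hn : n ≠ 0) {V : Submodule k K} (hV : NonInfl P V n) {z : Fin n → K} (hzV : ∀ j, z j ∈ V)
    (hz : ∀ j, z j ≠ 0) (hinj : Function.Injective fun j => P.ord (z j)) {a : Fin n → K}
    (ha : ∀ j, z j ∈ sol D (nt D z) a) (i : Fin n) : Ge P 0 (a i) := by
  have hCK : CharZero K := charZero_of_injective_algebraMap (algebraMap k K).injective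
  obtain ⟨e, he1, he2⟩ := hV
  obtain ⟨hw0, hwo⟩ := ord_wr P hD hz hinj
  have hge : ∀ j, e ≤ P.ord (z j) := by
    intro j
    rcases he1 _ (hzV j) with h | h
    · exact absurd h (hz j)
    · exact h
  rw [sum_int _ hinj e hge fun j => he2 _ (hzV j) (hz j), hv] at hwo
  obtain ⟨h, hh0, hho⟩ := exists_lam P (-e)
  obtain ⟨z', hz'⟩ : ∃ z' : Fin n → K, z' = fun j => h * z j := ⟨_, rfl⟩
  have hwr : wr D z' = h ^ n * wr D z := by
    rw [hz', wr_mul]
  have hwr0 : wr D z' ≠ 0 := by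
    rw [hwr]
    exact mul_ne_zero (pow_ne_zero _ hh0) hw0
  have hwro : P.ord (wr D z') = 0 := by
    rw [hwr, P.ord_mul (pow_ne_zero _ hh0) hw0, P.ord_pow, hho, hwo]
    ring
  have hnt : nt D z' = nt D z - D h / h := by
    rw [hz']
    exact nt_mul hn hh0 hw0
  have hσ : Ge P 0 (nt D z') := by
    unfold nt
    have h1 : Ge P 0 (D (wr D z') / wr D z') := by
      rw [div_eq_mul_inv]
      have h2 := ge_der0 P hD hv (Or.inr hwro.ge : Ge P 0 (wr D z'))
      have h3 : Ge P 0 (wr D z')⁻¹ := Or.inr (by rw [P.ord_inv, hwro, neg_zero])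
      have := h2.mul h3
      simpa using this
    have h2 : Ge P 0 (-(n : K)⁻¹) := by
      have h3 : -(n : K)⁻¹ = algebraMap k K (-(n : k)⁻¹) := by
        rw [map_neg, map_inv₀, map_natCast]
      rw [h3]
      exact Ge.const _
    have := h2.mul h1
    simpa using this
  have hz'O : ∀ j, Ge P 0 (z' j) := by
    intro j
    rw [hz']
    refine Or.inr ?_
    change 0 ≤ P.ord (h * z j)
    rw [P.ord_mul hh0 (hz j), hho]
    have := hge j
    omega
  have ha' : ∀ j, (tw D (nt D z'))^[n] (z' j) =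
      ∑ i : Fin n, a i * (tw D (nt D z'))^[(i : ℕ)] (z' j) := by
    intro j
    rw [hnt, hz']
    simp only [tw_iter_smul hh0]
    have h4 : (tw D (nt D z))^[n] (z j) =
      ∑ i : Fin n, a i * (tw D (nt D z))^[(i : ℕ)] (z j) := ha j
    rw [h4, Finset.mul_sum]
    exact Finset.sum_congr rfl fun i _ => by ring
  have hR : ∀ f : K, f ∈ P.O.toSubring ↔ Ge P 0 f := fun f => Iff.rfl
  refine cramer_mem P.O.toSubring (Ψ := tm D (nt D z') z') (a := a)
    (b := fun j => (tw D (nt D z'))^[n] (z' j)) (fun j i => ge_tw P hD hv hσ (hz'O j) i)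
    (by rw [det_tm]; exact hwr0) (by
      rw [det_tm, hR]
      exact Or.inr (by rw [P.ord_inv, hwro, neg_zero])) (fun j => ge_tw P hD hv hσ (hz'O j) n)
    (by
      funext j
      change ∑ i : Fin n, tm D (nt D z') z' j i * a i = _
      rw [ha' j]
      exact Finset.sum_congr rfl fun i _ => mul_comm _ _) i

/-- the normalising twist -/
theorem ge_nt (P : Place k K) {D : Derivation k K K} (hD : D ≠ 0) {n : ℕ} {y : Fin n → K}
    (hw : wr D y ≠ 0) : Ge P (vo P D - 1) (nt D y) := by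
  obtain ⟨lam, hl0, hl⟩ := exists_lam P (1 - vo P D)
  have h1 := (red_ld P hD hl0 hl hw).1
  have h2 : Ge P (vo P D - 1) (D (wr D y) / wr D y) := by
    refine (h1.of_mul hl0).mono ?_
    rw [hl]
    omega
  unfold nt
  have h3 : Ge P 0 (-(n : K)⁻¹) := by
    have h3 : -(n : K)⁻¹ = algebraMap k K (-(n : k)⁻¹) := by
      rw [map_neg, map_inv₀, map_natCast]
    rw [h3]
    exact Ge.const _
  have := h3.mul h2
  simpa using this

end Pool.Agent.E8helper35.IN
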