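import Pool.Agent.E8helper35.IN.Mat

/-!
The orders of the coefficients of the normalised differential equation at all places.
-/

set_option autoImplicit false

open FF Polynomial

namespace Pool.Agent.E8helper35.IN

open Pool.Agent.W603.LV Pool.Agent.E8helper90.RM

variable {k K : Type} [Field k] [Field K] [Algebra k K]

theorem tw_algSmul (D : Derivation k K K) (σ : K) (c : k) (f : K) (i : ℕ) :
    (tw D σ)^[i] (c • f) = c • (tw D σ)^[i] f := by
  induction i with
  | zero => rfl
  | succ i ih =>
    rw [Function.iterate_succ_apply', ih, Function.iterate_succ_apply']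
    unfold tw
    rw [D.map_smul, smul_add, mul_smul_comm]

theorem tw_iter_add (D : Derivation k K K) (σ f g : K) (i : ℕ) :
    (tw D σ)^[i] (f + g) = (tw D σ)^[i] f + (tw D σ)^[i] g := by
  induction i with
  | zero => rfl
  | succ i ih =>
    rw [Function.iterate_succ_apply', ih, tw_add, Function.iterate_succ_apply',
      Function.iterate_succ_apply']

theorem tw_iter_zero (D : Derivation k K K) (σ : K) (i : ℕ) :
    (tw D σ)^[i] (0 : K) = 0 := by
  induction i with
  | zero => rfl
  | succ i ih => rw [Function.iterate_succ_apply', ih, tw_zero]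

/-- the solutions of the differential equation -/
def sol (D : Derivation k K K) (σ : K) {n : ℕ} (a : Fin n → K) : Submodule k K where
  carrier := {f | (tw D σ)^[n] f = ∑ i : Fin n, a i * (tw D σ)^[(i : ℕ)] f}
  add_mem' := by
    intro f g hf hg
    change (tw D σ)^[n] (f + g) = _
    rw [tw_iter_add, hf, hg, ← Finset.sum_add_distrib]
    exact Finset.sum_congr rfl fun i _ => by rw [tw_iter_add, mul_add]
  zero_mem' := by
    change (tw D σ)^[n] 0 = _
    simp only [tw_iter_zero, mul_zero, Finset.sum_const_zero]
  smul_mem' := by
    intro c f hf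
    change (tw D σ)^[n] (c • f) = _
    rw [tw_algSmul, hf, Finset.smul_sum]
    exact Finset.sum_congr rfl fun i _ => by rw [tw_algSmul, mul_smul_comm]

/-- Wronskians of combinations -/
theorem wr_comb (D : Derivation k K K) {n : ℕ} {y z : Fin n → K} (A : Matrix (Fin n) (Fin n) k)
    (h : ∀ j, z j = ∑ i, A j i • y i) : wr D z = A.det • wr D y := by
  have h1 : tm D 0 z = (A.map (algebraMap k K)) * tm D 0 y := by
    ext j r
    change (tw D 0)^[(r : ℕ)] (z j) = _
    rw [h j, Matrix.mul_apply]
    have h2 : ∀ s : Finset (Fin n), (tw D 0)^[(r : ℕ)] (∑ i ∈ s, A j i • y i) =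
        ∑ i ∈ s, (A.map (algebraMap k K)) j i * tm D 0 y i r := by
      intro s
      classical
      induction s using Finset.induction_on with
      | empty => rw [Finset.sum_empty, Finset.sum_empty, tw_iter_zero]
      | insert b s hb ih =>
        rw [Finset.sum_insert hb, Finset.sum_insert hb, tw_iter_add, ih, tw_algSmul,
          Algebra.smul_def]
        rfl
    exact h2 _
  rw [← det_tm (D := D) 0 z, h1, Matrix.det_mul, det_tm, Algebra.smul_def]
  congr 1
  rw [← RingHom.mapMatrix_apply, ← RingHom.map_det]

variable [CharZero k] [IsFF k K] [IsAlgClosed k]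

/-- a basis with different orders -/
theorem exists_ord_basis (P : Place k K) : ∀ (n : ℕ) (V : Submodule k K),
    Module.finrank k V = n → FiniteDimensional k V →
      ∃ z : Fin n → K, (∀ j, z j ∈ V) ∧ LinearIndependent k z ∧
        Function.Injective fun j => P.ord (z j) := by
  intro n
  induction n with
  | zero =>
    intro V _ _
    exact ⟨fun j => j.elim0, fun j => j.elim0, linearIndependent_empty_type, fun j => j.elim0⟩
  | succ n ih =>
    intro V hV hfin
    -- an element of minimal order
    let b := Module.finBasisOfFinrankEq k V hV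
    obtain ⟨i0, -, hi0⟩ := Finset.exists_min_image (Finset.univ : Finset (Fin (n + 1)))
      (fun i => P.ord (b i : K)) ⟨0, Finset.mem_univ _⟩
    have hb0 : ((b i0 : V) : K) ≠ 0 := by
      intro h
      exact b.ne_zero i0 (Subtype.ext h)
    obtain ⟨e, he⟩ : ∃ e, e = P.ord ((b i0 : V) : K) := ⟨_, rfl⟩
    have hge : ∀ f ∈ V, Ge P e f := by
      intro f hf
      have h1 : f = ∑ i, b.repr ⟨f, hf⟩ i • ((b i : V) : K) := by
        have h2 := congrArg (Submodule.subtype V) (b.sum_repr ⟨f, hf⟩)
        rw [map_sum] at h2
        simp only [map_smul] at h2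
        exact h2.symm
      rw [h1]
      refine Ge.sum _ _ fun i _ => ?_
      rw [Algebra.smul_def]
      have h3 : Ge P e ((b i : V) : K) := Or.inr (by rw [he]; exact hi0 i (Finset.mem_univ _))
      have := (Ge.const (P := P) (b.repr ⟨f, hf⟩ i)).mul h3
      simpa using this
    -- the elements of higher order
    let V' : Submodule k K :=
      { carrier := {f | f ∈ V ∧ Ge P (e + 1) f}
        add_mem' := fun hf hg => ⟨V.add_mem hf.1 hg.1, hf.2.add hg.2⟩
        zero_mem' := ⟨V.zero_mem, Ge.zero⟩
        smul_mem' := fun c f hf => ⟨V.smul_mem c hf.1, by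
          rw [Algebra.smul_def]
          have := (Ge.const (P := P) c).mul hf.2
          simpa using this⟩ }
    have hVV : V' ≤ V := fun f hf => hf.1
    have hfin' : FiniteDimensional k V' := Submodule.finiteDimensional_of_le hVV
    have hdec : ∀ f ∈ V, ∃ c : k, f - c • ((b i0 : V) : K) ∈ V' := by
      intro f hf
      have h1 : Ge P 0 (f / ((b i0 : V) : K)) := by
        rcases hge f hf with h | h
        · rw [h, zero_div]
          exact Ge.zero
        · by_cases hf0 : f = 0
          · rw [hf0, zero_div]
            exact Ge.zero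
          · refine Or.inr ?_
            rw [P.ord_div hf0 hb0]
            omega
      obtain ⟨c, hc⟩ := Pool.Agent.W603.LV.exists_const P h1
      refine ⟨c, V.sub_mem hf (V.smul_mem c (b i0).2), ?_⟩
      have h2 : f - c • ((b i0 : V) : K) =
          (f / ((b i0 : V) : K) - algebraMap k K c) * ((b i0 : V) : K) := by
        rw [sub_mul, div_mul_cancel₀ _ hb0, Algebra.smul_def]
      rw [h2]
      have h3 : Ge P e ((b i0 : V) : K) := Or.inr he.le
      have := hc.mul h3
      rwa [add_comm] at this
    have hnot : ((b i0 : V) : K) ∉ V' := by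
      intro h
      rcases h.2 with h1 | h1
      · exact hb0 h1
      · omega
    have hsup : V' ⊔ Submodule.span k {((b i0 : V) : K)} = V := by
      apply le_antisymm
      · refine sup_le hVV ?_
        rw [Submodule.span_singleton_le_iff_mem]
        exact (b i0).2
      · intro f hf
        obtain ⟨c, hc⟩ := hdec f hf
        have h1 : f = (f - c • ((b i0 : V) : K)) + c • ((b i0 : V) : K) := by ring
        rw [h1]
        exact Submodule.add_mem_sup hc (Submodule.smul_mem _ _ (Submodule.mem_span_singleton_self _))
    have hinf : V' ⊓ Submodule.span k {((b i0 : V) : K)} = ⊥ := by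
      rw [Submodule.eq_bot_iff]
      rintro f ⟨hf1, hf2⟩
      obtain ⟨c, rfl⟩ := Submodule.mem_span_singleton.1 hf2
      by_cases hc : c = 0
      · rw [hc, zero_smul]
      · exfalso
        apply hnot
        have h1 := V'.smul_mem c⁻¹ hf1
        rwa [smul_smul, inv_mul_cancel₀ hc, one_smul] at h1
    have hrank : Module.finrank k V' = n := by
      have h1 := Submodule.finrank_sup_add_finrank_inf_eq V'
        (Submodule.span k {((b i0 : V) : K)})
      rw [hsup, hinf, finrank_bot, hV, finrank_span_singleton hb0] at h1
      omega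
    obtain ⟨z, hz1, hz2, hz3⟩ := ih V' hrank hfin'
    refine ⟨Fin.cons ((b i0 : V) : K) z, ?_, ?_, ?_⟩
    · intro j
      refine Fin.cases ?_ (fun j => ?_) j
      · exact (b i0).2
      · exact hVV (hz1 j)
    · rw [linearIndependent_finCons]
      refine ⟨hz2, fun h => hnot ?_⟩
      have h1 : Submodule.span k (Set.range z) ≤ V' := by
        rw [Submodule.span_le]
        rintro _ ⟨j, rfl⟩
        exact hz1 j
      exact h1 h
    · have hlt : ∀ j, e < P.ord (z j) := by
        intro j
        rcases (hz1 j).2 with h | h
        · exact absurd h (hz2.ne_zero j)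
        · omega
      intro i j
      refine Fin.cases ?_ (fun i => ?_) i <;> refine Fin.cases ?_ (fun j => ?_) j
      · intro _
        rfl
      · intro h
        have h1 : P.ord ((b i0 : V) : K) = P.ord (z j) := h
        have := hlt j
        omega
      · intro h
        have h1 : P.ord (z i) = P.ord ((b i0 : V) : K) := h
        have := hlt i
        omega
      · intro h
        exact congrArg Fin.succ (hz3 h)

theorem sum_int {n : ℕ} (f : Fin n → ℤ) (hf : Function.Injective f) (e : ℤ)
    (h1 : ∀ j, e ≤ f j) (h2 : ∀ j, f j < e + n) : ∑ j, f j = n * e + ∑ i : Fin n, (i : ℤ) := by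
  let g : Fin n → Fin n := fun j => ⟨(f j - e).toNat, by
    have := h1 j
    have := h2 j
    omega⟩
  have hg : Function.Injective g := by
    intro i j h
    have h3 : (f i - e).toNat = (f j - e).toNat := congrArg Fin.val h
    have := h1 i
    have := h1 j
    exact hf (by omega)
  have h3 : ∑ j, ((g j : ℕ) : ℤ) = ∑ i : Fin n, (i : ℤ) :=
    Function.Bijective.sum_comp (Finite.injective_iff_bijective.1 hg) (fun i : Fin n => ((i : ℕ) : ℤ))
  rw [← h3]
  have h4 : ∀ j, f j = e + ((g j : ℕ) : ℤ) := by
    intro j
    have := h1 j
    change f j = e + (((f j - e).toNat : ℕ) : ℤ)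
    omega
  rw [Finset.sum_congr rfl fun j _ => h4 j, Finset.sum_add_distrib]
  simp

end Pool.Agent.E8helper35.IN
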