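import Pool.Agent.Y377.IL.Cur
import Pool.Agent.Y377.IL.All
import Pool.Agent.Y737.IL.Rc
import Pool.Agent.E8helper90.RM.Sys

/-!
Points of projective algebraic sets over a differential field, whose coordinates satisfy a twisted
linear differential equation over a differential subfield: forms which vanish on all rational curves
vanish at the point, unless the point is algebraic over the subfield.
-/

set_option autoImplicit false

namespace Pool.Agent.E8helper35.IN

open Finset MvPolynomial Pool.Agent.Y377.IL Pool.Agent.E8helper90.RM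
open Pool.Agent.W603.LV (wm wr)

variable {K : Type} [Field K] [Algebra ℂ K] {D : Derivation ℂ K K} {n : ℕ}

theorem goodB_field (F : IntermediateField ℂ K) (hF : ∀ x ∈ F, D x ∈ F) :
    GoodB D F.toSubalgebra where
  st := hF
  sim := by
    rintro I hI - ⟨x, hx, hx0⟩
    have h1 : x⁻¹ ∈ F.toSubalgebra := F.inv_mem (hI x hx)
    have h2 := I.smul_mem (⟨x⁻¹, h1⟩ : F.toSubalgebra) hx
    rwa [Algebra.smul_def, show algebraMap F.toSubalgebra K ⟨x⁻¹, h1⟩ = x⁻¹ from rfl,
      inv_mul_cancel₀ hx0] at h2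
  noe := by
    have e : F ≃+* F.toSubalgebra := RingEquiv.refl _
    exact isNoetherianRing_of_ringEquiv F e

/-- the fundamental matrix -/
noncomputable def fX (D : Derivation ℂ K K) (σ : K) (y : Fin n → K) :
    Matrix (Fin (n * n)) (Fin (n * n)) K :=
  Matrix.of fun r s => zz D σ y (finProdFinEquiv.symm s).1 (finProdFinEquiv.symm s).2
    (finProdFinEquiv.symm r)

/-- its inverse -/
noncomputable def fY (D : Derivation ℂ K K) (σ : K) (y : Fin n → K) :
    Matrix (Fin (n * n)) (Fin (n * n)) K :=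
  Matrix.of fun s r => (tm D σ y)⁻¹ (finProdFinEquiv.symm r).1 (finProdFinEquiv.symm s).1 *
    tm D σ y (finProdFinEquiv.symm s).2 (finProdFinEquiv.symm r).2

/-- the matrix of the system -/
def fM (a : Fin n → K) : Matrix (Fin (n * n)) (Fin (n * n)) K :=
  Matrix.of fun r k =>
    (if (finProdFinEquiv.symm k : Fin n × Fin n).2 = (finProdFinEquiv.symm r).2 then
      cmp a (finProdFinEquiv.symm k).1 (finProdFinEquiv.symm r).1 else 0) -
    if (finProdFinEquiv.symm k : Fin n × Fin n).1 = (finProdFinEquiv.symm r).1 then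
      cmp a (finProdFinEquiv.symm r).2 (finProdFinEquiv.symm k).2 else 0

theorem cmp_mem {F : IntermediateField ℂ K} {a : Fin n → K} (ha : ∀ i, a i ∈ F) (m i : Fin n) :
    cmp a m i ∈ F := by
  change (if (i : ℕ) + 1 < n then (if (m : ℕ) = i + 1 then (1 : K) else 0) else a m) ∈ F
  split_ifs
  · exact F.one_mem
  · exact F.zero_mem
  · exact ha m

theorem fund (F : IntermediateField ℂ K) {y : Fin n → K} (hw : wr D y ≠ 0) {σ : K}
    {a : Fin n → K} (haF : ∀ i, a i ∈ F)
    (ha : ∀ j, (tw D σ)^[n] (y j) = ∑ i : Fin n, a i * (tw D σ)^[(i : ℕ)] (y j)) :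
    Fund D F.toSubalgebra (fX D σ y) (fY D σ y) (fM a) where
  inv := by
    have hdet : IsUnit (tm D σ y).det := by
      rw [det_tm]
      exact isUnit_iff_ne_zero.2 hw
    have h1 := Matrix.nonsing_inv_mul _ hdet
    have h2 : ∀ i j, ∑ k, (tm D σ y)⁻¹ i k * tm D σ y k j = if i = j then 1 else 0 := by
      intro i j
      rw [← Matrix.mul_apply, h1, Matrix.one_apply]
    ext r r'
    rw [Matrix.mul_apply, ← Equiv.sum_comp finProdFinEquiv (fun s => fX D σ y r s * fY D σ y s r'),
      Fintype.sum_prod_type, Matrix.one_apply]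
    have h3 : ∀ j m : Fin n, fX D σ y r (finProdFinEquiv (j, m)) *
        fY D σ y (finProdFinEquiv (j, m)) r' =
        ((tm D σ y)⁻¹ (finProdFinEquiv.symm r').1 j * tm D σ y j (finProdFinEquiv.symm r).1) *
        ((tm D σ y)⁻¹ (finProdFinEquiv.symm r).2 m * tm D σ y m (finProdFinEquiv.symm r').2) := by
      intro j m
      simp only [fX, fY, zz, Matrix.of_apply, Equiv.symm_apply_apply]
      ring
    simp only [h3, ← mul_sum, ← sum_mul, h2]
    by_cases h4 : r = r'
    · rw [h4]
      simp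
    · rw [if_neg h4]
      have h5 : finProdFinEquiv.symm r ≠ (finProdFinEquiv.symm r' : Fin n × Fin n) := fun h =>
        h4 (finProdFinEquiv.symm.injective h)
      by_cases h6 : (finProdFinEquiv.symm r' : Fin n × Fin n).1 = (finProdFinEquiv.symm r).1
      · have h7 : (finProdFinEquiv.symm r : Fin n × Fin n).2 ≠ (finProdFinEquiv.symm r').2 :=
          fun h => h5 (Prod.ext h6.symm h)
        rw [if_neg h7, mul_zero]
      · rw [if_neg h6, zero_mul]
  mem := by
    intro r k
    change _ - _ ∈ F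
    refine F.sub_mem ?_ ?_
    · split_ifs
      · exact cmp_mem haF _ _
      · exact F.zero_mem
    · split_ifs
      · exact cmp_mem haF _ _
      · exact F.zero_mem
  eq := by
    intro r s
    change D (zz D σ y _ _ _) = _
    rw [D_zz hw ha, ← Equiv.sum_comp finProdFinEquiv.symm]
    rfl

/-- **Forms which vanish on all rational curves vanish at the solutions of linear differential
equations.** -/
theorem core (hC : Cst D) (F : IntermediateField ℂ K) (hF : ∀ x ∈ F, D x ∈ F) (hn : 0 < n)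
    {y : Fin n → K} (hw : wr D y ≠ 0) {σ : K} {a : Fin n → K} (haF : ∀ i, a i ∈ F)
    (ha : ∀ j, (tw D σ)^[n] (y j) = ∑ i : Fin n, a i * (tw D σ)^[(i : ℕ)] (y j))
    {N : ℕ} {x : Fin (N + 1) → K} (c : Fin (N + 1) → Fin n → ℂ)
    (hx : ∀ j, x j = ∑ i, algebraMap ℂ K (c j i) * y i)
    {l : Fin (N + 1)} (hl : x l ≠ 0) (hne : ∃ j, ¬ IsAlgebraic F.toSubalgebra (x j / x l))
    {I : Ideal (MvPolynomial (Fin (N + 1)) ℂ)} {G' : MvPolynomial (Fin (N + 1)) ℂ}
    (hG' : ∃ d, G'.IsHomogeneous d)
    (hcur : ∀ p : Fin (N + 1) → Polynomial ℂ,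
      (∀ G ∈ I, (∃ d, G.IsHomogeneous d) → aeval p G = 0) →
      (∃ j k, Polynomial.derivative (p j) * p k ≠ p j * Polynomial.derivative (p k)) →
        aeval p G' = 0)
    (hI : ∀ G ∈ I, (∃ d, G.IsHomogeneous d) → aeval x G = 0) : aeval x G' = 0 := by
  classical
  have hfund := fund F hw haF ha
  have hT : LTow D F.toSubalgebra (mat F.toSubalgebra (fX D σ y) (fY D σ y)) :=
    LTow.step LTow.base hfund
  obtain ⟨l', m', hc0⟩ := exists_inv_ne hn hw (σ := σ)
  obtain ⟨c0, hc0'⟩ : ∃ c0, c0 = (tm D σ y)⁻¹ l' m' := ⟨_, rfl⟩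
  rw [← hc0'] at hc0
  have hmem : ∀ j, x j * c0 ∈ mat F.toSubalgebra (fX D σ y) (fY D σ y) := by
    intro j
    rw [hx j, sum_mul]
    refine Subalgebra.sum_mem _ fun i _ => ?_
    rw [mul_assoc]
    refine Subalgebra.mul_mem _ (Subalgebra.algebraMap_mem _ _) ?_
    have h1 := mem_mat_left F.toSubalgebra (fX D σ y) (fY D σ y)
      (finProdFinEquiv (⟨0, hn⟩, l')) (finProdFinEquiv (i, m'))
    have h2 : fX D σ y (finProdFinEquiv (⟨0, hn⟩, l')) (finProdFinEquiv (i, m')) = y i * c0 := by
      simp only [fX, zz, Matrix.of_apply, Equiv.symm_apply_apply]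
      rw [hc0']
      rfl
    rwa [h2] at h1
  let t : Finset K := Finset.univ.image fun j => x j / x l
  have hF' : RatFam (mat F.toSubalgebra (fX D σ y) (fY D σ y)) t := by
    refine hyp.main hC (goodB_field F hF) hT (fun b hb => ?_) ?_
    · obtain ⟨j, -, rfl⟩ := Finset.mem_image.1 hb
      have h1 : x j / x l = (x j * c0) / (x l * c0) := by
        rw [mul_div_mul_right _ _ hc0]
      rw [h1]
      exact fracs_mem (hmem j) (hmem l)
    · obtain ⟨j, hj⟩ := hne
      exact ⟨x j / x l, Finset.mem_image.2 ⟨j, Finset.mem_univ j, rfl⟩, hj⟩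
  exact hF'.rc Pool.Agent.Y737.IL.t_RC hG' hcur hl (fun j => Finset.mem_image.2
    ⟨j, Finset.mem_univ j, rfl⟩) (fun b hb => by
      obtain ⟨j, -, rfl⟩ := Finset.mem_image.1 hb
      exact ⟨j, rfl⟩) hI

end Pool.Agent.E8helper35.IN
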