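import Pool.Agent.E8helper35.IN.Rat2
import Pool.Agent.Y288.IL.PL

/-!
Rational curves of bounded degree on varieties which are not covered by rational curves.
-/

set_option autoImplicit false
set_option linter.unusedSectionVars false

open MvPolynomial Filter

namespace Pool.Agent.E8helper35.IN

open Pool.Agent.TH143.GT (Covered FunField Fam rf rf_mul rf_inj rf_zero)
open Pool.Agent.W602.GT (IsForm GeneralType)

variable {N : ℕ}

/-- the algebra structure of the ultrapowers of the complex numbers -/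
noncomputable def gh {ι : Type} (U : Ultrafilter ι) : (ι → ℂ) →+* Germ (U : Filter ι) ℂ :=
  Germ.coeRingHom (U : Filter ι)

theorem gh_zero {ι : Type} {U : Ultrafilter ι} {f : ι → ℂ} :
    gh U f = 0 ↔ ∀ᶠ i in (U : Filter ι), f i = 0 := by
  have h1 : gh U f = gh U 0 ↔ ∀ᶠ i in (U : Filter ι), f i = (0 : ι → ℂ) i := Germ.coe_eq
  rw [map_zero] at h1
  exact h1

theorem exc_form {p : Ideal (MvPolynomial (Fin (N + 1)) ℂ)} {K : Type} [Field K] [Algebra ℂ K]
    {w : ℕ} {y : Fin (N + 1) → K} (hy : FunField p 1 K w y) (hnc : ¬ Covered K) (e : ℕ) :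
    ∃ G : MvPolynomial (Fin (N + 1)) ℂ, IsForm G ∧ G ∉ p ∧
      ∀ q : Fin (N + 1) → Polynomial ℂ, (∀ j, (q j).natDegree ≤ e) →
      (∃ (s t : ℂ) (j l : Fin (N + 1)), (q j).eval s * (q l).eval t ≠ (q l).eval s * (q j).eval t) →
      (∀ H ∈ p, aeval q H = 0) → aeval q G = 0 := by
  classical
  by_contra hcon
  push Not at hcon
  have hpr : ∀ G H : MvPolynomial (Fin (N + 1)) ℂ, IsForm G → IsForm H → G ∉ p → H ∉ p →
      G * H ∉ p := by
    intro G H hG hH h1 h2 h3
    have h4 := hy.sub.mem _ h3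
    unfold Pool.Agent.W602.GT.val at h4
    rw [map_mul, mul_eq_zero] at h4
    rcases h4 with h4 | h4
    · exact h1 (hy.mem G hG h4)
    · exact h2 (hy.mem H hH h4)
  let ι : Type := {G : MvPolynomial (Fin (N + 1)) ℂ // IsForm G ∧ G ∉ p}
  choose q hdeg hq1 hq2 hq3 using fun G : ι => hcon G.1 G.2.1 G.2.2
  have h1p : (1 : MvPolynomial (Fin (N + 1)) ℂ) ∉ p := by
    intro h
    have := hy.sub.mem _ h
    unfold Pool.Agent.W602.GT.val at this
    rw [map_one] at this
    exact one_ne_zero this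
  let _ : Nonempty ι := ⟨⟨1, ⟨0, isHomogeneous_one _ _⟩, h1p⟩⟩
  let F : Filter ι := ⨅ H : ι, 𝓟 {G : ι | H.1 ∣ G.1}
  have hF : F.NeBot := by
    refine iInf_neBot_of_directed' ?_ ?_
    · intro H1 H2
      have hf : IsForm (H1.1 * H2.1) := by
        obtain ⟨d1, h1⟩ := H1.2.1
        obtain ⟨d2, h2⟩ := H2.2.1
        exact ⟨d1 + d2, h1.mul h2⟩
      exact ⟨⟨H1.1 * H2.1, hf, hpr _ _ H1.2.1 H2.2.1 H1.2.2 H2.2.2⟩,
        principal_mono.2 fun G hG => (Dvd.intro _ rfl).trans hG,
        principal_mono.2 fun G hG => (Dvd.intro_left _ rfl).trans hG⟩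
    · intro H
      rw [principal_neBot_iff]
      exact ⟨H, dvd_refl _⟩
  let U : Ultrafilter ι := Ultrafilter.of F
  have hU : ∀ H : ι, ∀ᶠ G in (U : Filter ι), H.1 ∣ G.1 := by
    intro H
    exact (Ultrafilter.of_le F) (iInf_le (fun H : ι => 𝓟 {G : ι | H.1 ∣ G.1}) H (mem_principal_self _))
  let M : Type := Germ (U : Filter ι) ℂ
  let _ : Algebra ℂ M := ((gh U).comp (Pi.constRingHom ι ℂ)).toAlgebra
  let π : (ι → ℂ) →ₐ[ℂ] M := { gh U with commutes' := fun c => rfl }
  have hπ : ∀ f : ι → ℂ, π f = 0 ↔ ∀ᶠ i in (U : Filter ι), f i = 0 := fun f => gh_zero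
  let c : Fin (N + 1) → ℕ → ι → ℂ := fun j m G => (q G j).coeff m
  let qt : Fin (N + 1) → Polynomial (ι → ℂ) := fun j =>
    ∑ m ∈ Finset.range (e + 1), Polynomial.C (c j m) * Polynomial.X ^ m
  have hqt : ∀ j m, (qt j).coeff m = c j m := by
    intro j m
    change (∑ m ∈ Finset.range (e + 1), Polynomial.C (c j m) * Polynomial.X ^ m).coeff m = _
    rw [Polynomial.finsetSum_coeff]
    by_cases hm : m < e + 1
    · rw [Finset.sum_eq_single m]
      · rw [Polynomial.coeff_C_mul_X_pow, if_pos rfl]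
      · intro b _ hb
        rw [Polynomial.coeff_C_mul_X_pow, if_neg (Ne.symm hb)]
      · intro h
        exact absurd (Finset.mem_range.2 hm) h
    · rw [Finset.sum_eq_zero]
      · funext G
        change 0 = (q G j).coeff m
        rw [Polynomial.coeff_eq_zero_of_natDegree_lt]
        have := hdeg G j
        omega
      · intro b hb
        rw [Polynomial.coeff_C_mul_X_pow, if_neg]
        have := Finset.mem_range.1 hb
        omega
  have hqG : ∀ (G : ι) j, (qt j).map (Pi.evalAlgHom ℂ (fun _ : ι => ℂ) G : (ι → ℂ) →+* ℂ) = q G j := by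
    intro G j
    ext m
    rw [Polynomial.coeff_map, hqt]
    rfl
  have hGv : ∀ (G : ι) (H : MvPolynomial (Fin (N + 1)) ℂ) (m : ℕ),
      (aeval qt H).coeff m G = (aeval (q G) H).coeff m := by
    intro G H m
    have e1 := MvPolynomial.comp_aeval_apply (f := qt)
      (Polynomial.mapAlgHom (Pi.evalAlgHom ℂ (fun _ : ι => ℂ) G)) H
    have e2 : (fun j => (Polynomial.mapAlgHom (Pi.evalAlgHom ℂ (fun _ : ι => ℂ) G)) (qt j)) =
        q G := funext fun j => hqG G j
    rw [e2] at e1
    rw [← e1]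
    change _ = ((aeval qt H).map (Pi.evalAlgHom ℂ (fun _ : ι => ℂ) G : (ι → ℂ) →+* ℂ)).coeff m
    rw [Polynomial.coeff_map]
    rfl
  let W : Fin (N + 1) → Polynomial M := fun j => (qt j).map (π : (ι → ℂ) →+* M)
  have hWv : ∀ (H : MvPolynomial (Fin (N + 1)) ℂ) (m : ℕ),
      (aeval W H).coeff m = π ((aeval qt H).coeff m) := by
    intro H m
    have e1 := MvPolynomial.comp_aeval_apply (f := qt) (Polynomial.mapAlgHom π) H
    have e2 : aeval W H = (aeval qt H).map (π : (ι → ℂ) →+* M) := e1.symm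
    rw [e2, Polynomial.coeff_map]
    rfl
  have hrel : ∀ H : MvPolynomial (Fin (N + 1)) ℂ, IsForm H →
      (Pool.Agent.W602.GT.val y H = 0 ↔ (aeval W H : Polynomial M) = 0) := by
    intro H hH
    constructor
    · intro h0
      have h1 := hy.mem H hH h0
      ext m
      rw [hWv, Polynomial.coeff_zero, hπ]
      refine Eventually.of_forall fun G => ?_
      rw [hGv, hq2 G H h1, Polynomial.coeff_zero]
    · intro h0
      by_contra hne
      have h1 : H ∉ p := fun h => hne (hy.sub.mem H h)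
      have h2 : ∀ᶠ G in (U : Filter ι), ∀ m ∈ Finset.range ((aeval qt H).natDegree + 1),
          (aeval qt H).coeff m G = 0 := by
        rw [Finset.eventually_all]
        intro m _
        rw [← hπ, ← hWv, h0, Polynomial.coeff_zero]
      obtain ⟨G, hG1, hG2⟩ := ((hU ⟨H, hH, h1⟩).and h2).exists
      apply hq3 G
      obtain ⟨R, hR⟩ : H ∣ G.1 := hG1
      rw [hR, map_mul]
      have h3 : aeval (q G) H = 0 := by
        ext m
        rw [← hGv, Polynomial.coeff_zero]
        by_cases hm : m < (aeval qt H).natDegree + 1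
        · exact hG2 m (Finset.mem_range.2 hm)
        · rw [Polynomial.coeff_eq_zero_of_natDegree_lt (by omega)]
          rfl
      rw [h3, zero_mul]
  have hFam : Fam y 1 W 0 := ⟨hrel, 1, one_ne_zero, by
    rw [map_one, map_one, pow_zero, mul_one]⟩
  obtain ⟨φ, hφ⟩ := hFam.emb hy.sub.ne hy.sub.gen
  -- nonconstancy
  have hnc1 : ∀ G : ι, ∃ j l : Fin (N + 1), ∃ m < e + 1, ∃ m' < e + 1,
      c j m G * c l m' G ≠ c l m G * c j m' G := by
    intro G
    by_contra hc
    push Not at hc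
    obtain ⟨s, t, j, l, hst⟩ := hq1 G
    apply hst
    rw [Polynomial.eval_eq_sum_range' (Nat.lt_succ_of_le (hdeg G j)) s,
      Polynomial.eval_eq_sum_range' (Nat.lt_succ_of_le (hdeg G l)) t,
      Polynomial.eval_eq_sum_range' (Nat.lt_succ_of_le (hdeg G l)) s,
      Polynomial.eval_eq_sum_range' (Nat.lt_succ_of_le (hdeg G j)) t,
      Finset.sum_mul_sum, Finset.sum_mul_sum]
    refine Finset.sum_congr rfl fun m hm => Finset.sum_congr rfl fun m' hm' => ?_
    have := hc j l m (Finset.mem_range.1 hm) m' (Finset.mem_range.1 hm')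
    change (q G j).coeff m * (q G l).coeff m' = (q G l).coeff m * (q G j).coeff m' at this
    linear_combination s ^ m * t ^ m' * this
  have hnc2 : ∃ j l : Fin (N + 1), ∃ m m' : ℕ, ∀ᶠ G in (U : Filter ι),
      c j m G * c l m' G ≠ c l m G * c j m' G := by
    by_contra hc
    push Not at hc
    have h1 : ∀ x ∈ (Finset.univ ×ˢ Finset.univ) ×ˢ (Finset.range (e + 1) ×ˢ
        Finset.range (e + 1)), ∀ᶠ G in (U : Filter ι),
        c (x.1.1 : Fin (N + 1)) x.2.1 G * c (x.1.2 : Fin (N + 1)) x.2.2 G =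
          c x.1.2 x.2.1 G * c x.1.1 x.2.2 G := by
      intro x _
      exact hc x.1.1 x.1.2 x.2.1 x.2.2
    rw [← Finset.eventually_all] at h1
    obtain ⟨G, hG⟩ := h1.exists
    obtain ⟨j, l, m, hm, m', hm', hne⟩ := hnc1 G
    exact hne (hG ((j, l), (m, m')) (Finset.mem_product.2 ⟨Finset.mem_product.2
      ⟨Finset.mem_univ _, Finset.mem_univ _⟩, Finset.mem_product.2
      ⟨Finset.mem_range.2 hm, Finset.mem_range.2 hm'⟩⟩))
  obtain ⟨j, l, m, m', hev⟩ := hnc2
  have hWc : ∀ j m, (W j).coeff m = π (c j m) := by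
    intro j m
    change ((qt j).map (π : (ι → ℂ) →+* M)).coeff m = _
    rw [Polynomial.coeff_map, hqt]
    rfl
  have hM : (W j).coeff m * (W l).coeff m' ≠ (W l).coeff m * (W j).coeff m' := by
    rw [hWc, hWc, hWc, hWc, ← map_mul, ← map_mul, ← sub_ne_zero, ← map_sub, Ne, hπ]
    intro h
    obtain ⟨G, hG1, hG2⟩ := (h.and hev).exists
    apply hG2
    have : c j m G * c l m' G - c l m G * c j m' G = 0 := hG1
    linear_combination this
  have hWl : W l ≠ 0 := by
    intro h
    apply hM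
    rw [h, Polynomial.coeff_zero, Polynomial.coeff_zero, mul_zero, zero_mul]
  have hyl : Pool.Agent.W602.GT.val y (X l : MvPolynomial (Fin (N + 1)) ℂ) ≠ 0 := by
    rw [Ne, hrel (X l) ⟨1, isHomogeneous_X _ _⟩, aeval_X]
    exact hWl
  refine hnc ⟨M, inferInstance, inferInstance, φ,
    Pool.Agent.W602.GT.val y (X j : MvPolynomial (Fin (N + 1)) ℂ) /
    Pool.Agent.W602.GT.val y (X l : MvPolynomial (Fin (N + 1)) ℂ), fun a ha => hM ?_⟩
  rw [hφ 1 (X j) (X l) (isHomogeneous_X _ _) (isHomogeneous_X _ _) hyl, aeval_X, aeval_X] at ha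
  have hl0 : rf (W l) ≠ 0 := by rwa [Ne, rf_zero]
  rw [div_eq_iff hl0] at ha
  have h2 : W j = Polynomial.C a * W l := by
    apply rf_inj
    rw [ha, rf_mul]
    congr 1
  rw [h2, Polynomial.coeff_C_mul, Polynomial.coeff_C_mul]
  ring

end Pool.Agent.E8helper35.IN
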