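import Pool.Agent.E8helper35.IN.Bd
import Pool.Agent.W619.PQ.Rat
import Pool.Agent.W619.PQ.Genus

/-!
The heights of the coefficients of the normalised differential equation, and derivations with few
zeros and poles.
-/

set_option autoImplicit false
set_option linter.unusedSectionVars false

open FF Polynomial IntermediateField

namespace Pool.Agent.E8helper35.IN

open Pool.Agent.W603.LV Pool.Agent.E8helper90.RM Pool.Agent.W619.PQ

variable {k K : Type} [Field k] [Field K] [Algebra k K] [CharZero k] [IsFF k K] [IsAlgClosed k]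

omit [IsAlgClosed k] in
theorem hgt_le_of {g : K} (B : Place k K → ℤ) (T : Finset (Place k K)) (hT : ∀ P, P ∉ T → B P = 0)
    (hB0 : ∀ P, 0 ≤ B P) (hB : ∀ P, Ge P (-B P) g) : hgt k g ≤ ∑ P ∈ T, B P := by
  classical
  let T' := T ∪ (finite_support (k := k) g).toFinset
  have h1 : ∀ P : Place k K, P.ord g ≠ 0 → P ∈ T' := fun P hP => by
    rw [Finset.mem_union]
    exact Or.inr (by simpa using hP)
  have h2 : ∑ P ∈ T, B P = ∑ P ∈ T', B P :=
    Finset.sum_subset (Finset.subset_union_left : T ⊆ T') fun P _ hP => hT P hP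
  rw [hgt_finset _ T' h1, h2]
  refine Finset.sum_le_sum fun P _ => ?_
  rcases hB P with h | h
  · rw [h, P.ord_zero]
    have := hB0 P
    omega
  · have := hB0 P
    omega

variable (k) in
/-- the number of zeros and poles of a derivation, with multiplicities -/
noncomputable def vsum (D : Derivation k K K) : ℤ := ∑ᶠ P : Place k K, |vo P D|

theorem vsum_finset {D : Derivation k K K} (T : Finset (Place k K))
    (hT : ∀ P, vo P D ≠ 0 → P ∈ T) : vsum k D = ∑ P ∈ T, |vo P D| := by
  unfold vsum
  rw [finsum_eq_sum_of_support_subset (s := T)]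
  intro P hP
  apply hT P
  intro h
  apply hP
  simp [h]

theorem vsum_nonneg (D : Derivation k K K) : 0 ≤ vsum k D := finsum_nonneg fun _ => abs_nonneg _

/-- the height of a derivative -/
theorem hgt_der {D : Derivation k K K} (hD : D ≠ 0) (f : K) :
    hgt k (D f) ≤ 2 * hgt k f + vsum k D := by
  classical
  let T := (finite_support (k := k) f).toFinset ∪ (vo_finite hD).toFinset
  have h1 : ∀ P : Place k K, P.ord f ≠ 0 → P ∈ T := fun P hP => by
    rw [Finset.mem_union]
    exact Or.inl (by simpa using hP)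
  have h2 : ∀ P : Place k K, vo P D ≠ 0 → P ∈ T := fun P hP => by
    rw [Finset.mem_union]
    exact Or.inr (by simpa using hP)
  rw [hgt_finset _ T h1, vsum_finset T h2, Finset.mul_sum, ← Finset.sum_add_distrib]
  refine hgt_le_of (fun P => 2 * max (-P.ord f) 0 + |vo P D|) T (fun P hP => ?_) (fun P => ?_)
    (fun P => ?_)
  · have h3 : P.ord f = 0 := by
      by_contra h
      exact hP (h1 P h)
    have h4 : vo P D = 0 := by
      by_contra h
      exact hP (h2 P h)
    change 2 * max (-P.ord f) 0 + |vo P D| = 0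
    rw [h3, h4]
    rfl
  · have := abs_nonneg (vo P D)
    have := le_max_right (-P.ord f) 0
    change 0 ≤ 2 * max (-P.ord f) 0 + |vo P D|
    omega
  · have h5 := neg_abs_le (vo P D)
    have h6 := le_abs_self (vo P D)
    rcases lt_or_ge (P.ord f) 0 with h | h
    · refine Or.inr ?_
      rw [(ord_der P hD h.ne).2]
      omega
    · refine (ge_der P hD (Or.inr h)).mono ?_
      have := le_max_right (-P.ord f) 0
      omega

/-- **A derivation with few zeros and poles.** -/
theorem exists_small_der : ∃ D : Derivation k K K, D ≠ 0 ∧ vsum k D ≤ canDeg k K + 4 ∧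
    0 ≤ canDeg k K + 2 := by
  classical
  by_cases hrat : ∃ t : K, k⟮t⟯ = ⊤
  · obtain ⟨x, hx⟩ := hrat
    have ht := transcendental_of_top hx
    obtain ⟨D, hD, hDx⟩ := exists_ddx ht
    obtain ⟨P, hP, hP2⟩ := pole_unique hx
    have h0 : ∀ Q : Place k K, vo Q D ≠ 0 → Q ∈ ({P} : Finset (Place k K)) := by
      intro Q hQ
      rw [Finset.mem_singleton]
      by_contra hne
      apply hQ
      refine (vo_finite_place hx hD hDx Q ?_).1
      by_contra hcon
      exact hne (hP2 Q (by omega))
    have h1 := canDeg_finset (k := k) hD {P} h0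
    rw [Finset.sum_singleton, vo_infinite_place hD hDx P hP] at h1
    refine ⟨D, hD, ?_, by omega⟩
    rw [vsum_finset {P} h0, Finset.sum_singleton, vo_infinite_place hD hDx P hP]
    have h2 : |(2 : ℤ)| = 2 := rfl
    omega
  · obtain ⟨f, hf0, hf⟩ := exists_regular hrat (der_ne (k := k) (K := K))
    have hfi := inv_ne_zero hf0
    have hD : f⁻¹ • der k K ≠ 0 := by
      intro h
      rcases smul_eq_zero.1 h with h | h
      · exact hfi h
      · exact der_ne h
    have hv : ∀ P : Place k K, vo P (f⁻¹ • der k K) ≤ 0 := by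
      intro P
      rw [vo_smul P der_ne hfi, P.ord_inv]
      have := hf P
      omega
    have h1 := canDeg_finset (k := k) hD (vo_finite hD).toFinset fun P hP => by simpa using hP
    have h2 : vsum k (f⁻¹ • der k K) = canDeg k K := by
      rw [vsum_finset (vo_finite hD).toFinset fun P hP => by simpa using hP]
      have h3 : ∀ P : Place k K, |vo P (f⁻¹ • der k K)| = -vo P (f⁻¹ • der k K) := fun P =>
        abs_of_nonpos (hv P)
      rw [Finset.sum_congr rfl fun P _ => h3 P, Finset.sum_neg_distrib, h1]
      ring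
    have h3 := vsum_nonneg (k := k) (f⁻¹ • der k K)
    exact ⟨_, hD, by omega, by omega⟩

/-- the order of an iterated derivative -/
theorem ge_iter0 (P : Place k K) {D : Derivation k K K} (hD : D ≠ 0) (hv : vo P D = 0) {f : K}
    {m : ℕ} (hf : Ge P m f) : ∀ i ≤ m, Ge P ((m : ℤ) - i) ((tw D 0)^[i] f) := by
  intro i
  induction i with
  | zero => intro _; simpa using hf
  | succ i ih =>
    intro hi
    rw [Function.iterate_succ_apply']
    have h1 := ih (by omega)
    have h2 : tw D 0 ((tw D 0)^[i] f) = D ((tw D 0)^[i] f) := by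
      unfold tw
      rw [zero_mul, add_zero]
    rw [h2]
    rcases h1 with h1 | h1
    · rw [h1, map_zero]
      exact Ge.zero
    · refine Or.inr ?_
      rw [(ord_der P hD (by omega)).2, hv]
      push_cast
      omega

theorem ge_det (P : Place k K) {n : ℕ} {M : Matrix (Fin n) (Fin n) K} (hM : ∀ i j, Ge P 0 (M i j))
    (j0 : Fin n) (h0 : ∀ i, Ge P 1 (M j0 i)) : Ge P 1 M.det := by
  rw [Matrix.det_apply']
  refine Ge.sum _ _ fun s _ => ?_
  have h1 : Ge P 0 (((Equiv.Perm.sign s : ℤ) : K)) := Ge.intCast _
  have h2 : Ge P 1 (∏ i, M (s i) i) := by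
    rw [← Finset.mul_prod_erase Finset.univ (fun i => M (s i) i) (Finset.mem_univ (s.symm j0))]
    have h3 : Ge P 1 (M (s (s.symm j0)) (s.symm j0)) := by
      rw [Equiv.apply_symm_apply]
      exact h0 _
    have h4 : Ge P 0 (∏ i ∈ Finset.univ.erase (s.symm j0), M (s i) i) := by
      have := Ge.prod (P := P) (Finset.univ.erase (s.symm j0)) (fun i => M (s i) i) (fun _ => 0)
        fun i _ => hM _ _
      simpa using this
    have := h3.mul h4
    simpa using this
  have := h1.mul h2
  simpa using this

/-- the inflection points are among the zeros and poles of finitely many functions -/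
theorem nonInfl_of (P : Place k K) {D : Derivation k K K} (hD : D ≠ 0) (hv : vo P D = 0) {n : ℕ}
    {y : Fin n → K} (hy : LinearIndependent k y) (h1 : ∀ j, P.ord (y j) = 0)
    (h2 : P.ord (wr D y) = 0) : NonInfl P (Submodule.span k (Set.range y)) n := by
  classical
  have hge : ∀ f ∈ Submodule.span k (Set.range y), Ge P 0 f := by
    intro f hf
    obtain ⟨c, rfl⟩ := (Submodule.mem_span_range_iff_exists_fun k).1 hf
    refine Ge.sum _ _ fun i _ => ?_
    rw [Algebra.smul_def]
    have := (Ge.const (P := P) (c i)).mul (Or.inr (h1 i).ge : Ge P 0 (y i))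
    simpa using this
  refine ⟨0, hge, fun f hf hf0 => ?_⟩
  by_contra hcon
  push Not at hcon
  rw [zero_add] at hcon
  obtain ⟨c, hc⟩ := (Submodule.mem_span_range_iff_exists_fun k).1 hf
  obtain ⟨j0, hj0⟩ : ∃ j, c j ≠ 0 := by
    by_contra h
    push Not at h
    apply hf0
    rw [← hc]
    exact Finset.sum_eq_zero fun i _ => by rw [h i, zero_smul]
  obtain ⟨z, hz⟩ : ∃ z : Fin n → K, z = Function.update y j0 f := ⟨_, rfl⟩
  obtain ⟨A, hA⟩ : ∃ A : Matrix (Fin n) (Fin n) k, A = Matrix.updateRow 1 j0 c := ⟨_, rfl⟩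
  have hdet : A.det = c j0 := by
    rw [hA]
    have h3 : c = ∑ i, c i • (1 : Matrix (Fin n) (Fin n) k) i := by
      funext j
      rw [Finset.sum_apply]
      simp [Matrix.one_apply]
    conv_lhs => rw [h3]
    rw [Matrix.det_updateRow_sum]
    simp
  have hcomb : ∀ j, z j = ∑ i, A j i • y i := by
    intro j
    rw [hz, hA]
    by_cases hj : j = j0
    · rw [hj, Function.update_self, Matrix.updateRow_self, hc]
    · rw [Function.update_of_ne hj, Matrix.updateRow_ne hj]
      simp [Matrix.one_apply]
  have hw := wr_comb D A hcomb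
  have hwy := wr_ne_zero hD y hy
  have hc' : algebraMap k K (c j0) ≠ 0 := (map_ne_zero_iff _ (algebraMap k K).injective).2 hj0
  have hw0 : wr D z ≠ 0 := by
    rw [hw, hdet, Algebra.smul_def]
    exact mul_ne_zero hc' hwy
  have hwo : P.ord (wr D z) = 0 := by
    rw [hw, hdet, Algebra.smul_def, P.ord_mul hc' hwy, P.ord_const hj0, h2, add_zero]
  have hzO : ∀ j, Ge P 0 (z j) := by
    intro j
    rw [hz]
    by_cases hj : j = j0
    · rw [hj, Function.update_self]
      exact hge f hf
    · rw [Function.update_of_ne hj]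
      exact Or.inr (h1 j).ge
  have h3 := ge_det P (M := tm D 0 z) (fun i j => ge_tw P hD hv Ge.zero (hzO i) j) j0 (fun i => by
    have h4 : z j0 = f := by rw [hz, Function.update_self]
    have h5 : Ge P ((n : ℕ) : ℤ) (z j0) := by
      rw [h4]
      exact Or.inr hcon
    refine (ge_iter0 P hD hv h5 i i.2.le).mono ?_
    have := i.2
    omega)
  rw [det_tm] at h3
  rcases h3 with h3 | h3
  · exact hw0 h3
  · omega

theorem finite_infl {n : ℕ} {y : Fin n → K} (hy : LinearIndependent k y) :
    {P : Place k K | ¬ NonInfl P (Submodule.span k (Set.range y)) n}.Finite := by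
  classical
  have hD := der_ne (k := k) (K := K)
  refine ((vo_finite hD).union ((finite_support (k := k) (wr (der k K) y)).union
    (Set.finite_iUnion fun j => finite_support (k := k) (y j)))).subset ?_
  intro P hP
  by_contra hcon
  simp only [Set.mem_union, Set.mem_ofPred_eq, Set.mem_iUnion, not_or, not_exists, not_not] at hcon
  exact hP (nonInfl_of P hD hcon.1 hy hcon.2.2 hcon.2.1)

/-- **The heights of the coefficients.** -/
theorem exists_coef {D : Derivation k K K} (hD : D ≠ 0) {n : ℕ} (hn : n ≠ 0) {y : Fin n → K}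
    (hy : LinearIndependent k y) : ∃ a : Fin n → K, (∀ j, (tw D (nt D y))^[n] (y j) =
      ∑ i : Fin n, a i * (tw D (nt D y))^[(i : ℕ)] (y j)) ∧
    ∀ i, hgt k (a i) ≤ n * ({P : Place k K |
      ¬ NonInfl P (Submodule.span k (Set.range y)) n}.ncard + 2 * vsum k D) := by
  classical
  have hwy := wr_ne_zero hD y hy
  have hdet : IsUnit (tm D (nt D y) y).det := by
    rw [det_tm]
    exact isUnit_iff_ne_zero.2 hwy
  obtain ⟨a, ha⟩ : ∃ a, a = ((tm D (nt D y) y)⁻¹).mulVec fun j => (tw D (nt D y))^[n] (y j) :=
    ⟨_, rfl⟩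
  have heq : ∀ j, (tw D (nt D y))^[n] (y j) =
      ∑ i : Fin n, a i * (tw D (nt D y))^[(i : ℕ)] (y j) := by
    intro j
    have h1 : (tm D (nt D y) y).mulVec a = fun j => (tw D (nt D y))^[n] (y j) := by
      rw [ha, Matrix.mulVec_mulVec, Matrix.mul_nonsing_inv _ hdet, Matrix.one_mulVec]
    have h2 := congrFun h1 j
    rw [← h2]
    change ∑ i : Fin n, tm D (nt D y) y j i * a i = _
    exact Finset.sum_congr rfl fun i _ => mul_comm _ _
  refine ⟨a, heq, fun i => ?_⟩
  obtain ⟨V, hV⟩ : ∃ V, V = Submodule.span k (Set.range y) := ⟨_, rfl⟩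
  have hVs : V ≤ sol D (nt D y) a := by
    rw [hV, Submodule.span_le]
    rintro _ ⟨j, rfl⟩
    exact heq j
  have hfinV : FiniteDimensional k V := by
    rw [hV]
    exact FiniteDimensional.span_of_finite k (Set.finite_range y)
  have hrank : Module.finrank k V = n := by
    rw [hV, finrank_span_eq_card hy, Fintype.card_fin]
  -- the local bounds
  have hloc : ∀ P : Place k K, Ge P (-(n * (1 + |vo P D|))) (a i) ∧
      (NonInfl P V n → vo P D = 0 → Ge P 0 (a i)) := by
    intro P
    obtain ⟨z, hzV, hzl, hzi⟩ := exists_ord_basis P n V hrank hfinV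
    have hz0 : ∀ j, z j ≠ 0 := fun j => hzl.ne_zero j
    have hcomb : ∃ A : Matrix (Fin n) (Fin n) k, ∀ j, z j = ∑ i, A j i • y i := by
      have h1 : ∀ j, ∃ c : Fin n → k, ∑ i, c i • y i = z j := fun j =>
        (Submodule.mem_span_range_iff_exists_fun k).1 (hV ▸ hzV j)
      choose A hA using h1
      exact ⟨Matrix.of A, fun j => (hA j).symm⟩
    obtain ⟨A, hA⟩ := hcomb
    have hw := wr_comb D A hA
    have hwz := (ord_wr P hD hz0 hzi).1
    have hA0 : A.det ≠ 0 := by
      intro h
      apply hwz
      rw [hw, h, zero_smul]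
    have hnt : nt D z = nt D y := by
      unfold nt
      rw [hw, D.map_smul, Algebra.smul_def, Algebra.smul_def]
      congr 1
      exact mul_div_mul_left _ _ ((map_ne_zero_iff _ (algebraMap k K).injective).2 hA0)
    constructor
    · have h1 := coef_any P hD hz0 hzi (ge_nt P hD hwy) (fun j => hVs (hzV j)) i
      refine h1.mono ?_
      have hi := i.2
      have h2 : (1 : ℤ) ≤ (n : ℤ) - ((i : ℕ) : ℤ) := by omega
      have h3 : (n : ℤ) - ((i : ℕ) : ℤ) ≤ n := by omega
      have h4 := neg_abs_le (vo P D)
      have h5 := abs_nonneg (vo P D)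
      nlinarith
    · intro hN hv
      refine coef_reg P hD hv hn hN hzV hz0 hzi (fun j => ?_) i
      rw [hnt]
      exact hVs (hzV j)
  -- the sum
  have hfin := finite_infl (k := k) hy
  rw [← hV] at hfin
  let T := hfin.toFinset ∪ (vo_finite hD).toFinset
  let B : Place k K → ℤ := fun P => n * ((if NonInfl P V n then 0 else 1) + 2 * |vo P D|)
  have h1 : hgt k (a i) ≤ ∑ P ∈ T, B P := by
    refine hgt_le_of B T (fun P hP => ?_) (fun P => ?_) (fun P => ?_)
    · rw [Finset.mem_union, Set.Finite.mem_toFinset, Set.Finite.mem_toFinset, not_or] at hP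
      have h2 : NonInfl P V n := by
        by_contra h
        exact hP.1 h
      have h3 : vo P D = 0 := by
        by_contra h
        exact hP.2 h
      change (n : ℤ) * ((if NonInfl P V n then 0 else 1) + 2 * |vo P D|) = 0
      rw [if_pos h2, h3]
      simp
    · change 0 ≤ (n : ℤ) * ((if NonInfl P V n then 0 else 1) + 2 * |vo P D|)
      have := abs_nonneg (vo P D)
      split_ifs <;> positivity
    · by_cases h2 : NonInfl P V n
      · by_cases h3 : vo P D = 0
        · refine ((hloc P).2 h2 h3).mono ?_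
          change -((n : ℤ) * ((if NonInfl P V n then 0 else 1) + 2 * |vo P D|)) ≤ 0
          rw [if_pos h2, h3]
          simp
        · refine (hloc P).1.mono ?_
          change -((n : ℤ) * ((if NonInfl P V n then 0 else 1) + 2 * |vo P D|)) ≤ _
          rw [if_pos h2]
          have h4 : 1 ≤ |vo P D| := Int.one_le_abs h3
          nlinarith
      · refine (hloc P).1.mono ?_
        change -((n : ℤ) * ((if NonInfl P V n then 0 else 1) + 2 * |vo P D|)) ≤ _
        rw [if_neg h2]
        have h4 := abs_nonneg (vo P D)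
        nlinarith
  refine h1.trans (le_of_eq ?_)
  change ∑ P ∈ T, (n : ℤ) * ((if NonInfl P V n then 0 else 1) + 2 * |vo P D|) = _
  rw [← Finset.mul_sum, Finset.sum_add_distrib, ← Finset.mul_sum,
    ← vsum_finset T fun P hP => by
      rw [Finset.mem_union]
      exact Or.inr (by simpa using hP), ← hV]
  congr 2
  have h2 : ∑ P ∈ T, (if NonInfl P V n then (0 : ℤ) else 1) = ∑ P ∈ hfin.toFinset, 1 := by
    rw [← Finset.sum_subset (Finset.subset_union_left : hfin.toFinset ⊆ T) fun P _ hP => by
      rw [if_pos]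
      by_contra h
      exact hP (by simpa using h)]
    refine Finset.sum_congr rfl fun P hP => ?_
    rw [if_neg]
    simpa using hP
  rw [h2, Finset.sum_const, Set.ncard_eq_toFinset_card _ hfin]
  simp

end Pool.Agent.E8helper35.IN
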