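import Pool.Agent.E8helper35.IN.Core

/-!
Rational curves through the generic points of varieties which are covered by rational curves, over
algebraically closed extensions.
-/

set_option autoImplicit false

open MvPolynomial

namespace Pool.Agent.E8helper35.IN

open Pool.Agent.Y377.IL Pool.Agent.Y377.EL Pool.Agent.E8helper90.RM
open Pool.Agent.W603.LV (wm wr)

/-- a point of an algebra of finite type over a field, with values in an algebraically closed
extension -/
theorem exists_pt_ext (F B Ω : Type) [Field F] [CommRing B] [Nontrivial B] [Algebra F B]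
    [Algebra.FiniteType F B] [Field Ω] [Algebra F Ω] [IsAlgClosed Ω] : Nonempty (B →ₐ[F] Ω) := by
  obtain ⟨m, hm⟩ := Ideal.exists_maximal B
  let _ : Field (B ⧸ m) := Ideal.Quotient.field m
  have h1 : Algebra.FiniteType F (B ⧸ m) := Algebra.FiniteType.of_surjective
    (Ideal.Quotient.mkₐ F m) Ideal.Quotient.mk_surjective
  have h2 : Module.Finite F (B ⧸ m) := finite_of_finite_type_of_isJacobsonRing F (B ⧸ m)
  have h3 : Algebra.IsAlgebraic F (B ⧸ m) := inferInstance
  exact ⟨(IsAlgClosed.lift : (B ⧸ m) →ₐ[F] Ω).comp (Ideal.Quotient.mkₐ F m)⟩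

variable {N : ℕ}

/-- homomorphisms and values of polynomials -/
theorem transport {R Ω B : Type} [CommRing R] [CommRing Ω] [CommRing B] [Algebra ℂ R]
    [Algebra ℂ Ω] (jB : ℂ →+* B) (v : B →+* R) (hv : Function.Injective v)
    (hvj : v.comp jB = algebraMap ℂ R) (h : B →+* Ω) (hhj : h.comp jB = algebraMap ℂ Ω)
    (QB : Fin (N + 1) → Polynomial B) (G : MvPolynomial (Fin (N + 1)) ℂ)
    (hG : aeval (fun j => (QB j).map v) G = 0) : aeval (fun j => (QB j).map h) G = 0 := by
  let _ : Algebra ℂ B := jB.toAlgebra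
  let v' : B →ₐ[ℂ] R := { v with commutes' := fun c => DFunLike.congr_fun hvj c }
  let h' : B →ₐ[ℂ] Ω := { h with commutes' := fun c => DFunLike.congr_fun hhj c }
  have e1 := MvPolynomial.comp_aeval_apply (f := QB) (Polynomial.mapAlgHom v') G
  have e2 := MvPolynomial.comp_aeval_apply (f := QB) (Polynomial.mapAlgHom h') G
  have e3 : aeval (fun j => (QB j).map v) G = (aeval QB G).map v := e1.symm
  have e4 : aeval (fun j => (QB j).map h) G = (aeval QB G).map h := e2.symm
  rw [e3] at hG
  have e5 : aeval QB G = 0 := Polynomial.map_injective v hv (by rw [hG, Polynomial.map_zero])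
  rw [e4, e5, Polynomial.map_zero]

/-- the value of a polynomial at the variable -/
theorem map_eval_X {M : Type} [Field M] (p : Polynomial M) :
    (p.map (algebraMap M (RatFunc M))).eval RatFunc.X =
      algebraMap (Polynomial M) (RatFunc M) p := by
  have h1 : (Polynomial.evalRingHom (RatFunc.X : RatFunc M)).comp
      (Polynomial.mapRingHom (algebraMap M (RatFunc M))) =
      algebraMap (Polynomial M) (RatFunc M) := by
    apply Polynomial.ringHom_ext
    · intro a
      simp [RatFunc.algebraMap_C]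
    · simp [RatFunc.algebraMap_X]
  exact DFunLike.congr_fun h1 p

/-- **Rational curves through the generic point.** -/
theorem fam_curve {K : Type} [Field K] [Algebra ℂ K] {x : Fin (N + 1) → K} {l : Fin (N + 1)}
    (hl : x l ≠ 0) {S : Subalgebra ℂ K} {t : Finset K} (ht : ∀ j, x j / x l ∈ t)
    (ht' : ∀ a ∈ t, ∃ j, a = x j / x l) (hF : RatFam S t) {Ω : Type} [Field Ω] [Algebra ℂ Ω]
    [IsAlgClosed Ω] (ι : K →ₐ[ℂ] Ω) :
    ∃ Q : Fin (N + 1) → Polynomial Ω, (∀ j, (Q j).coeff 0 = ι (x j / x l)) ∧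
      (∃ j, (Q j).coeff 1 * (Q l).coeff 0 - (Q j).coeff 0 * (Q l).coeff 1 ≠ 0) ∧
      ∀ G : MvPolynomial (Fin (N + 1)) ℂ, (∃ d, G.IsHomogeneous d) → aeval x G = 0 →
        aeval Q G = 0 := by
  classical
  obtain ⟨S0, M, i1, i2, φ, -, h2, -, ⟨a, ha, hac⟩, -⟩ := hF
  have hM : CharZero M := charZero_of_injective_algebraMap (algebraMap ℂ M).injective
  let y : Fin (N + 1) → frac S0 := fun j => ⟨x j / x l, h2 _ (ht j)⟩
  obtain ⟨b, hb⟩ := IsLocalization.exist_integer_multiples (nonZeroDivisors (Polynomial M))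
    Finset.univ (fun j => φ (y j))
  choose P hP using fun j => hb j (Finset.mem_univ j)
  have hb0 : (b : Polynomial M) ≠ 0 := nonZeroDivisors.ne_zero b.2
  obtain ⟨q, hq⟩ : ∃ q : RatFunc M, q = algebraMap (Polynomial M) (RatFunc M) b := ⟨_, rfl⟩
  have hq0 : q ≠ 0 := by
    rw [hq, Ne, map_eq_zero_iff _ (RatFunc.algebraMap_injective M)]
    exact hb0
  have hPq : ∀ j, algebraMap (Polynomial M) (RatFunc M) (P j) = q * φ (y j) := by
    intro j
    rw [hP j, Algebra.smul_def, hq]
  have hyl : y l = 1 := Subtype.ext (div_self hl)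
  have hPl : P l = b := by
    apply RatFunc.algebraMap_injective M
    rw [hPq, hyl, map_one, mul_one, hq]
  -- values of forms
  have hval : ∀ (d : ℕ) (G : MvPolynomial (Fin (N + 1)) ℂ), G.IsHomogeneous d →
      aeval x G = 0 → aeval P G = 0 := by
    intro d G hG
    have e1 : algebraMap (Polynomial M) (RatFunc M) (aeval P G) = q ^ d * φ (aeval y G) := by
      have e2 : algebraMap (Polynomial M) (RatFunc M) (aeval P G) =
          aeval (fun j => algebraMap (Polynomial M) (RatFunc M) (P j)) G := by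
        have := MvPolynomial.comp_aeval_apply (f := P)
          (IsScalarTower.toAlgHom ℂ (Polynomial M) (RatFunc M)) G
        exact this
      rw [e2]
      have e3 : (fun j => algebraMap (Polynomial M) (RatFunc M) (P j)) =
          fun j => q * (fun j => φ (y j)) j := funext hPq
      rw [e3, form_scale hG, MvPolynomial.comp_aeval_apply (f := y) φ G]
    have e4 : aeval x G = x l ^ d * aeval (fun j => x j / x l) G := by
      rw [← form_scale hG]
      congr 2
      funext j
      rw [mul_div_cancel₀ _ hl]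
    have e5 : ((aeval y G : frac S0) : K) = aeval (fun j => x j / x l) G := by
      have := MvPolynomial.comp_aeval_apply (f := y) (frac S0).val G
      exact this
    intro h0
    rw [e4, mul_eq_zero, or_iff_right (pow_ne_zero _ hl), ← e5] at h0
    have h0' : (aeval y G : frac S0) = 0 := Subtype.ext h0
    rw [← map_eq_zero_iff _ (RatFunc.algebraMap_injective M), e1, h0', map_zero, mul_zero]
  -- the curve over `M(s)`
  let T : Fin (N + 1) → Polynomial (RatFunc M) := fun j =>
    Polynomial.taylor RatFunc.X ((P j).map (algebraMap M (RatFunc M)))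
  let QR : Fin (N + 1) → Polynomial (RatFunc M) := fun j => Polynomial.C q⁻¹ * T j
  have hT0 : ∀ j, (T j).coeff 0 = algebraMap (Polynomial M) (RatFunc M) (P j) := fun j => by
    rw [Polynomial.taylor_coeff_zero, map_eval_X]
  have hT1 : ∀ j, (T j).coeff 1 =
      algebraMap (Polynomial M) (RatFunc M) (Polynomial.derivative (P j)) := fun j => by
    rw [Polynomial.taylor_coeff_one, Polynomial.derivative_map, map_eval_X]
  have hQ0 : ∀ j, (QR j).coeff 0 = φ (y j) := fun j => by
    change (Polynomial.C q⁻¹ * T j).coeff 0 = _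
    rw [Polynomial.coeff_C_mul, hT0, hPq, inv_mul_cancel_left₀ hq0]
  have hQG : ∀ G : MvPolynomial (Fin (N + 1)) ℂ, (∃ d, G.IsHomogeneous d) → aeval x G = 0 →
      aeval QR G = 0 := by
    rintro G ⟨d, hd⟩ h0
    have e1 : aeval QR G = Polynomial.C q⁻¹ ^ d * aeval T G := form_scale hd _ _
    have e2 : aeval T G = Polynomial.taylor RatFunc.X
        ((aeval P G).map (algebraMap M (RatFunc M))) := by
      let ψ : Polynomial M →ₐ[ℂ] Polynomial (RatFunc M) :=
        { toRingHom := (Polynomial.taylorAlgHom (RatFunc.X : RatFunc M)).toRingHom.comp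
            (Polynomial.mapRingHom (algebraMap M (RatFunc M)))
          commutes' := by
            intro c
            change Polynomial.taylor RatFunc.X (Polynomial.map (algebraMap M (RatFunc M))
              (Polynomial.C (algebraMap ℂ M c))) = _
            rw [Polynomial.map_C, Polynomial.taylor_C]
            rfl }
      exact (MvPolynomial.comp_aeval_apply (f := P) ψ G).symm
    rw [e1, e2, hval d G hd h0, Polynomial.map_zero, map_zero, mul_zero]
  obtain ⟨j, hj⟩ := ht' _ ha
  obtain ⟨w, hw⟩ : ∃ w, w = (QR j).coeff 1 * (QR l).coeff 0 - (QR j).coeff 0 * (QR l).coeff 1 :=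
    ⟨_, rfl⟩
  have hw0 : w ≠ 0 := by
    have e1 : w = q⁻¹ ^ 2 * algebraMap (Polynomial M) (RatFunc M)
        (Polynomial.derivative (P j) * P l - P j * Polynomial.derivative (P l)) := by
      rw [hw]
      change (Polynomial.C q⁻¹ * T j).coeff 1 * (Polynomial.C q⁻¹ * T l).coeff 0 -
        (Polynomial.C q⁻¹ * T j).coeff 0 * (Polynomial.C q⁻¹ * T l).coeff 1 = _
      rw [Polynomial.coeff_C_mul, Polynomial.coeff_C_mul, Polynomial.coeff_C_mul,
        Polynomial.coeff_C_mul, hT0, hT0, hT1, hT1, map_sub, map_mul, map_mul]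
      ring
    rw [e1]
    refine mul_ne_zero (pow_ne_zero _ (inv_ne_zero hq0)) ?_
    rw [Ne, map_eq_zero_iff _ (RatFunc.algebraMap_injective M), sub_eq_zero]
    intro hwr
    obtain ⟨c, hc⟩ := prop_of_wronskian (by rw [hPl]; exact hb0) hwr
    apply hac c
    have e6 : a = y j := Subtype.ext hj
    rw [e6]
    have e7 := hPq j
    rw [hc, hPl, map_mul, ← hq] at e7
    have e8 : algebraMap (Polynomial M) (RatFunc M) (Polynomial.C c) =
        algebraMap M (RatFunc M) c := rfl
    rw [e8, mul_comm] at e7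
    exact (mul_left_cancel₀ hq0 e7).symm
  -- the algebra of the coefficients
  let _ : Algebra (frac S0) (RatFunc M) := (φ : frac S0 →+* RatFunc M).toAlgebra
  let _ : Algebra (frac S0) Ω := ((ι : K →+* Ω).comp ((frac S0).val : frac S0 →+* K)).toAlgebra
  let s : Finset (RatFunc M) := (Finset.univ.biUnion fun j : Fin (N + 1) => (QR j).coeffs) ∪ {w⁻¹}
  let B : Subalgebra (frac S0) (RatFunc M) := Algebra.adjoin (frac S0) (s : Set (RatFunc M))
  have hft : Algebra.FiniteType (frac S0) B :=
    B.fg_iff_finiteType.1 (Subalgebra.fg_adjoin_finset s)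
  have hcoef : ∀ j i, (QR j).coeff i ∈ B := by
    intro j i
    by_cases h0 : (QR j).coeff i = 0
    · rw [h0]
      exact B.zero_mem
    · refine Algebra.subset_adjoin ?_
      rw [Finset.mem_coe, Finset.mem_union, Finset.mem_biUnion]
      exact Or.inl ⟨j, Finset.mem_univ _, Polynomial.coeff_mem_coeffs h0⟩
  have hwi : w⁻¹ ∈ B := by
    refine Algebra.subset_adjoin ?_
    rw [Finset.mem_coe, Finset.mem_union]
    exact Or.inr (Finset.mem_singleton_self _)
  have hlift : ∀ j, ∃ p : Polynomial B, p.map (B.val : B →+* RatFunc M) = QR j := by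
    intro j
    rw [← Polynomial.mem_lifts, Polynomial.lifts_iff_coeff_lifts]
    intro i
    exact ⟨⟨_, hcoef j i⟩, rfl⟩
  choose QB hQB using hlift
  obtain ⟨h⟩ := exists_pt_ext (frac S0) B Ω
  have hcB : ∀ j i, ((QB j).coeff i : RatFunc M) = (QR j).coeff i := by
    intro j i
    rw [← hQB j, Polynomial.coeff_map]
    rfl
  refine ⟨fun j => (QB j).map (h : B →+* Ω), fun i => ?_, ⟨j, ?_⟩, fun G hG h0 => ?_⟩
  · have e1 : (QB i).coeff 0 = algebraMap (frac S0) B (y i) := by
      apply Subtype.ext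
      rw [hcB, hQ0]
      rfl
    rw [Polynomial.coeff_map, e1]
    change h (algebraMap (frac S0) B (y i)) = _
    rw [h.commutes]
    rfl
  · rw [Polynomial.coeff_map, Polynomial.coeff_map, Polynomial.coeff_map, Polynomial.coeff_map]
    have e1 : ((QB j).coeff 1 * (QB l).coeff 0 - (QB j).coeff 0 * (QB l).coeff 1) *
        (⟨w⁻¹, hwi⟩ : B) = 1 := by
      apply Subtype.ext
      change (((QB j).coeff 1 : RatFunc M) * (QB l).coeff 0 - (QB j).coeff 0 * (QB l).coeff 1) *
        w⁻¹ = 1
      rw [hcB, hcB, hcB, hcB, ← hw, mul_inv_cancel₀ hw0]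
    have e2 := congrArg (h : B →+* Ω) e1
    rw [map_mul, map_sub, map_mul, map_mul, map_one] at e2
    exact left_ne_zero_of_mul_eq_one e2
  · refine transport ((algebraMap (frac S0) B).comp (algebraMap ℂ (frac S0)))
      (B.val : B →+* RatFunc M) Subtype.val_injective ?_ (h : B →+* Ω) ?_ QB G ?_
    · ext c
      change φ (algebraMap ℂ (frac S0) c) = _
      exact φ.commutes c
    · ext c
      change h (algebraMap (frac S0) B (algebraMap ℂ (frac S0) c)) = _
      rw [h.commutes]
      change ι (algebraMap ℂ K c) = _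
      exact ι.commutes c
    · have e1 : (fun j => (QB j).map (B.val : B →+* RatFunc M)) = QR := funext hQB
      rw [e1]
      exact hQG G hG h0

/-- **Solutions of linear differential equations and rational curves** -/
theorem core_fam {K : Type} [Field K] [Algebra ℂ K] {D : Derivation ℂ K K} {n : ℕ} (hC : Cst D)
    (F : IntermediateField ℂ K) (hF : ∀ x ∈ F, D x ∈ F) (hn : 0 < n)
    {y : Fin n → K} (hw : wr D y ≠ 0) {σ : K} {a : Fin n → K} (haF : ∀ i, a i ∈ F)
    (ha : ∀ j, (tw D σ)^[n] (y j) = ∑ i : Fin n, a i * (tw D σ)^[(i : ℕ)] (y j))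
    {x : Fin (N + 1) → K} (c : Fin (N + 1) → Fin n → ℂ)
    (hx : ∀ j, x j = ∑ i, algebraMap ℂ K (c j i) * y i)
    {l : Fin (N + 1)} (hne : ∃ j, ¬ IsAlgebraic F.toSubalgebra (x j / x l)) :
    ∃ (S : Subalgebra ℂ K) (t : Finset K), (∀ j, x j / x l ∈ t) ∧ (∀ b ∈ t, ∃ j, b = x j / x l) ∧
      RatFam S t := by
  classical
  have hfund := fund F hw haF ha
  have hT : LTow D F.toSubalgebra (mat F.toSubalgebra (fX D σ y) (fY D σ y)) :=
    LTow.step LTow.base hfund
  obtain ⟨l', m', hc0⟩ := exists_inv_ne hn hw (σ := σ)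
  obtain ⟨c0, hc0'⟩ : ∃ c0, c0 = (tm D σ y)⁻¹ l' m' := ⟨_, rfl⟩
  rw [← hc0'] at hc0
  have hmem : ∀ j, x j * c0 ∈ mat F.toSubalgebra (fX D σ y) (fY D σ y) := by
    intro j
    rw [hx j, Finset.sum_mul]
    refine Subalgebra.sum_mem _ fun i _ => ?_
    rw [mul_assoc]
    refine Subalgebra.mul_mem _ (Subalgebra.algebraMap_mem _ _) ?_
    have h1 := mem_mat_left F.toSubalgebra (fX D σ y) (fY D σ y)
      (finProdFinEquiv (⟨0, hn⟩, l')) (finProdFinEquiv (i, m'))
    have h2 : fX D σ y (finProdFinEquiv (⟨0, hn⟩, l')) (finProdFinEquiv (i, m')) = y i * c0 := by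
      simp only [fX, zz, Matrix.of_apply, Equiv.symm_apply_apply]
      rw [hc0']
      rfl
    rwa [h2] at h1
  refine ⟨mat F.toSubalgebra (fX D σ y) (fY D σ y), Finset.univ.image fun j => x j / x l,
    fun j => Finset.mem_image.2 ⟨j, Finset.mem_univ j, rfl⟩, fun b hb => ?_, ?_⟩
  · obtain ⟨j, -, rfl⟩ := Finset.mem_image.1 hb
    exact ⟨j, rfl⟩
  · refine hyp.main hC (goodB_field F hF) hT (fun b hb => ?_) ?_
    · obtain ⟨j, -, rfl⟩ := Finset.mem_image.1 hb
      have h1 : x j / x l = (x j * c0) / (x l * c0) := by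
        rw [mul_div_mul_right _ _ hc0]
      rw [h1]
      exact fracs_mem (hmem j) (hmem l)
    · obtain ⟨j, hj⟩ := hne
      exact ⟨x j / x l, Finset.mem_image.2 ⟨j, Finset.mem_univ j, rfl⟩, hj⟩

/-- **Specialisation of rational curves**, with control of the degrees. -/
theorem spec_curve {L : Type} [Field L] [Algebra ℂ L] {E : ℕ}
    {S : Set (MvPolynomial (Fin (N + 1)) ℂ)} {G : MvPolynomial (Fin (N + 1)) ℂ}
    (hG : ∀ p : Fin (N + 1) → Polynomial ℂ, (∀ j, (p j).natDegree ≤ E) →
      (∃ (s t : ℂ) (j l : Fin (N + 1)), (p j).eval s * (p l).eval t ≠ (p l).eval s * (p j).eval t) →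
      (∀ F ∈ S, aeval p F = 0) → aeval p G = 0)
    (Q : Fin (N + 1) → Polynomial L) (hdeg : ∀ j, (Q j).natDegree ≤ E)
    (hS : ∀ F ∈ S, aeval Q F = 0) {j l : Fin (N + 1)}
    (hnc : (Q j).coeff 1 * (Q l).coeff 0 - (Q j).coeff 0 * (Q l).coeff 1 ≠ 0) :
    aeval (fun j => (Q j).coeff 0) G = 0 := by
  classical
  by_contra hcon
  let s : Finset L := Finset.univ.biUnion fun j : Fin (N + 1) => (Q j).coeffs
  let B : Subalgebra ℂ L := Algebra.adjoin ℂ (s : Set L)
  have hft : Algebra.FiniteType ℂ B := B.fg_iff_finiteType.1 (Subalgebra.fg_adjoin_finset s)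
  have hcoef : ∀ j i, (Q j).coeff i ∈ B := by
    intro j i
    by_cases h0 : (Q j).coeff i = 0
    · rw [h0]
      exact B.zero_mem
    · refine Algebra.subset_adjoin ?_
      rw [Finset.mem_coe, Finset.mem_biUnion]
      exact ⟨j, Finset.mem_univ _, Polynomial.coeff_mem_coeffs h0⟩
  have hlift : ∀ j, ∃ p : Polynomial B, p.map (B.val : B →+* L) = Q j := by
    intro j
    rw [← Polynomial.mem_lifts, Polynomial.lifts_iff_coeff_lifts]
    intro i
    exact ⟨⟨_, hcoef j i⟩, rfl⟩
  choose QB hQB using hlift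
  have hcB : ∀ j i, ((QB j).coeff i : L) = (Q j).coeff i := by
    intro j i
    rw [← hQB j, Polynomial.coeff_map]
    rfl
  obtain ⟨w, hw⟩ : ∃ w : B,
    w = (QB j).coeff 1 * (QB l).coeff 0 - (QB j).coeff 0 * (QB l).coeff 1 := ⟨_, rfl⟩
  have hw0 : w ≠ 0 := by
    intro h
    apply hnc
    have h1 := congrArg Subtype.val h
    rw [hw] at h1
    change ((QB j).coeff 1 : L) * (QB l).coeff 0 - (QB j).coeff 0 * (QB l).coeff 1 = 0 at h1
    rwa [hcB, hcB, hcB, hcB] at h1
  have hg0 : (aeval (fun j => (QB j).coeff 0) G : B) ≠ 0 := by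
    intro h
    apply hcon
    have h1 := MvPolynomial.comp_aeval_apply (f := fun j => (QB j).coeff 0) B.val G
    rw [h, map_zero] at h1
    have h2 : (fun i => (Q i).coeff 0) = fun i => B.val ((QB i).coeff 0) :=
      funext fun i => (hcB i 0).symm
    rw [h2]
    exact h1.symm
  obtain ⟨h, hh⟩ := Pool.Agent.Y737.IL.exists_pt B _ (mul_ne_zero hw0 hg0)
  rw [map_mul] at hh
  have hh1 := left_ne_zero_of_mul hh
  have hh2 := right_ne_zero_of_mul hh
  have h3 : (fun i => (QB i).map (B.val : B →+* L)) = Q := funext hQB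
  have h4 := hG (fun i => (QB i).map (h : B →+* ℂ)) (fun i => by
      refine Polynomial.natDegree_map_le.trans ?_
      have h5 : (QB i).natDegree = (Q i).natDegree := by
        rw [← hQB i]
        exact (Polynomial.natDegree_map_eq_of_injective Subtype.val_injective _).symm
      rw [h5]
      exact hdeg i) (by
      by_contra hc
      push Not at hc
      apply hh1
      have h5 : ∀ t : ℂ, Polynomial.C (((QB l).map (h : B →+* ℂ)).eval t) *
          ((QB j).map (h : B →+* ℂ)) = Polynomial.C (((QB j).map (h : B →+* ℂ)).eval t) *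
          ((QB l).map (h : B →+* ℂ)) := by
        intro t
        refine Polynomial.funext fun r => ?_
        rw [Polynomial.eval_mul, Polynomial.eval_mul, Polynomial.eval_C, Polynomial.eval_C]
        have := hc r t j l
        linear_combination this
      have h6 := congrArg (fun p : Polynomial ℂ => p.coeff 1) (h5 0)
      simp only [Polynomial.coeff_C_mul, Polynomial.coeff_map, ← Polynomial.coeff_zero_eq_eval_zero]
        at h6
      rw [hw, map_sub, map_mul, map_mul, sub_eq_zero]
      have h7 : h ((QB l).coeff 0) * h ((QB j).coeff 1) =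
        h ((QB j).coeff 0) * h ((QB l).coeff 1) := h6
      linear_combination h7) (fun F hF =>
      transport (algebraMap ℂ B) (B.val : B →+* L) Subtype.val_injective (by rfl) (h : B →+* ℂ)
        (by ext c; exact h.commutes c) QB F (by rw [h3]; exact hS F hF))
  apply hh2
  have h8 : h (aeval (fun i => (QB i).coeff 0) G) =
      (aeval (fun i => (QB i).map (h : B →+* ℂ)) G).eval 0 := by
    have e1 := MvPolynomial.comp_aeval_apply (f := fun i => (QB i).coeff 0) h G
    have e2 := MvPolynomial.comp_aeval_apply (f := fun i => (QB i).map (h : B →+* ℂ))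
      (Polynomial.aeval (0 : ℂ) : Polynomial ℂ →ₐ[ℂ] ℂ) G
    have e3 : (Polynomial.aeval (0 : ℂ) : Polynomial ℂ →ₐ[ℂ] ℂ)
      (aeval (fun i => (QB i).map (h : B →+* ℂ)) G) =
        (aeval (fun i => (QB i).map (h : B →+* ℂ)) G).eval 0 :=
      Polynomial.coe_aeval_eq_eval (0 : ℂ) ▸ rfl
    rw [e1, ← e3, e2]
    congr 2
    funext i
    change h ((QB i).coeff 0) = (Polynomial.aeval (0 : ℂ)) ((QB i).map (h : B →+* ℂ))
    rw [Polynomial.coe_aeval_eq_eval, ← Polynomial.coeff_zero_eq_eval_zero, Polynomial.coeff_map]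
    rfl
  rw [h8, h4, Polynomial.eval_zero]

end Pool.Agent.E8helper35.IN
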