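import Pool.Agent.W603.PV.Hgt
import Pool.Agent.E8helper90.RM.Op

/-!
Local theory: residues of logarithmic derivatives, orders of twisted Wronskians.
-/

set_option autoImplicit false

open FF Polynomial

namespace Pool.Agent.E8helper35.IN

open Pool.Agent.W603.LV Pool.Agent.E8helper90.RM

variable {k K : Type} [Field k] [Field K] [Algebra k K]

/-- the logarithmic derivative is additive -/
theorem ld_mul (D : Derivation k K K) {f g : K} (hf : f ≠ 0) (hg : g ≠ 0) :
    D (f * g) / (f * g) = D f / f + D g / g := by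
  rw [D.leibniz, smul_eq_mul, smul_eq_mul]
  field_simp
  ring

theorem ld_inv (D : Derivation k K K) (f : K) : D f⁻¹ / f⁻¹ = - (D f / f) := by
  by_cases hf : f = 0
  · simp [hf]
  · rw [D.leibniz_inv, smul_eq_mul]
    field_simp

theorem ld_pow (D : Derivation k K K) {f : K} (hf : f ≠ 0) (n : ℕ) :
    D (f ^ n) / f ^ n = n * (D f / f) := by
  induction n with
  | zero => simp
  | succ n ih =>
    rw [pow_succ, ld_mul D (pow_ne_zero _ hf) hf, ih]
    push_cast
    ring

theorem ld_zpow (D : Derivation k K K) {f : K} (hf : f ≠ 0) (n : ℤ) :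
    D (f ^ n) / f ^ n = n * (D f / f) := by
  cases n with
  | ofNat n =>
    rw [Int.ofNat_eq_natCast, zpow_natCast, ld_pow D hf, Int.cast_natCast]
  | negSucc n =>
    rw [zpow_negSucc, ld_inv, ld_pow D hf]
    push_cast
    ring

variable [CharZero k] [IsFF k K] [IsAlgClosed k]

/-- the scaled derivation maps the local ring into the maximal ideal -/
theorem ge_scaled (P : Place k K) {D : Derivation k K K} (hD : D ≠ 0) {lam : K} (hl0 : lam ≠ 0)
    (hl : P.ord lam = 1 - vo P D) {f : K} (hf : Ge P 0 f) : Ge P 1 (lam * D f) := by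
  obtain ⟨c, hc⟩ := Pool.Agent.W603.LV.exists_const P hf
  have h1 : D f = D (f - algebraMap k K c) := by
    rw [map_sub, D.map_algebraMap, sub_zero]
  rw [h1]
  rcases hc with hc | hc
  · rw [hc, map_zero, mul_zero]
    exact Ge.zero
  · obtain ⟨h2, h3⟩ := ord_der P hD (f := f - algebraMap k K c) (by omega)
    refine Or.inr ?_
    rw [P.ord_mul hl0 h2, hl, h3]
    omega

/-- the derivation maps the local ring into itself if its order is not negative -/
theorem ge_der (P : Place k K) {D : Derivation k K K} (hD : D ≠ 0) {f : K} (hf : Ge P 0 f) :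
    Ge P (vo P D) (D f) := by
  obtain ⟨c, hc⟩ := Pool.Agent.W603.LV.exists_const P hf
  have h1 : D f = D (f - algebraMap k K c) := by
    rw [map_sub, D.map_algebraMap, sub_zero]
  rw [h1]
  rcases hc with hc | hc
  · rw [hc, map_zero]
    exact Ge.zero
  · obtain ⟨h2, h3⟩ := ord_der P hD (f := f - algebraMap k K c) (by omega)
    refine Or.inr ?_
    rw [h3]
    omega

/-- the residue of the logarithmic derivative of a uniformizer -/
noncomputable def res0 (P : Place k K) (D : Derivation k K K) (lam : K) : P.RF :=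
  P.red (lam * (D (unif P) / unif P))

omit [CharZero k] [IsFF k K] [IsAlgClosed k] in
theorem unif_ne (P : Place k K) : unif P ≠ 0 := by
  intro h
  have h1 := ord_unif P
  rw [h, P.ord_zero] at h1
  exact absurd h1 (by norm_num)

theorem ge_res0 (P : Place k K) {D : Derivation k K K} (hD : D ≠ 0) {lam : K} (hl0 : lam ≠ 0)
    (hl : P.ord lam = 1 - vo P D) :
    Ge P 0 (lam * (D (unif P) / unif P)) ∧ res0 P D lam ≠ 0 := by
  have h1 : D (unif P) ≠ 0 := der_pi_ne_zero hD P (ord_unif P)
  have h2 : lam * (D (unif P) / unif P) ≠ 0 := mul_ne_zero hl0 (div_ne_zero h1 (unif_ne P))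
  have h3 : P.ord (lam * (D (unif P) / unif P)) = 0 := by
    rw [P.ord_mul hl0 (div_ne_zero h1 (unif_ne P)), P.ord_div h1 (unif_ne P), ord_unif, hl]
    have : P.ord (D (unif P)) = vo P D := rfl
    omega
  exact ⟨Or.inr h3.ge, P.red_ne_zero h2 h3⟩

/-- the residue of a logarithmic derivative -/
theorem red_ld (P : Place k K) {D : Derivation k K K} (hD : D ≠ 0) {lam : K} (hl0 : lam ≠ 0)
    (hl : P.ord lam = 1 - vo P D) {f : K} (hf : f ≠ 0) :
    Ge P 0 (lam * (D f / f)) ∧ P.red (lam * (D f / f)) = (P.ord f : P.RF) * res0 P D lam := by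
  have hu := unif_ne P
  have hz : unif P ^ (P.ord f) ≠ 0 := zpow_ne_zero _ hu
  obtain ⟨w, hw⟩ : ∃ w, w = f / unif P ^ (P.ord f) := ⟨_, rfl⟩
  have hw0 : w ≠ 0 := by
    rw [hw]
    exact div_ne_zero hf hz
  have hwo : P.ord w = 0 := by
    rw [hw, P.ord_div hf hz, P.ord_zpow, ord_unif, mul_one, sub_self]
  have hfw : f = unif P ^ (P.ord f) * w := by
    rw [hw, mul_div_cancel₀ _ hz]
  have h1 : lam * (D f / f) = (P.ord f : K) * (lam * (D (unif P) / unif P)) +
      lam * D w * w⁻¹ := by
    have h2 : D f / f = (P.ord f : K) * (D (unif P) / unif P) + D w / w := by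
      conv_lhs => rw [hfw]
      rw [ld_mul D hz hw0, ld_zpow D hu]
    rw [h2]
    ring
  have hwi : Ge P 0 w⁻¹ := Or.inr (by rw [P.ord_inv, hwo, neg_zero])
  have h2 : Ge P 1 (lam * D w * w⁻¹) := by
    have := (ge_scaled P hD hl0 hl (Or.inr hwo.ge : Ge P 0 w)).mul hwi
    simpa using this
  have h3 : Ge P 0 ((P.ord f : K)) := Ge.intCast _
  have h4 : Ge P 0 ((P.ord f : K) * (lam * (D (unif P) / unif P))) := by
    have := h3.mul (ge_res0 P hD hl0 hl).1
    simpa using this
  have h5 : P.red ((P.ord f : K)) = (P.ord f : P.RF) := by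
    rw [P.red_of_reg h3]
    have h6 : (⟨(P.ord f : K), h3⟩ : P.O) = ((P.ord f : ℤ) : P.O) := Subtype.ext (by
      push_cast
      rfl)
    rw [h6, map_intCast]
  rw [h1]
  refine ⟨h4.add (h2.mono (by norm_num)), ?_⟩
  have h7 : P.red (lam * D w * w⁻¹) = 0 := by
    rw [P.red_eq_zero_iff (h2.mono (by norm_num))]
    rcases h2 with h2 | h2
    · exact Or.inl h2
    · exact Or.inr (by omega)
  rw [P.red_add h4 (h2.mono (by norm_num)), h7, add_zero,
    P.red_mul h3 (ge_res0 P hD hl0 hl).1, h5]
  rfl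

end Pool.Agent.E8helper35.IN
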