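import Pool.Agent.E8helper35.IN.Sml

/-!
Transfer of forms and of rational curves to the ultrapower of the complex numbers.
-/

set_option autoImplicit false
set_option linter.unusedSectionVars false

open Filter MvPolynomial

namespace Pool.Agent.E8helper35.IN

theorem pigeon {M : ℕ} (f : ℕ → ℕ) (hf : ∀ i, f i ≤ M) :
    ∃ n ≤ M, ∀ᶠ i in (uf : Filter ℕ), f i = n := by
  by_contra hcon
  have h1 : ∀ n ∈ Finset.range (M + 1), ∀ᶠ i in (uf : Filter ℕ), ¬ f i = n := by
    intro n hn
    rw [Ultrafilter.eventually_not]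
    exact fun h => hcon ⟨n, Nat.lt_succ_iff.1 (Finset.mem_range.1 hn), h⟩
  rw [← Finset.eventually_all] at h1
  obtain ⟨i, hi⟩ := h1.exists
  exact hi (f i) (Finset.mem_range.2 (Nat.lt_succ_of_le (hf i))) rfl

theorem uf_atTop (B : ℕ) : ∀ᶠ i in (uf : Filter ℕ), B < i :=
  (Nat.hyperfilter_le_atTop) (eventually_gt_atTop B)

variable {N : ℕ}

/-- the exponents with entries at most `D` -/
noncomputable def box (N D : ℕ) : Finset (Fin (N + 1) →₀ ℕ) :=
  (Finset.univ : Finset (Fin (N + 1) → Fin (D + 1))).image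
    fun f => Finsupp.equivFunOnFinite.symm fun j => (f j : ℕ)

theorem mem_box {D : ℕ} {α : Fin (N + 1) →₀ ℕ} (h : ∀ j, α j ≤ D) : α ∈ box N D := by
  unfold box
  rw [Finset.mem_image]
  refine ⟨fun j => ⟨α j, Nat.lt_succ_of_le (h j)⟩, Finset.mem_univ _, ?_⟩
  ext j
  rfl

theorem support_box {D d : ℕ} (hd : d ≤ D) {G : MvPolynomial (Fin (N + 1)) ℂ}
    (hG : G.IsHomogeneous d) : G.support ⊆ box N D := by
  intro α hα
  refine mem_box fun j => ?_
  have h1 := hG (mem_support_iff.1 hα)
  have h2 : ∑ a, α a = d := by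
    rw [← h1, Finsupp.weight_apply, Finsupp.sum_fintype _ _ (by simp)]
    simp
  have h3 : α j ≤ ∑ a, α a := Finset.single_le_sum (fun _ _ => Nat.zero_le _) (Finset.mem_univ j)
  omega

/-- the polynomial over the ultrapower -/
noncomputable def star (D : ℕ) (G : ℕ → MvPolynomial (Fin (N + 1)) ℂ) :
    MvPolynomial (Fin (N + 1)) ℂ :=
  ∑ α ∈ box N D, monomial α (iso.symm (um fun i => coeff α (G i)))

theorem coeff_star {D : ℕ} (G : ℕ → MvPolynomial (Fin (N + 1)) ℂ) {α : Fin (N + 1) →₀ ℕ}
    (h : coeff α (star D G) ≠ 0) : ∃ i, coeff α (G i) ≠ 0 := by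
  unfold star at h
  rw [coeff_sum] at h
  obtain ⟨β, -, hβ⟩ := Finset.exists_ne_zero_of_sum_ne_zero h
  rw [coeff_monomial] at hβ
  split_ifs at hβ with h1
  · rw [h1] at hβ
    have h2 : (um fun i => coeff α (G i) : CS) ≠ 0 := by
      intro h3
      apply hβ
      rw [h3, map_zero]
    exact (um_ne_iff.1 h2).exists
  · exact absurd rfl hβ

theorem star_congr {D : ℕ} {G G' : ℕ → MvPolynomial (Fin (N + 1)) ℂ}
    (h : ∀ᶠ i in (uf : Filter ℕ), G i = G' i) : star D G = star D G' := by
  unfold star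
  refine Finset.sum_congr rfl fun α _ => ?_
  congr 2
  rw [um_eq]
  filter_upwards [h] with i hi
  rw [hi]

theorem star_hom {D d : ℕ} {G : ℕ → MvPolynomial (Fin (N + 1)) ℂ}
    (hG : ∀ᶠ i in (uf : Filter ℕ), (G i).IsHomogeneous d) : (star D G).IsHomogeneous d := by
  classical
  have h1 : star D G = star D fun i => if (G i).IsHomogeneous d then G i else 0 := by
    apply star_congr
    filter_upwards [hG] with i hi
    rw [if_pos hi]
  rw [h1]
  intro α hα
  obtain ⟨i, hi⟩ := coeff_star _ hα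
  by_cases h : (G i).IsHomogeneous d
  · rw [if_pos h] at hi
    exact h hi
  · rw [if_neg h, coeff_zero] at hi
    exact absurd rfl hi

section eval

variable {L : ℕ → Type} [∀ i, Field (L i)] [∀ i, Algebra ℂ (L i)]

/-- values of polynomials are computed componentwise -/
theorem aeval_star {D : ℕ} {G : ℕ → MvPolynomial (Fin (N + 1)) ℂ}
    (hG : ∀ᶠ i in (uf : Filter ℕ), (G i).support ⊆ box N D) (x : ∀ i, Fin (N + 1) → L i) :
    aeval (fun j => (um fun i => x i j : UP L)) (star D G) = um fun i => aeval (x i) (G i) := by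
  unfold star
  rw [map_sum]
  have h1 : ∀ α ∈ box N D, aeval (fun j => (um fun i => x i j : UP L))
      (monomial α (iso.symm (um fun i => coeff α (G i)))) =
      um fun i => algebraMap ℂ (L i) (coeff α (G i)) * ∏ j, x i j ^ α j := by
    intro α _
    rw [aeval_monomial, alg_symm, Finsupp.prod_fintype _ _ fun _ => pow_zero _]
    have h2 : ∏ j, (um fun i => x i j : UP L) ^ α j = um fun i => ∏ j, x i j ^ α j := by
      rw [um_prod Finset.univ (fun j i => x i j ^ α j)]
      exact Finset.prod_congr rfl fun j _ => (map_pow um (fun i => x i j) (α j)).symm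
    rw [h2, ← map_mul]
    rfl
  rw [Finset.sum_congr rfl h1, ← um_sum (box N D)
    (fun α i => algebraMap ℂ (L i) (coeff α (G i)) * ∏ j, x i j ^ α j), um_eq]
  filter_upwards [hG] with i hi
  rw [aeval_def, eval₂_eq']
  refine (Finset.sum_subset hi fun α _ hα => ?_).symm
  rw [mem_support_iff, not_not] at hα
  rw [hα, map_zero, zero_mul]

end eval

/-- the classes of complex numbers -/
theorem iso_rep (c : ℂ) : ∃ γ : ℕ → ℂ, um γ = iso c := um_surj _

/-- values of polynomials at complex points -/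
theorem iso_eval {D : ℕ} {G : ℕ → MvPolynomial (Fin (N + 1)) ℂ}
    (hG : ∀ᶠ i in (uf : Filter ℕ), (G i).support ⊆ box N D) {v : Fin (N + 1) → ℂ}
    {w : ℕ → Fin (N + 1) → ℂ} (hw : ∀ j, iso (v j) = um fun i => w i j) :
    iso (eval v (star D G)) = um fun i => eval (w i) (G i) := by
  unfold star
  rw [map_sum, map_sum]
  have h1 : ∀ α ∈ box N D, iso (eval v (monomial α (iso.symm (um fun i => coeff α (G i))))) =
      um fun i => coeff α (G i) * ∏ j, w i j ^ α j := by
    intro α _
    rw [eval_monomial, Finsupp.prod_fintype _ _ fun _ => pow_zero _, map_mul,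
      RingEquiv.apply_symm_apply, map_prod]
    have h2 : ∏ j, iso (v j ^ α j) = um fun i => ∏ j, w i j ^ α j := by
      rw [um_prod Finset.univ (fun j i => w i j ^ α j)]
      refine Finset.prod_congr rfl fun j _ => ?_
      rw [map_pow, hw j]
      exact (map_pow um (fun i => w i j) (α j)).symm
    rw [h2, ← map_mul]
    rfl
  rw [Finset.sum_congr rfl h1, ← um_sum (box N D)
    (fun α i => coeff α (G i) * ∏ j, w i j ^ α j), um_eq]
  filter_upwards [hG] with i hi
  rw [eval_eq']
  refine (Finset.sum_subset hi fun α _ hα => ?_).symm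
  rw [mem_support_iff, not_not] at hα
  rw [hα, zero_mul]

/-- The rational curves of degree at most `e` in the set of zeros of `S` lie in the set of zeros
of `T`. -/
def RationalIn (e : ℕ) (S T : Set (MvPolynomial (Fin (N + 1)) ℂ)) : Prop :=
  ∀ p : Fin (N + 1) → Polynomial ℂ, (∀ j, (p j).natDegree ≤ e) →
    (∃ (s t : ℂ) (j l : Fin (N + 1)), (p j).eval s * (p l).eval t ≠ (p l).eval s * (p j).eval t) →
    (∀ F ∈ S, aeval p F = 0) → ∀ G ∈ T, aeval p G = 0

theorem eval_aeval (p : Fin (N + 1) → Polynomial ℂ) (F : MvPolynomial (Fin (N + 1)) ℂ) (t : ℂ) :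
    (aeval p F).eval t = eval (fun j => (p j).eval t) F := by
  have h1 := MvPolynomial.comp_aeval_apply (f := p) (Polynomial.aeval t : Polynomial ℂ →ₐ[ℂ] ℂ) F
  have h2 : (Polynomial.aeval t : Polynomial ℂ →ₐ[ℂ] ℂ) (aeval p F) = (aeval p F).eval t :=
    Polynomial.coe_aeval_eq_eval t ▸ rfl
  rw [← h2, h1]
  simp only [Polynomial.coe_aeval_eq_eval]
  rfl

/-- **Transfer of rational curves.** -/
theorem transfer {D : ℕ} {S T : ℕ → Set (MvPolynomial (Fin (N + 1)) ℂ)}
    (hS : ∀ i, ∀ F ∈ S i, ∃ d ≤ D, F.IsHomogeneous d) (hR : ∀ i, RationalIn i (S i) (T i))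
    {G : ℕ → MvPolynomial (Fin (N + 1)) ℂ} (hG : ∀ i, G i ∈ T i)
    (hGb : ∀ᶠ i in (uf : Filter ℕ), (G i).support ⊆ box N D)
    (p : Fin (N + 1) → Polynomial ℂ)
    (hp : ∀ F : ℕ → MvPolynomial (Fin (N + 1)) ℂ, (∀ᶠ i in (uf : Filter ℕ), F i ∈ S i) →
      aeval p (star D F) = 0)
    (hnc : ∃ j k, Polynomial.derivative (p j) * p k ≠ p j * Polynomial.derivative (p k)) :
    aeval p (star D G) = 0 := by
  classical
  -- the sequence of rational curves
  obtain ⟨E, hE⟩ : ∃ E : ℕ, ∀ j, (p j).natDegree ≤ E :=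
    ⟨Finset.univ.sup fun j => (p j).natDegree, fun j => Finset.le_sup (f := fun j =>
      (p j).natDegree) (Finset.mem_univ j)⟩
  choose γ hγ using fun (j : Fin (N + 1)) (m : ℕ) => iso_rep ((p j).coeff m)
  let q : ℕ → Fin (N + 1) → Polynomial ℂ := fun i j =>
    ∑ m ∈ Finset.range (E + 1), Polynomial.C (γ j m i) * Polynomial.X ^ m
  have hq : ∀ (t : ℂ) (τ : ℕ → ℂ), iso t = um τ → ∀ j,
      iso ((p j).eval t) = um fun i => (q i j).eval (τ i) := by
    intro t τ ht j
    rw [Polynomial.eval_eq_sum_range' (Nat.lt_succ_of_le (hE j)), map_sum]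
    have h1 : (fun i => (q i j).eval (τ i)) =
        fun i => ∑ m ∈ Finset.range (E + 1), γ j m i * τ i ^ m := by
      funext i
      change (∑ m ∈ Finset.range (E + 1), Polynomial.C (γ j m i) * Polynomial.X ^ m).eval (τ i) = _
      rw [Polynomial.eval_finsetSum]
      exact Finset.sum_congr rfl fun m _ => by simp
    rw [h1, um_sum (Finset.range (E + 1)) (fun m i => γ j m i * τ i ^ m)]
    refine Finset.sum_congr rfl fun m _ => ?_
    have h2 : (fun i => γ j m i * τ i ^ m) = γ j m * τ ^ m := rfl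
    rw [map_mul, map_pow, h2, map_mul, map_pow, hγ, ht]
  have hqdeg : ∀ i j, (q i j).natDegree ≤ E := by
    intro i j
    refine Polynomial.natDegree_sum_le_of_forall_le _ _ fun m hm => ?_
    refine (Polynomial.natDegree_C_mul_X_pow_le _ _).trans ?_
    have := Finset.mem_range.1 hm
    omega
  -- they lie on `X`
  have hX : ∀ᶠ i in (uf : Filter ℕ), ∀ F ∈ S i, aeval (q i) F = 0 := by
    by_contra hcon
    have h1 : ∀ᶠ i in (uf : Filter ℕ), ¬ ∀ F ∈ S i, aeval (q i) F = 0 :=
      Ultrafilter.eventually_not.2 hcon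
    have h2 : ∀ i, ∃ (F : MvPolynomial (Fin (N + 1)) ℂ) (τ : ℂ),
        (¬ ∀ F ∈ S i, aeval (q i) F = 0) → F ∈ S i ∧ eval (fun j => (q i j).eval τ) F ≠ 0 := by
      intro i
      by_cases h : ∀ F ∈ S i, aeval (q i) F = 0
      · exact ⟨0, 0, fun h' => absurd h h'⟩
      · have h' := h
        push Not at h'
        obtain ⟨F, hF, hne⟩ := h'
        obtain ⟨τ, hτ⟩ : ∃ τ, (aeval (q i) F).eval τ ≠ 0 := by
          by_contra h3
          push Not at h3
          exact hne (Polynomial.funext fun r => by rw [h3 r, Polynomial.eval_zero])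
        refine ⟨F, τ, fun _ => ⟨hF, ?_⟩⟩
        rwa [← eval_aeval]
    choose F τ hFτ using h2
    have h3 : ∀ᶠ i in (uf : Filter ℕ), F i ∈ S i := by
      filter_upwards [h1] with i hi
      exact (hFτ i hi).1
    have h4 : ∀ᶠ i in (uf : Filter ℕ), (F i).support ⊆ box N D := by
      filter_upwards [h3] with i hi
      obtain ⟨d, hd, hh⟩ := hS i _ hi
      exact support_box hd hh
    have h5 := congrArg (Polynomial.eval (iso.symm (um τ))) (hp F h3)
    rw [eval_aeval, Polynomial.eval_zero] at h5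
    have h6 := iso_eval h4 (v := fun j => (p j).eval (iso.symm (um τ)))
      (w := fun i j => (q i j).eval (τ i)) (fun j => hq _ τ (iso.apply_symm_apply _) j)
    rw [h5, map_zero] at h6
    obtain ⟨i, hi1, hi2⟩ := ((um_zero_iff.1 h6.symm).and h1).exists
    exact (hFτ i hi2).2 hi1
  -- they are not constant
  obtain ⟨s, t, j, l, hst⟩ : ∃ (s t : ℂ) (j l : Fin (N + 1)),
      (p j).eval s * (p l).eval t ≠ (p l).eval s * (p j).eval t := by
    by_contra hcon
    push Not at hcon
    obtain ⟨j, l, hjl⟩ := hnc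
    apply hjl
    by_cases hl : p l = 0
    · rw [hl]
      simp
    · obtain ⟨t, ht⟩ : ∃ t, (p l).eval t ≠ 0 := by
        by_contra h3
        push Not at h3
        exact hl (Polynomial.funext fun r => by rw [h3 r, Polynomial.eval_zero])
      have h1 : p j = Polynomial.C ((p j).eval t / (p l).eval t) * p l := by
        refine Polynomial.funext fun r => ?_
        rw [Polynomial.eval_mul, Polynomial.eval_C]
        field_simp
        have := hcon r t j l
        linear_combination this
      rw [h1, Polynomial.derivative_C_mul]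
      ring
  have hnc' : ∀ᶠ i in (uf : Filter ℕ), ∃ (s t : ℂ) (j l : Fin (N + 1)),
      (q i j).eval s * (q i l).eval t ≠ (q i l).eval s * (q i j).eval t := by
    obtain ⟨σ, hσ⟩ := iso_rep s
    obtain ⟨τ, hτ⟩ := iso_rep t
    have h1 : um (fun i => (q i j).eval (σ i) * (q i l).eval (τ i)) ≠
        (um fun i => (q i l).eval (σ i) * (q i j).eval (τ i) : CS) := by
      have e1 : um (fun i => (q i j).eval (σ i) * (q i l).eval (τ i)) =
          (iso ((p j).eval s * (p l).eval t) : CS) := by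
        rw [map_mul, hq s σ hσ.symm, hq t τ hτ.symm, ← map_mul]
        rfl
      have e2 : um (fun i => (q i l).eval (σ i) * (q i j).eval (τ i)) =
          (iso ((p l).eval s * (p j).eval t) : CS) := by
        rw [map_mul, hq s σ hσ.symm, hq t τ hτ.symm, ← map_mul]
        rfl
      rw [e1, e2]
      exact fun h => hst (iso.injective h)
    have h2 : ∀ᶠ i in (uf : Filter ℕ), ¬ ((q i j).eval (σ i) * (q i l).eval (τ i) =
        (q i l).eval (σ i) * (q i j).eval (τ i)) := by
      rw [Ultrafilter.eventually_not]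
      exact fun h => h1 (um_eq.2 h)
    filter_upwards [h2] with i hi
    exact ⟨σ i, τ i, j, l, hi⟩
  have hZ : ∀ᶠ i in (uf : Filter ℕ), aeval (q i) (G i) = 0 := by
    filter_upwards [hX, hnc', uf_atTop E] with i h1 h2 h3
    exact hR i (q i) (fun j => (hqdeg i j).trans h3.le) h2 h1 _ (hG i)
  refine Polynomial.funext fun t => ?_
  rw [eval_aeval, Polynomial.eval_zero]
  obtain ⟨τ, hτ⟩ := iso_rep t
  have h6 := iso_eval hGb (v := fun j => (p j).eval t)
    (w := fun i j => (q i j).eval (τ i)) (fun j => hq _ τ hτ.symm j)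
  apply iso.injective
  rw [h6, map_zero, um_zero_iff]
  filter_upwards [hZ] with i hi
  rw [← eval_aeval, hi, Polynomial.eval_zero]

end Pool.Agent.E8helper35.IN
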