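import Pool.Agent.E8helper35.IN.Core
import Pool.Agent.E8helper35.IN.Star
import Pool.Agent.W603.PV.Hgt

/-!
Uniform algebraic hyperbolicity up to inflection points.
-/

set_option autoImplicit false

open FF Filter MvPolynomial

namespace Pool.Agent.E8helper35.IN

open Pool.Agent.W603.LV Pool.Agent.W603.PV Pool.Agent.E8helper90.RM
open Pool.Agent.Y377.IL (Cst)

/-- counterexamples to the bound with constant `i` -/
structure Bad (N D n d : ℕ) (l : Fin (N + 1)) (i : ℕ) where
  S : Set (MvPolynomial (Fin (N + 1)) ℂ)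
  T : Set (MvPolynomial (Fin (N + 1)) ℂ)
  hS : ∀ F ∈ S, ∃ d ≤ D, F.IsHomogeneous d
  hR : RationalIn i S T
  K : Type
  [fK : Field K]
  [aK : Algebra ℂ K]
  [iK : IsFF ℂ K]
  x : Fin (N + 1) → K
  hl : x l ≠ 0
  hn : Module.finrank ℂ (Submodule.span ℂ (Set.range x)) = n
  hx : ∀ F ∈ S, aeval x F = 0
  G : MvPolynomial (Fin (N + 1)) ℂ
  hG : G ∈ T
  hGd : G.IsHomogeneous d
  hG0 : aeval x G ≠ 0
  hb : (i : ℤ) * (canDeg ℂ K + 3 + {P : Place ℂ K |
    ¬ NonInfl P (Submodule.span ℂ (Set.range x)) n}.ncard) < pht ℂ x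

attribute [instance] Bad.fK Bad.aK Bad.iK

variable {N D n d : ℕ} {l : Fin (N + 1)}

/-- the measure of complexity -/
noncomputable def Bad.chi {i : ℕ} (b : Bad N D n d l i) : ℤ :=
  canDeg ℂ b.K + 3 + {P : Place ℂ b.K | ¬ NonInfl P (Submodule.span ℂ (Set.range b.x)) n}.ncard

theorem Bad.chi_pos {i : ℕ} (b : Bad N D n d l i) : 1 ≤ b.chi := by
  obtain ⟨-, -, -, h⟩ := exists_small_der (k := ℂ) (K := b.K)
  unfold chi
  omega

theorem Bad.data {i : ℕ} (b : Bad N D n d l i) :
    ∃ (y : Fin n → b.K) (c : Fin (N + 1) → Fin n → ℂ) (Dv : Derivation ℂ b.K b.K)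
      (a : Fin n → b.K), Dv ≠ 0 ∧ wr Dv y ≠ 0 ∧
      (∀ j, b.x j = ∑ i, algebraMap ℂ b.K (c j i) * y i) ∧
      (∀ j, (tw Dv (nt Dv y))^[n] (y j) = ∑ i : Fin n, a i * (tw Dv (nt Dv y))^[(i : ℕ)] (y j)) ∧
      (∀ j, hgt ℂ (a j) ≤ (4 * n : ℕ) * b.chi) ∧ vsum ℂ Dv ≤ (2 : ℕ) * b.chi ∧ n ≠ 0 := by
  obtain ⟨V, hV⟩ : ∃ V, V = Submodule.span ℂ (Set.range b.x) := ⟨_, rfl⟩
  have hfinV : FiniteDimensional ℂ V := by
    rw [hV]
    exact FiniteDimensional.span_of_finite ℂ (Set.finite_range b.x)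
  have hrank : Module.finrank ℂ V = n := by
    rw [hV]
    exact b.hn
  let B := Module.finBasisOfFinrankEq ℂ V hrank
  obtain ⟨y, hy⟩ : ∃ y : Fin n → b.K, y = fun j => (B j : b.K) := ⟨_, rfl⟩
  have hyl : LinearIndependent ℂ y := by
    rw [hy]
    exact B.linearIndependent.map' V.subtype (Submodule.ker_subtype V)
  have hspan : Submodule.span ℂ (Set.range y) = V := by
    have h1 : Set.range y = V.subtype '' Set.range B := by
      rw [hy, ← Set.range_comp]
      rfl
    rw [h1, Submodule.span_image, B.span_eq, Submodule.map_top, Submodule.range_subtype]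
  have hxV : ∀ j, b.x j ∈ V := by
    intro j
    rw [hV]
    exact Submodule.subset_span ⟨j, rfl⟩
  have hc : ∀ j, ∃ c : Fin n → ℂ, ∑ i, c i • y i = b.x j := by
    intro j
    have := hxV j
    rw [← hspan] at this
    exact (Submodule.mem_span_range_iff_exists_fun ℂ).1 this
  choose c hc using hc
  have hn0 : n ≠ 0 := by
    intro h
    apply b.hl
    rw [← hc l]
    refine Finset.sum_eq_zero fun r _ => ?_
    have := r.2
    omega
  obtain ⟨Dv, hD, hv, h2⟩ := exists_small_der (k := ℂ) (K := b.K)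
  obtain ⟨a, ha, hh⟩ := exists_coef hD hn0 hyl
  have hI : 0 ≤ ({P : Place ℂ b.K | ¬ NonInfl P (Submodule.span ℂ (Set.range b.x)) n}.ncard : ℤ) :=
    Int.natCast_nonneg _
  refine ⟨y, c, Dv, a, hD, wr_ne_zero hD y hyl, fun j => ?_, ha, fun j => ?_, ?_, hn0⟩
  · rw [← hc j]
    exact Finset.sum_congr rfl fun i _ => Algebra.smul_def _ _
  · refine (hh j).trans ?_
    rw [hspan, hV]
    unfold Bad.chi
    push_cast
    have hn1 : (0 : ℤ) ≤ n := Int.natCast_nonneg _
    nlinarith
  · unfold Bad.chi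
    push_cast
    omega

theorem no_bad (b : ∀ i, Bad N D n d l i) (hd : d ≤ D) : False := by
  classical
  have hdata := fun i => (b i).data
  choose y c Dv a hD hw hx ha hh hv hn0 using hdata
  let L : ℕ → Type := fun i => (b i).K
  let χ : ℕ → ℤ := fun i => (b i).chi
  have hχ : ∀ i, 0 ≤ χ i := fun i => by
    have := (b i).chi_pos
    change 0 ≤ (b i).chi
    omega
  obtain ⟨xs, hxs⟩ : ∃ xs : Fin (N + 1) → UP L, xs = fun j => um fun i => (b i).x j := ⟨_, rfl⟩
  have hGb : ∀ᶠ i in (uf : Filter ℕ), ((b i).G).support ⊆ box N D :=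
    Eventually.of_forall fun i => support_box hd (b i).hGd
  have haG := aeval_star (L := L) (G := fun i => (b i).G) hGb (fun i => (b i).x)
  have hFb : ∀ F : ℕ → MvPolynomial (Fin (N + 1)) ℂ, (∀ᶠ i in (uf : Filter ℕ), F i ∈ (b i).S) →
      (∀ᶠ i in (uf : Filter ℕ), (F i).support ⊆ box N D) ∧ ∃ d, (star D F).IsHomogeneous d := by
    intro F hF
    constructor
    · filter_upwards [hF] with i hi
      obtain ⟨d, hd, hh⟩ := (b i).hS _ hi
      exact support_box hd hh
    · have h1 : ∀ i, ∃ d' ≤ D, F i ∈ (b i).S → (F i).IsHomogeneous d' := by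
        intro i
        by_cases h : F i ∈ (b i).S
        · obtain ⟨d', hd', hh⟩ := (b i).hS _ h
          exact ⟨d', hd', fun _ => hh⟩
        · exact ⟨0, Nat.zero_le _, fun h' => absurd h' h⟩
      choose e he1 he2 using h1
      obtain ⟨d', -, hd'⟩ := pigeon e he1
      refine ⟨d', star_hom ?_⟩
      filter_upwards [hF, hd'] with i h1 h2
      rw [← h2]
      exact he2 i h1
  let I : Ideal (MvPolynomial (Fin (N + 1)) ℂ) := Ideal.span
    {H | ∃ F : ℕ → MvPolynomial (Fin (N + 1)) ℂ,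
      (∀ᶠ i in (uf : Filter ℕ), F i ∈ (b i).S) ∧ star D F = H}
  have hwu : wr (Du Dv) (fun j => (um fun i => y i j : UP L)) ≠ 0 := by
    rw [wr_um, um_ne_iff]
    exact Eventually.of_forall hw
  have key := core (cst_Du hD) (small χ hχ) (small_der hD (C := 2) hv) (Nat.pos_of_ne_zero (hn0 0))
    hwu (σ := um fun i => nt (Dv i) (y i)) (a := fun r => um fun i => a i r)
    (fun r => mem_small.2 ⟨4 * n, Eventually.of_forall fun i => hh i r⟩)
    (fun j => by
      rw [tw_um]
      have h1 : ∀ r : Fin n, (um fun i => a i r : UP L) *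
          (tw (Du Dv) (um fun i => nt (Dv i) (y i)))^[(r : ℕ)] (um fun i => y i j) =
          um fun i => a i r * (tw (Dv i) (nt (Dv i) (y i)))^[(r : ℕ)] (y i j) := by
        intro r
        rw [tw_um, ← map_mul]
        rfl
      rw [Finset.sum_congr rfl fun r _ => h1 r, ← um_sum Finset.univ
        (fun (r : Fin n) i => a i r * (tw (Dv i) (nt (Dv i) (y i)))^[(r : ℕ)] (y i j)), um_eq]
      exact Eventually.of_forall fun i => ha i j)
    (x := xs) (fun j r => iso.symm (um fun i => c i j r))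
    (fun j => by
      have h1 : ∀ r : Fin n, algebraMap ℂ (UP L) (iso.symm (um fun i => c i j r)) *
          (um fun i => y i r) = um fun i => algebraMap ℂ (L i) (c i j r) * y i r := by
        intro r
        rw [alg_symm, ← map_mul]
        rfl
      rw [Finset.sum_congr rfl fun r _ => h1 r, ← um_sum Finset.univ
        (fun (r : Fin n) i => algebraMap ℂ (L i) (c i j r) * y i r), hxs]
      change (um fun i => (b i).x j) = _
      rw [um_eq]
      exact Eventually.of_forall fun i => hx i j)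
    (l := l) (by
      rw [hxs]
      change (um fun i => (b i).x l : UP L) ≠ 0
      rw [um_ne_iff]
      exact Eventually.of_forall fun i => (b i).hl)
    (by
      by_contra hcon
      push Not at hcon
      have h1 : ∀ j, ∃ B : ℕ, ∀ᶠ i in (uf : Filter ℕ),
          hgt ℂ ((b i).x j / (b i).x l) ≤ B * χ i := by
        intro j
        have h2 := small_alg (hcon j)
        have h3 : xs j / xs l = um fun i => (b i).x j / (b i).x l := by
          rw [hxs]
          exact (um_div _ _).symm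
        rw [h3] at h2
        exact mem_small.1 h2
      choose B hB using h1
      have h2 : ∀ᶠ i in (uf : Filter ℕ), ∀ j ∈ (Finset.univ : Finset (Fin (N + 1))),
          hgt ℂ ((b i).x j / (b i).x l) ≤ B j * χ i := by
        rw [Finset.eventually_all]
        exact fun j _ => hB j
      obtain ⟨i, hi1, hi2⟩ := (h2.and (uf_atTop (∑ j, B j))).exists
      have h3 := pht_le (k := ℂ) (b i).x (b i).hl
      have h4 := (b i).hb
      have h5 : ∑ j, hgt ℂ ((b i).x j / (b i).x l) ≤ ∑ j, (B j : ℤ) * χ i :=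
        Finset.sum_le_sum hi1
      rw [← Finset.sum_mul] at h5
      have h6 : (i : ℤ) * χ i < pht ℂ (b i).x := h4
      have h7 : ((∑ j, B j : ℕ) : ℤ) ≤ i := by exact_mod_cast hi2.le
      have h8 := hχ i
      push_cast at h7
      have h9 := mul_le_mul_of_nonneg_right h7 h8
      linarith)
    (I := I) (G' := star D fun i => (b i).G) ⟨d, star_hom (Eventually.of_forall fun i => (b i).hGd)⟩
    (fun p hp hnc => transfer (fun i => (b i).hS) (fun i => (b i).hR) (fun i => (b i).hG) hGb p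
      (fun F hF => hp _ (Ideal.subset_span ⟨F, hF, rfl⟩) (hFb F hF).2) hnc)
    (fun H hH _ => by
      have h1 : I ≤ RingHom.ker (aeval xs : MvPolynomial (Fin (N + 1)) ℂ →ₐ[ℂ] UP L) := by
        rw [Ideal.span_le]
        rintro _ ⟨F, hF, rfl⟩
        rw [SetLike.mem_coe, RingHom.mem_ker, hxs, aeval_star (hFb F hF).1, um_zero_iff]
        filter_upwards [hF] with i hi
        exact (b i).hx _ hi
      exact h1 hH)
  rw [hxs, haG, um_zero_iff] at key
  obtain ⟨i, hi⟩ := key.exists
  exact (b i).hG0 hi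

/-- The place `P` is an inflection point of the point `x` of projective space over the function
field `K`: some hyperplane of the linear span of the curve, given by the form `c`, meets the curve
at `P` with multiplicity greater than the dimension of the span. -/
def Inflection {K : Type} [Field K] [Algebra ℂ K] (P : Place ℂ K) (x : Fin (N + 1) → K) : Prop :=
  ∃ c : Fin (N + 1) → ℂ, ∑ j, c j • x j ≠ 0 ∧
    pord P x + Module.finrank ℂ (Submodule.span ℂ (Set.range x)) ≤ P.ord (∑ j, c j • x j)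

theorem infl_iff {K : Type} [Field K] [Algebra ℂ K] (P : Place ℂ K) {x : Fin (N + 1) → K}
    (hx : ∃ j, x j ≠ 0) : Inflection P x ↔ ¬ NonInfl P (Submodule.span ℂ (Set.range x))
      (Module.finrank ℂ (Submodule.span ℂ (Set.range x))) := by
  constructor
  · rintro ⟨c, hc0, hc⟩ ⟨e, he1, he2⟩
    have h1 : ∑ j, c j • x j ∈ Submodule.span ℂ (Set.range x) :=
      (Submodule.mem_span_range_iff_exists_fun ℂ).2 ⟨c, rfl⟩
    have h2 := he2 _ h1 hc0
    obtain ⟨j, hj, h⟩ := exists_pord P hx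
    rcases he1 _ (Submodule.subset_span ⟨j, rfl⟩) with h3 | h3
    · exact hj h3
    · omega
  · intro h
    by_contra hcon
    apply h
    refine ⟨pord P x, fun f hf => ?_, fun f hf hf0 => ?_⟩
    · obtain ⟨c, rfl⟩ := (Submodule.mem_span_range_iff_exists_fun ℂ).1 hf
      refine Ge.sum _ _ fun j _ => ?_
      rw [Algebra.smul_def]
      have := (Ge.const (P := P) (c j)).mul (ge_pord P x j)
      simpa using this
    · obtain ⟨c, rfl⟩ := (Submodule.mem_span_range_iff_exists_fun ℂ).1 hf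
      by_contra h2
      exact hcon ⟨c, hf0, by omega⟩

theorem infl_finite {K : Type} [Field K] [Algebra ℂ K] [IsFF ℂ K] {x : Fin (N + 1) → K}
    (hx : ∃ j, x j ≠ 0) : {P : Place ℂ K | Inflection P x}.Finite := by
  obtain ⟨V, hV⟩ : ∃ V, V = Submodule.span ℂ (Set.range x) := ⟨_, rfl⟩
  have hfinV : FiniteDimensional ℂ V := by
    rw [hV]
    exact FiniteDimensional.span_of_finite ℂ (Set.finite_range x)
  let B := Module.finBasis ℂ V
  have hyl : LinearIndependent ℂ fun j => (B j : K) :=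
    B.linearIndependent.map' V.subtype (Submodule.ker_subtype V)
  have hspan : Submodule.span ℂ (Set.range fun j => (B j : K)) = V := by
    have h1 : (Set.range fun j => (B j : K)) = V.subtype '' Set.range B := by
      rw [← Set.range_comp]
      rfl
    rw [h1, Submodule.span_image, B.span_eq, Submodule.map_top, Submodule.range_subtype]
  refine (finite_infl hyl).subset fun P hP => ?_
  have h2 := (infl_iff P hx).1 hP
  rw [hspan, hV]
  exact h2

theorem fixed (N D n d : ℕ) (l : Fin (N + 1)) (hd : d ≤ D) :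
    ∃ A : ℕ, ∀ S T : Set (MvPolynomial (Fin (N + 1)) ℂ),
      (∀ F ∈ S, ∃ d ≤ D, F.IsHomogeneous d) → RationalIn A S T →
      ∀ (K : Type) [Field K] [Algebra ℂ K] [IsFF ℂ K] (x : Fin (N + 1) → K), x l ≠ 0 →
        Module.finrank ℂ (Submodule.span ℂ (Set.range x)) = n → (∀ F ∈ S, aeval x F = 0) →
        ∀ G ∈ T, G.IsHomogeneous d → aeval x G ≠ 0 →
        pht ℂ x ≤ A * (canDeg ℂ K + 3 + {P : Place ℂ K | Inflection P x}.ncard) := by
  by_contra hcon
  push Not at hcon
  have h1 : ∀ i : ℕ, Nonempty (Bad N D n d l i) := by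
    intro i
    obtain ⟨S, T, hS, hR, K, _, _, _, x, hl, hn, hx, G, hG, hGd, hG0, hb⟩ := hcon i
    refine ⟨⟨S, T, hS, hR, K, x, hl, hn, hx, G, hG, hGd, hG0, ?_⟩⟩
    have h2 : {P : Place ℂ K | ¬ NonInfl P (Submodule.span ℂ (Set.range x)) n} =
        {P : Place ℂ K | Inflection P x} := by
      ext P
      rw [Set.mem_ofPred_eq, Set.mem_ofPred_eq, infl_iff P ⟨l, hl⟩, hn]
    rw [h2]
    exact hb
  exact no_bad (fun i => (h1 i).some) hd

theorem RationalIn.mono {e e' : ℕ} (h : e ≤ e') {S T : Set (MvPolynomial (Fin (N + 1)) ℂ)}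
    (hR : RationalIn e' S T) : RationalIn e S T :=
  fun p hp hnc hS => hR p (fun j => (hp j).trans h) hnc hS

/-- **Uniform algebraic hyperbolicity up to inflection points.** -/
theorem main (N D : ℕ) :
    ∃ A : ℕ, ∀ S T : Set (MvPolynomial (Fin (N + 1)) ℂ),
      (∀ F ∈ S, ∃ d ≤ D, F.IsHomogeneous d) → (∀ F ∈ T, ∃ d ≤ D, F.IsHomogeneous d) →
      RationalIn A S T →
      ∀ (K : Type) [Field K] [Algebra ℂ K] [IsFF ℂ K] (x : Fin (N + 1) → K), (∃ j, x j ≠ 0) →
        (∀ F ∈ S, aeval x F = 0) → (∃ G ∈ T, aeval x G ≠ 0) →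
        {P : Place ℂ K | Inflection P x}.Finite ∧
        pht ℂ x ≤ A * (canDeg ℂ K + 3 + {P : Place ℂ K | Inflection P x}.ncard) := by
  classical
  choose A hA using fun (q : Fin (N + 2) × Fin (D + 1) × Fin (N + 1)) =>
    fixed N D q.1 q.2.1 q.2.2 (Nat.lt_succ_iff.1 q.2.1.2)
  refine ⟨Finset.univ.sup A, fun S T hS hT hR K _ _ _ x hx0 hx hG => ⟨infl_finite hx0, ?_⟩⟩
  obtain ⟨l, hl⟩ := hx0
  obtain ⟨G, hG, hG0⟩ := hG
  obtain ⟨d, hd, hGd⟩ := hT G hG
  have hn : Module.finrank ℂ (Submodule.span ℂ (Set.range x)) < N + 2 := by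
    have := finrank_range_le_card (R := ℂ) x
    rw [Fintype.card_fin] at this
    unfold Set.finrank at this
    omega
  let q : Fin (N + 2) × Fin (D + 1) × Fin (N + 1) := (⟨_, hn⟩, ⟨d, Nat.lt_succ_of_le hd⟩, l)
  have hq : A q ≤ Finset.univ.sup A := Finset.le_sup (Finset.mem_univ q)
  refine (hA q S T hS (hR.mono hq) K x hl rfl hx G hG hGd hG0).trans ?_
  obtain ⟨-, -, -, h2⟩ := exists_small_der (k := ℂ) (K := K)
  have h3 : (A q : ℤ) ≤ ((Finset.univ.sup A : ℕ) : ℤ) := by exact_mod_cast hq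
  have h4 : (0 : ℤ) ≤ {P : Place ℂ K | Inflection P x}.ncard := Int.natCast_nonneg _
  exact mul_le_mul_of_nonneg_right h3 (by omega)

end Pool.Agent.E8helper35.IN
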