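import Pool.Agent.E8helper35.IN.Sml

/-!
Ultraproducts of algebraically closed fields.
-/

set_option autoImplicit false
set_option linter.unusedSectionVars false

open Filter Polynomial

namespace Pool.Agent.E8helper35.IN

section closed

variable {L : ℕ → Type} [∀ i, Field (L i)] [∀ i, IsAlgClosed (L i)]

instance up_closed : IsAlgClosed (UP L) := by
  refine IsAlgClosed.of_exists_root _ fun p hp hirr => ?_
  have hd : 0 < p.natDegree := Irreducible.natDegree_pos hirr
  choose γ hγ using fun j : ℕ => um_surj (p.coeff j)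
  obtain ⟨d, hdd⟩ : ∃ d, d = p.natDegree := ⟨_, rfl⟩
  rw [← hdd] at hd
  have hroot : ∀ i : ℕ, ∃ r : L i, r ^ d + ∑ j ∈ Finset.range d, γ j i * r ^ j = 0 := by
    intro i
    obtain ⟨q, hq⟩ : ∃ q : (L i)[X], q = X ^ d + ∑ j ∈ Finset.range d, C (γ j i) * X ^ j :=
      ⟨_, rfl⟩
    have h1 : (∑ j ∈ Finset.range d, C (γ j i) * X ^ j : (L i)[X]).degree < d := by
      rw [degree_lt_iff_coeff_zero]
      intro m hm
      rw [finsetSum_coeff]
      refine Finset.sum_eq_zero fun j hj => ?_
      rw [coeff_C_mul_X_pow, if_neg]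
      have := Finset.mem_range.1 hj
      omega
    have h2 : q.degree = d := by
      rw [hq, degree_add_eq_left_of_degree_lt (by rwa [degree_X_pow]), degree_X_pow]
    obtain ⟨r, hr⟩ := IsAlgClosed.exists_root q (by
      rw [h2]
      exact_mod_cast hd.ne')
    refine ⟨r, ?_⟩
    have h3 : q.eval r = 0 := hr
    rw [hq, eval_add, eval_pow, eval_X, eval_finsetSum] at h3
    simpa using h3
  choose r hr using hroot
  refine ⟨um r, ?_⟩
  have h1 : p.eval (um r) = um fun i => r i ^ d + ∑ j ∈ Finset.range d, γ j i * r i ^ j := by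
    rw [eval_eq_sum_range, Finset.sum_range_succ, hp.coeff_natDegree, one_mul, ← hdd]
    have h2 : (fun i => r i ^ d + ∑ j ∈ Finset.range d, γ j i * r i ^ j) =
        r ^ d + ∑ j ∈ Finset.range d, γ j * r ^ j := by
      funext i
      rw [Pi.add_apply, Finset.sum_apply]
      rfl
    rw [h2, map_add, map_pow, map_sum, add_comm]
    congr 1
    exact Finset.sum_congr rfl fun j _ => by rw [map_mul, map_pow, hγ]
  rw [h1, um_zero_iff]
  exact Eventually.of_forall hr

end closed

section emb

variable (L : ℕ → Type) [∀ i, Field (L i)] [∀ i, Algebra ℂ (L i)]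

/-- the algebraic closures -/
abbrev Cl (i : ℕ) : Type := AlgebraicClosure (L i)

/-- the embedding of an ultraproduct in the ultraproduct of the algebraic closures, as a map of
rings -/
noncomputable def embR : UP L →+* UP (Cl L) :=
  Ideal.Quotient.lift (ui L) ((um : (∀ i, Cl L i) →+* UP (Cl L)).comp
    (RingHom.pi fun i => (algebraMap (L i) (Cl L i)).comp (Pi.evalRingHom L i))) (by
      intro a ha
      rw [RingHom.comp_apply, um_zero_iff]
      filter_upwards [(mem_ui L).1 ha] with i hi
      change algebraMap (L i) (Cl L i) (a i) = 0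
      rw [hi, map_zero])

theorem embR_um (a : ∀ i, L i) : embR L (um a) = um fun i => algebraMap (L i) (Cl L i) (a i) := rfl

/-- the embedding of an ultraproduct in the ultraproduct of the algebraic closures -/
noncomputable def emb : UP L →ₐ[ℂ] UP (Cl L) where
  toRingHom := embR L
  commutes' := by
    intro c
    obtain ⟨γ, hγ⟩ := um_surj (iso c)
    change embR L (algebraMap ℂ (UP L) c) = _
    rw [alg_eq c hγ.symm, alg_eq c hγ.symm, embR_um]
    rfl

theorem emb_um (a : ∀ i, L i) : emb L (um a) = um fun i => algebraMap (L i) (Cl L i) (a i) := rfl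

end emb

end Pool.Agent.E8helper35.IN
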