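import Pool.Agent.E8helper35.IN.Star
import Pool.Agent.E8helper35.IN.Up2

/-!
Transfer of rational curves over ultraproducts of function fields.
-/

set_option autoImplicit false
set_option linter.unusedSectionVars false

open Filter MvPolynomial

namespace Pool.Agent.E8helper35.IN

variable {N : ℕ}

theorem eval_aeval' {L : Type} [Field L] [Algebra ℂ L] (p : Fin (N + 1) → Polynomial L)
    (F : MvPolynomial (Fin (N + 1)) ℂ) (t : L) :
    (aeval p F).eval t = aeval (fun j => (p j).eval t) F := by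
  let ψ : Polynomial L →ₐ[ℂ] L :=
    { toRingHom := Polynomial.evalRingHom t
      commutes' := fun c => by
        change (Polynomial.C (algebraMap ℂ L c)).eval t = _
        rw [Polynomial.eval_C] }
  exact MvPolynomial.comp_aeval_apply (f := p) ψ F

theorem transfer2 {L : ℕ → Type} [∀ i, Field (L i)] [∀ i, Algebra ℂ (L i)] [∀ i, Infinite (L i)]
    {D : ℕ} {S : ℕ → Set (MvPolynomial (Fin (N + 1)) ℂ)}
    (hS : ∀ i, ∀ F ∈ S i, ∃ d ≤ D, F.IsHomogeneous d) (Q : Fin (N + 1) → Polynomial (UP L))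
    (hQ : ∀ F : ℕ → MvPolynomial (Fin (N + 1)) ℂ, (∀ᶠ i in (uf : Filter ℕ), F i ∈ S i) →
      aeval Q (star D F) = 0)
    {j l : Fin (N + 1)}
    (hnc : (Q j).coeff 1 * (Q l).coeff 0 - (Q j).coeff 0 * (Q l).coeff 1 ≠ 0)
    {u : Fin (N + 1) → ∀ i, L i} (hu : ∀ j, (Q j).coeff 0 = um (u j)) :
    ∃ E : ℕ, ∀ᶠ i in (uf : Filter ℕ), ∃ q : Fin (N + 1) → Polynomial (L i),
      (∀ j, (q j).natDegree ≤ E) ∧ (∀ j, (q j).coeff 0 = u j i) ∧
      ((q j).coeff 1 * (q l).coeff 0 - (q j).coeff 0 * (q l).coeff 1 ≠ 0) ∧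
      ∀ F ∈ S i, aeval q F = 0 := by
  classical
  obtain ⟨E, hE⟩ : ∃ E : ℕ, ∀ j, (Q j).natDegree ≤ E :=
    ⟨Finset.univ.sup fun j => (Q j).natDegree, fun j => Finset.le_sup (f := fun j =>
      (Q j).natDegree) (Finset.mem_univ j)⟩
  choose γ hγ using fun (j : Fin (N + 1)) (m : ℕ) => um_surj ((Q j).coeff m)
  let q : ∀ i, Fin (N + 1) → Polynomial (L i) := fun i j =>
    ∑ m ∈ Finset.range (E + 2), Polynomial.C (γ j m i) * Polynomial.X ^ m
  have hqc : ∀ i j m, m < E + 2 → (q i j).coeff m = γ j m i := by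
    intro i j m hm
    change (∑ m ∈ Finset.range (E + 2), Polynomial.C (γ j m i) * Polynomial.X ^ m).coeff m = _
    rw [Polynomial.finsetSum_coeff, Finset.sum_eq_single m]
    · rw [Polynomial.coeff_C_mul_X_pow, if_pos rfl]
    · intro b _ hb
      rw [Polynomial.coeff_C_mul_X_pow, if_neg (Ne.symm hb)]
    · intro h
      exact absurd (Finset.mem_range.2 hm) h
  have hq : ∀ (τ : ∀ i, L i) (j : Fin (N + 1)),
      (Q j).eval (um τ) = um fun i => (q i j).eval (τ i) := by
    intro τ j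
    rw [Polynomial.eval_eq_sum_range' (Nat.lt_succ_of_le ((hE j).trans (Nat.le_succ E)))]
    have h1 : (fun i => (q i j).eval (τ i)) =
        fun i => ∑ m ∈ Finset.range (E + 2), γ j m i * τ i ^ m := by
      funext i
      change (∑ m ∈ Finset.range (E + 2), Polynomial.C (γ j m i) * Polynomial.X ^ m).eval (τ i) = _
      rw [Polynomial.eval_finsetSum]
      exact Finset.sum_congr rfl fun m _ => by simp
    rw [h1, um_sum (Finset.range (E + 2)) (fun m i => γ j m i * τ i ^ m)]
    refine Finset.sum_congr rfl fun m _ => ?_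
    have h2 : (fun i => γ j m i * τ i ^ m) = γ j m * τ ^ m := rfl
    rw [h2, map_mul, map_pow, hγ]
  have hqdeg : ∀ i j, (q i j).natDegree ≤ E + 1 := by
    intro i j
    refine Polynomial.natDegree_sum_le_of_forall_le _ _ fun m hm => ?_
    refine (Polynomial.natDegree_C_mul_X_pow_le _ _).trans ?_
    have := Finset.mem_range.1 hm
    omega
  -- they lie on `X`
  have hX : ∀ᶠ i in (uf : Filter ℕ), ∀ F ∈ S i, aeval (q i) F = 0 := by
    by_contra hcon
    have h1 : ∀ᶠ i in (uf : Filter ℕ), ¬ ∀ F ∈ S i, aeval (q i) F = 0 :=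
      Ultrafilter.eventually_not.2 hcon
    have h2 : ∀ i, ∃ (F : MvPolynomial (Fin (N + 1)) ℂ) (τ : L i),
        (¬ ∀ F ∈ S i, aeval (q i) F = 0) → F ∈ S i ∧ aeval (fun j => (q i j).eval τ) F ≠ 0 := by
      intro i
      by_cases h : ∀ F ∈ S i, aeval (q i) F = 0
      · exact ⟨0, 0, fun h' => absurd h h'⟩
      · have h' := h
        push Not at h'
        obtain ⟨F, hF, hne⟩ := h'
        obtain ⟨τ, hτ⟩ : ∃ τ, (aeval (q i) F).eval τ ≠ 0 := by
          by_contra h3
          push Not at h3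
          exact hne (Polynomial.funext fun r => by rw [h3 r, Polynomial.eval_zero])
        refine ⟨F, τ, fun _ => ⟨hF, ?_⟩⟩
        rwa [← eval_aeval']
    choose F τ hFτ using h2
    have h3 : ∀ᶠ i in (uf : Filter ℕ), F i ∈ S i := by
      filter_upwards [h1] with i hi
      exact (hFτ i hi).1
    have h4 : ∀ᶠ i in (uf : Filter ℕ), (F i).support ⊆ box N D := by
      filter_upwards [h3] with i hi
      obtain ⟨d, hd, hh⟩ := hS i _ hi
      exact support_box hd hh
    have h5 := congrArg (Polynomial.eval (um τ)) (hQ F h3)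
    rw [eval_aeval', Polynomial.eval_zero] at h5
    have h6 := aeval_star h4 (x := fun i j => (q i j).eval (τ i))
    have h7 : (fun j => (Q j).eval (um τ)) = fun j => (um fun i => (q i j).eval (τ i) : UP L) :=
      funext fun j => hq τ j
    rw [h7, h6, um_zero_iff] at h5
    obtain ⟨i, hi1, hi2⟩ := (h5.and h1).exists
    exact (hFτ i hi2).2 hi1
  have h8 : ∀ᶠ i in (uf : Filter ℕ), γ j 1 i * γ l 0 i - γ j 0 i * γ l 1 i ≠ 0 := by
    rw [← hγ, ← hγ, ← hγ, ← hγ, ← map_mul, ← map_mul, ← map_sub, um_ne_iff] at hnc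
    exact hnc
  have h9 : ∀ᶠ i in (uf : Filter ℕ), ∀ j ∈ (Finset.univ : Finset (Fin (N + 1))),
      γ j 0 i = u j i := by
    rw [Finset.eventually_all]
    intro j _
    have := hu j
    rwa [← hγ, um_eq] at this
  refine ⟨E + 1, ?_⟩
  filter_upwards [hX, h8, h9] with i h1 h2 h3
  refine ⟨q i, hqdeg i, fun j => ?_, ?_, h1⟩
  · rw [hqc i j 0 (by omega)]
    exact h3 j (Finset.mem_univ j)
  · rwa [hqc i j 0 (by omega), hqc i j 1 (by omega), hqc i l 0 (by omega), hqc i l 1 (by omega)]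

end Pool.Agent.E8helper35.IN
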