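import Pool.Agent.E8helper35.IN.Main
import Pool.Agent.E8helper35.IN.Lift
import Pool.Agent.E8helper35.IN.Tr2

/-!
Uniform algebraic hyperbolicity up to inflection points, and rational curves of bounded degree.
-/

set_option autoImplicit false

open FF Filter MvPolynomial

namespace Pool.Agent.E8helper35.IN

open Pool.Agent.W603.LV Pool.Agent.W603.PV Pool.Agent.E8helper90.RM
open Pool.Agent.Y377.IL (Cst form_scale)

/-- counterexamples to the bound with constant `i` -/
structure Bad2 (N D n : ℕ) (l : Fin (N + 1)) (i : ℕ) where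
  S : Set (MvPolynomial (Fin (N + 1)) ℂ)
  T : Set (MvPolynomial (Fin (N + 1)) ℂ)
  hS : ∀ F ∈ S, ∃ d ≤ D, F.IsHomogeneous d
  hR : RationalIn i S T
  K : Type
  [fK : Field K]
  [aK : Algebra ℂ K]
  [iK : IsFF ℂ K]
  x : Fin (N + 1) → K
  hl : x l ≠ 0
  hn : Module.finrank ℂ (Submodule.span ℂ (Set.range x)) = n
  hx : ∀ F ∈ S, aeval x F = 0
  G : MvPolynomial (Fin (N + 1)) ℂ
  hG : G ∈ T
  hGd : ∃ d, G.IsHomogeneous d
  hG0 : aeval x G ≠ 0
  hb : (i : ℤ) * (canDeg ℂ K + 3 + {P : Place ℂ K |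
    ¬ NonInfl P (Submodule.span ℂ (Set.range x)) n}.ncard) < pht ℂ x

attribute [instance] Bad2.fK Bad2.aK Bad2.iK

variable {N D n : ℕ} {l : Fin (N + 1)}

/-- the measure of complexity -/
noncomputable def Bad2.chi {i : ℕ} (b : Bad2 N D n l i) : ℤ :=
  canDeg ℂ b.K + 3 + {P : Place ℂ b.K | ¬ NonInfl P (Submodule.span ℂ (Set.range b.x)) n}.ncard

theorem Bad2.chi_pos {i : ℕ} (b : Bad2 N D n l i) : 1 ≤ b.chi := by
  obtain ⟨-, -, -, h⟩ := exists_small_der (k := ℂ) (K := b.K)
  unfold chi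
  omega

theorem Bad2.data {i : ℕ} (b : Bad2 N D n l i) :
    ∃ (y : Fin n → b.K) (c : Fin (N + 1) → Fin n → ℂ) (Dv : Derivation ℂ b.K b.K)
      (a : Fin n → b.K), Dv ≠ 0 ∧ wr Dv y ≠ 0 ∧
      (∀ j, b.x j = ∑ i, algebraMap ℂ b.K (c j i) * y i) ∧
      (∀ j, (tw Dv (nt Dv y))^[n] (y j) = ∑ i : Fin n, a i * (tw Dv (nt Dv y))^[(i : ℕ)] (y j)) ∧
      (∀ j, hgt ℂ (a j) ≤ (4 * n : ℕ) * b.chi) ∧ vsum ℂ Dv ≤ (2 : ℕ) * b.chi ∧ n ≠ 0 := by
  obtain ⟨V, hV⟩ : ∃ V, V = Submodule.span ℂ (Set.range b.x) := ⟨_, rfl⟩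
  have hfinV : FiniteDimensional ℂ V := by
    rw [hV]
    exact FiniteDimensional.span_of_finite ℂ (Set.finite_range b.x)
  have hrank : Module.finrank ℂ V = n := by
    rw [hV]
    exact b.hn
  let B := Module.finBasisOfFinrankEq ℂ V hrank
  obtain ⟨y, hy⟩ : ∃ y : Fin n → b.K, y = fun j => (B j : b.K) := ⟨_, rfl⟩
  have hyl : LinearIndependent ℂ y := by
    rw [hy]
    exact B.linearIndependent.map' V.subtype (Submodule.ker_subtype V)
  have hspan : Submodule.span ℂ (Set.range y) = V := by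
    have h1 : Set.range y = V.subtype '' Set.range B := by
      rw [hy, ← Set.range_comp]
      rfl
    rw [h1, Submodule.span_image, B.span_eq, Submodule.map_top, Submodule.range_subtype]
  have hxV : ∀ j, b.x j ∈ V := by
    intro j
    rw [hV]
    exact Submodule.subset_span ⟨j, rfl⟩
  have hc : ∀ j, ∃ c : Fin n → ℂ, ∑ i, c i • y i = b.x j := by
    intro j
    have := hxV j
    rw [← hspan] at this
    exact (Submodule.mem_span_range_iff_exists_fun ℂ).1 this
  choose c hc using hc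
  have hn0 : n ≠ 0 := by
    intro h
    apply b.hl
    rw [← hc l]
    refine Finset.sum_eq_zero fun r _ => ?_
    have := r.2
    omega
  obtain ⟨Dv, hD, hv, h2⟩ := exists_small_der (k := ℂ) (K := b.K)
  obtain ⟨a, ha, hh⟩ := exists_coef hD hn0 hyl
  have hI : 0 ≤ ({P : Place ℂ b.K | ¬ NonInfl P (Submodule.span ℂ (Set.range b.x)) n}.ncard : ℤ) :=
    Int.natCast_nonneg _
  refine ⟨y, c, Dv, a, hD, wr_ne_zero hD y hyl, fun j => ?_, ha, fun j => ?_, ?_, hn0⟩
  · rw [← hc j]
    exact Finset.sum_congr rfl fun i _ => Algebra.smul_def _ _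
  · refine (hh j).trans ?_
    rw [hspan, hV]
    unfold Bad2.chi
    push_cast
    have hn1 : (0 : ℤ) ≤ n := Int.natCast_nonneg _
    nlinarith
  · unfold Bad2.chi
    push_cast
    omega

theorem no_bad2 (b : ∀ i, Bad2 N D n l i) : False := by
  classical
  have hdata := fun i => (b i).data
  choose y c Dv a hD hw hx ha hh hv hn0 using hdata
  let L : ℕ → Type := fun i => (b i).K
  let χ : ℕ → ℤ := fun i => (b i).chi
  have hχ : ∀ i, 0 ≤ χ i := fun i => by
    have := (b i).chi_pos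
    change 0 ≤ (b i).chi
    omega
  obtain ⟨xs, hxs⟩ : ∃ xs : Fin (N + 1) → UP L, xs = fun j => um fun i => (b i).x j := ⟨_, rfl⟩
  have hl : xs l ≠ 0 := by
    rw [hxs]
    change (um fun i => (b i).x l : UP L) ≠ 0
    rw [um_ne_iff]
    exact Eventually.of_forall fun i => (b i).hl
  have hFb : ∀ F : ℕ → MvPolynomial (Fin (N + 1)) ℂ, (∀ᶠ i in (uf : Filter ℕ), F i ∈ (b i).S) →
      (∀ᶠ i in (uf : Filter ℕ), (F i).support ⊆ box N D) ∧ ∃ d, (star D F).IsHomogeneous d := by
    intro F hF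
    constructor
    · filter_upwards [hF] with i hi
      obtain ⟨d, hd, hh⟩ := (b i).hS _ hi
      exact support_box hd hh
    · have h1 : ∀ i, ∃ d' ≤ D, F i ∈ (b i).S → (F i).IsHomogeneous d' := by
        intro i
        by_cases h : F i ∈ (b i).S
        · obtain ⟨d', hd', hh⟩ := (b i).hS _ h
          exact ⟨d', hd', fun _ => hh⟩
        · exact ⟨0, Nat.zero_le _, fun h' => absurd h' h⟩
      choose e he1 he2 using h1
      obtain ⟨d', -, hd'⟩ := pigeon e he1
      refine ⟨d', star_hom ?_⟩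
      filter_upwards [hF, hd'] with i h1 h2
      rw [← h2]
      exact he2 i h1
  have hwu : wr (Du Dv) (fun j => (um fun i => y i j : UP L)) ≠ 0 := by
    rw [wr_um, um_ne_iff]
    exact Eventually.of_forall hw
  obtain ⟨S0, t0, ht1, ht2, hRF⟩ := core_fam (cst_Du hD) (small χ hχ)
    (small_der hD (C := 2) hv) (Nat.pos_of_ne_zero (hn0 0))
    hwu (σ := um fun i => nt (Dv i) (y i)) (a := fun r => um fun i => a i r)
    (fun r => mem_small.2 ⟨4 * n, Eventually.of_forall fun i => hh i r⟩)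
    (fun j => by
      rw [tw_um]
      have h1 : ∀ r : Fin n, (um fun i => a i r : UP L) *
          (tw (Du Dv) (um fun i => nt (Dv i) (y i)))^[(r : ℕ)] (um fun i => y i j) =
          um fun i => a i r * (tw (Dv i) (nt (Dv i) (y i)))^[(r : ℕ)] (y i j) := by
        intro r
        rw [tw_um, ← map_mul]
        rfl
      rw [Finset.sum_congr rfl fun r _ => h1 r, ← um_sum Finset.univ
        (fun (r : Fin n) i => a i r * (tw (Dv i) (nt (Dv i) (y i)))^[(r : ℕ)] (y i j)), um_eq]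
      exact Eventually.of_forall fun i => ha i j)
    (x := xs) (fun j r => iso.symm (um fun i => c i j r))
    (fun j => by
      have h1 : ∀ r : Fin n, algebraMap ℂ (UP L) (iso.symm (um fun i => c i j r)) *
          (um fun i => y i r) = um fun i => algebraMap ℂ (L i) (c i j r) * y i r := by
        intro r
        rw [alg_symm, ← map_mul]
        rfl
      rw [Finset.sum_congr rfl fun r _ => h1 r, ← um_sum Finset.univ
        (fun (r : Fin n) i => algebraMap ℂ (L i) (c i j r) * y i r), hxs]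
      change (um fun i => (b i).x j) = _
      rw [um_eq]
      exact Eventually.of_forall fun i => hx i j)
    (l := l)
    (by
      by_contra hcon
      push Not at hcon
      have h1 : ∀ j, ∃ B : ℕ, ∀ᶠ i in (uf : Filter ℕ),
          hgt ℂ ((b i).x j / (b i).x l) ≤ B * χ i := by
        intro j
        have h2 := small_alg (hcon j)
        have h3 : xs j / xs l = um fun i => (b i).x j / (b i).x l := by
          rw [hxs]
          exact (um_div _ _).symm
        rw [h3] at h2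
        exact mem_small.1 h2
      choose B hB using h1
      have h2 : ∀ᶠ i in (uf : Filter ℕ), ∀ j ∈ (Finset.univ : Finset (Fin (N + 1))),
          hgt ℂ ((b i).x j / (b i).x l) ≤ B j * χ i := by
        rw [Finset.eventually_all]
        exact fun j _ => hB j
      obtain ⟨i, hi1, hi2⟩ := (h2.and (uf_atTop (∑ j, B j))).exists
      have h3 := pht_le (k := ℂ) (b i).x (b i).hl
      have h4 := (b i).hb
      have h5 : ∑ j, hgt ℂ ((b i).x j / (b i).x l) ≤ ∑ j, (B j : ℤ) * χ i :=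
        Finset.sum_le_sum hi1
      rw [← Finset.sum_mul] at h5
      have h6 : (i : ℤ) * χ i < pht ℂ (b i).x := h4
      have h7 : ((∑ j, B j : ℕ) : ℤ) ≤ i := by exact_mod_cast hi2.le
      have h8 := hχ i
      push_cast at h7
      have h9 := mul_le_mul_of_nonneg_right h7 h8
      linarith)
  obtain ⟨Q, hQ0, ⟨j, hQj⟩, hQG⟩ := fam_curve hl ht1 ht2 hRF (emb L)
  have hu : ∀ j, (Q j).coeff 0 =
      um fun i => algebraMap (L i) (Cl L i) ((b i).x j / (b i).x l) := by
    intro j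
    rw [hQ0 j]
    have h3 : xs j / xs l = um fun i => (b i).x j / (b i).x l := by
      rw [hxs]
      exact (um_div _ _).symm
    rw [h3, emb_um]
  obtain ⟨E, hE⟩ := transfer2 (L := Cl L) (fun i => (b i).hS) Q (fun F hF => by
    refine hQG _ (hFb F hF).2 ?_
    rw [hxs, aeval_star (hFb F hF).1, um_zero_iff]
    filter_upwards [hF] with i hi
    exact (b i).hx _ hi) hQj hu
  obtain ⟨i, ⟨q, hq1, hq2, hq3, hq4⟩, hiE⟩ := (hE.and (uf_atTop E)).exists
  obtain ⟨d, hd⟩ := (b i).hGd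
  have key := spec_curve (L := Cl L i) (E := i) (S := (b i).S) (G := (b i).G)
    (fun p hp hnc hS => (b i).hR p hp hnc hS _ (b i).hG) q (fun j => (hq1 j).trans hiE.le) hq4 hq3
  have h1 : (fun j => (q j).coeff 0) =
      fun j => algebraMap (L i) (Cl L i) ((b i).x j / (b i).x l) := funext hq2
  rw [h1] at key
  have h2 := MvPolynomial.comp_aeval_apply (f := fun j => (b i).x j / (b i).x l)
    (IsScalarTower.toAlgHom ℂ (L i) (Cl L i)) (b i).G
  have h3 : algebraMap (L i) (Cl L i) (aeval (fun j => (b i).x j / (b i).x l) (b i).G) = 0 :=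
    h2.trans key
  rw [map_eq_zero_iff _ (algebraMap (L i) (Cl L i)).injective] at h3
  apply (b i).hG0
  have h4 : aeval (b i).x (b i).G =
      (b i).x l ^ d * aeval (fun j => (b i).x j / (b i).x l) (b i).G := by
    rw [← form_scale hd]
    congr 2
    funext j
    rw [mul_div_cancel₀ _ (b i).hl]
  rw [h4, h3, mul_zero]

theorem fixed2 (N D n : ℕ) (l : Fin (N + 1)) :
    ∃ A : ℕ, ∀ S T : Set (MvPolynomial (Fin (N + 1)) ℂ),
      (∀ F ∈ S, ∃ d ≤ D, F.IsHomogeneous d) → RationalIn A S T →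
      ∀ (K : Type) [Field K] [Algebra ℂ K] [IsFF ℂ K] (x : Fin (N + 1) → K), x l ≠ 0 →
        Module.finrank ℂ (Submodule.span ℂ (Set.range x)) = n → (∀ F ∈ S, aeval x F = 0) →
        ∀ G ∈ T, (∃ d, G.IsHomogeneous d) → aeval x G ≠ 0 →
        pht ℂ x ≤ A * (canDeg ℂ K + 3 + {P : Place ℂ K | Inflection P x}.ncard) := by
  by_contra hcon
  push Not at hcon
  have h1 : ∀ i : ℕ, Nonempty (Bad2 N D n l i) := by
    intro i
    obtain ⟨S, T, hS, hR, K, _, _, _, x, hl, hn, hx, G, hG, hGd, hG0, hb⟩ := hcon i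
    refine ⟨⟨S, T, hS, hR, K, x, hl, hn, hx, G, hG, hGd, hG0, ?_⟩⟩
    have h2 : {P : Place ℂ K | ¬ NonInfl P (Submodule.span ℂ (Set.range x)) n} =
        {P : Place ℂ K | Inflection P x} := by
      ext P
      rw [Set.mem_ofPred_eq, Set.mem_ofPred_eq, infl_iff P ⟨l, hl⟩, hn]
    rw [h2]
    exact hb
  exact no_bad2 (fun i => (h1 i).some)

theorem main2 (N D : ℕ) :
    ∃ A : ℕ, ∀ S T : Set (MvPolynomial (Fin (N + 1)) ℂ),
      (∀ F ∈ S, ∃ d ≤ D, F.IsHomogeneous d) → (∀ F ∈ T, ∃ d, F.IsHomogeneous d) →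
      RationalIn A S T →
      ∀ (K : Type) [Field K] [Algebra ℂ K] [IsFF ℂ K] (x : Fin (N + 1) → K), (∃ j, x j ≠ 0) →
        (∀ F ∈ S, aeval x F = 0) → (∃ G ∈ T, aeval x G ≠ 0) →
        {P : Place ℂ K | Inflection P x}.Finite ∧
        pht ℂ x ≤ A * (canDeg ℂ K + 3 + {P : Place ℂ K | Inflection P x}.ncard) := by
  classical
  choose A hA using fun (q : Fin (N + 2) × Fin (N + 1)) => fixed2 N D q.1 q.2
  refine ⟨Finset.univ.sup A, fun S T hS hT hR K _ _ _ x hx0 hx hG => ⟨infl_finite hx0, ?_⟩⟩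
  obtain ⟨l, hl⟩ := hx0
  obtain ⟨G, hG, hG0⟩ := hG
  have hn : Module.finrank ℂ (Submodule.span ℂ (Set.range x)) < N + 2 := by
    have := finrank_range_le_card (R := ℂ) x
    rw [Fintype.card_fin] at this
    unfold Set.finrank at this
    omega
  let q : Fin (N + 2) × Fin (N + 1) := (⟨_, hn⟩, l)
  have hq : A q ≤ Finset.univ.sup A := Finset.le_sup (Finset.mem_univ q)
  refine (hA q S T hS (hR.mono hq) K x hl rfl hx G hG (hT G hG) hG0).trans ?_
  obtain ⟨-, -, -, h2⟩ := exists_small_der (k := ℂ) (K := K)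
  have h3 : (A q : ℤ) ≤ ((Finset.univ.sup A : ℕ) : ℤ) := by exact_mod_cast hq
  have h4 : (0 : ℤ) ≤ {P : Place ℂ K | Inflection P x}.ncard := Int.natCast_nonneg _
  exact mul_le_mul_of_nonneg_right h3 (by omega)

end Pool.Agent.E8helper35.IN
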