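import Pool.Agent.E8helper35.IN.Loc

/-!
Orders of twisted Wronskians of functions with different orders, and of the coefficients of the
differential equation.
-/

set_option autoImplicit false

open FF Polynomial

namespace Pool.Agent.E8helper35.IN

open Pool.Agent.W603.LV Pool.Agent.E8helper90.RM

variable {k K : Type} [Field k] [Field K] [Algebra k K]

theorem cramer_mem {n : ℕ} (R : Subring K) {Ψ : Matrix (Fin n) (Fin n) K}
    (hΨ : ∀ i j, Ψ i j ∈ R) (h0 : Ψ.det ≠ 0) (hd : (Ψ.det)⁻¹ ∈ R) {a b : Fin n → K}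
    (hb : ∀ i, b i ∈ R) (h : Ψ.mulVec a = b) (i : Fin n) : a i ∈ R := by
  have hadj : ∀ i j, Ψ.adjugate i j ∈ R := by
    obtain ⟨Ψ', hΨ'⟩ : ∃ Ψ' : Matrix (Fin n) (Fin n) R, R.subtype.mapMatrix Ψ' = Ψ :=
      ⟨Matrix.of fun i j => ⟨Ψ i j, hΨ i j⟩, rfl⟩
    intro i j
    rw [← hΨ', ← RingHom.map_adjugate]
    exact (Ψ'.adjugate i j).2
  have h1 : Ψ.adjugate.mulVec b = Ψ.det • a := by
    rw [← h, Matrix.mulVec_mulVec, Matrix.adjugate_mul, Matrix.smul_mulVec, Matrix.one_mulVec]
  have h2 : a i = (Ψ.det)⁻¹ * Ψ.adjugate.mulVec b i := by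
    rw [h1, Pi.smul_apply, smul_eq_mul, inv_mul_cancel_left₀ h0]
  rw [h2]
  refine R.mul_mem hd ?_
  change ∑ j, Ψ.adjugate i j * b j ∈ R
  exact R.sum_mem fun j _ => R.mul_mem (hadj i j) (hb j)

/-- the scaled iterates of the twisted derivative -/
noncomputable def uu (D : Derivation k K K) (σ lam z : K) (i : ℕ) : K :=
  lam ^ i * ((tw D σ)^[i] z / z)

theorem uu_succ (D : Derivation k K K) {σ lam z : K} (hl : lam ≠ 0) (hz : z ≠ 0) (i : ℕ) :
    uu D σ lam z (i + 1) = lam * D (uu D σ lam z i) +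
      (lam * (D z / z) + lam * σ - i * (lam * (D lam / lam))) * uu D σ lam z i := by
  unfold uu
  rw [Function.iterate_succ_apply']
  obtain ⟨T, hT⟩ : ∃ T, T = (tw D σ)^[i] z := ⟨_, rfl⟩
  rw [← hT]
  have h1 : D (lam ^ i * (T / z)) = D (lam ^ i) * (T / z) + lam ^ i * D (T / z) := by
    rw [D.leibniz, smul_eq_mul, smul_eq_mul]
    ring
  have h2 : D (lam ^ i) = lam ^ i * (i * (D lam / lam)) := by
    rw [← ld_pow D hl, mul_div_cancel₀ _ (pow_ne_zero _ hl)]
  have h3 : D (T / z) = D T / z - T * D z / z ^ 2 := by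
    rw [D.leibniz_div, smul_eq_mul, smul_eq_mul, smul_eq_mul]
    field_simp
  rw [h1, h2, h3]
  unfold tw
  field_simp
  ring

/-- the polynomials of the residues -/
noncomputable def pp {R : Type} [CommRing R] (s r : R) : ℕ → R[X]
  | 0 => 1
  | i + 1 => (X + C (s - i * r)) * pp s r i

theorem pp_monic {R : Type} [CommRing R] (s r : R) (i : ℕ) : (pp s r i).Monic := by
  induction i with
  | zero => exact monic_one
  | succ i ih => exact (monic_X_add_C _).mul ih

theorem pp_deg {R : Type} [CommRing R] [Nontrivial R] (s r : R) (i : ℕ) :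
    (pp s r i).natDegree = i := by
  induction i with
  | zero => exact natDegree_one
  | succ i ih =>
    change ((X + C (s - i * r)) * pp s r i).natDegree = i + 1
    rw [(monic_X_add_C _).natDegree_mul (pp_monic s r i), natDegree_X_add_C, ih, add_comm]

variable [CharZero k] [IsFF k K] [IsAlgClosed k]

omit [CharZero k] [IsFF k K] [IsAlgClosed k] in
theorem red_natCast (P : Place k K) (i : ℕ) : Ge P 0 (i : K) ∧ P.red (i : K) = (i : P.RF) := by
  have h3 : Ge P 0 (i : K) := Ge.natCast _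
  refine ⟨h3, ?_⟩
  rw [P.red_of_reg h3]
  have h6 : (⟨(i : K), h3⟩ : P.O) = ((i : ℕ) : P.O) := Subtype.ext (by
    push_cast
    rfl)
  rw [h6, map_natCast]

/-- the residues -/
theorem red_uu (P : Place k K) {D : Derivation k K K} (hD : D ≠ 0) {lam : K} (hl0 : lam ≠ 0)
    (hl : P.ord lam = 1 - vo P D) {σ : K} (hσ : Ge P 0 (lam * σ)) {z : K} (hz : z ≠ 0) (i : ℕ) :
    Ge P 0 (uu D σ lam z i) ∧ P.red (uu D σ lam z i) =
      (pp (P.red (lam * σ)) (P.red (lam * (D lam / lam))) i).eval
        ((P.ord z : P.RF) * res0 P D lam) := by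
  induction i with
  | zero =>
    have h1 : uu D σ lam z 0 = 1 := by
      unfold uu
      rw [pow_zero, one_mul, Function.iterate_zero, id_eq, div_self hz]
    rw [h1]
    refine ⟨Ge.one, ?_⟩
    rw [P.red_one]
    exact eval_one.symm
  | succ i ih =>
    obtain ⟨h1, h2⟩ := ih
    obtain ⟨h3, h4⟩ := red_ld P hD hl0 hl hz
    obtain ⟨h5, -⟩ := red_ld P hD hl0 hl hl0
    obtain ⟨h6, h7⟩ := red_natCast P i (k := k)
    have h8 : Ge P 0 ((i : K) * (lam * (D lam / lam))) := by
      have := h6.mul h5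
      simpa using this
    have h9 : Ge P 0 (lam * (D z / z) + lam * σ) := h3.add hσ
    have h10 : Ge P 0 (lam * (D z / z) + lam * σ - i * (lam * (D lam / lam))) := h9.sub h8
    have h11 := ge_scaled P hD hl0 hl h1
    have h12 : P.red (lam * D (uu D σ lam z i)) = 0 := by
      rw [P.red_eq_zero_iff (h11.mono (by norm_num))]
      rcases h11 with h | h
      · exact Or.inl h
      · exact Or.inr (by omega)
    have h13 : Ge P 0 ((lam * (D z / z) + lam * σ - i * (lam * (D lam / lam))) *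
        uu D σ lam z i) := by
      have := h10.mul h1
      simpa using this
    rw [uu_succ D hl0 hz]
    refine ⟨(h11.mono (by norm_num)).add h13, ?_⟩
    rw [P.red_add (h11.mono (by norm_num)) h13, h12, zero_add, P.red_mul h10 h1,
      P.red_sub h9 h8, P.red_add h3 hσ, P.red_mul h6 h5, h7, h2, h4]
    change _ = eval _ ((X + C _) * pp _ _ i)
    rw [eval_mul, eval_add, eval_X, eval_C]
    ring

/-- **The order of the Wronskian of functions with different orders.** -/
theorem det_uu (P : Place k K) {D : Derivation k K K} (hD : D ≠ 0) {lam : K} (hl0 : lam ≠ 0)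
    (hl : P.ord lam = 1 - vo P D) {σ : K} (hσ : Ge P 0 (lam * σ)) {n : ℕ} {z : Fin n → K}
    (hz : ∀ j, z j ≠ 0) (hinj : Function.Injective fun j => P.ord (z j)) :
    (Matrix.of fun j i : Fin n => uu D σ lam (z j) i).det ≠ 0 ∧
      P.ord (Matrix.of fun j i : Fin n => uu D σ lam (z j) i).det = 0 := by
  obtain ⟨U, hU⟩ : ∃ U : Matrix (Fin n) (Fin n) P.O, ∀ j i, (U j i : K) = uu D σ lam (z j) i :=
    ⟨Matrix.of fun j i => ⟨_, (red_uu P hD hl0 hl hσ (hz j) i).1⟩, fun _ _ => rfl⟩
  have h1 : (Matrix.of fun j i : Fin n => uu D σ lam (z j) i) = P.O.subtype.mapMatrix U := by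
    ext j i
    exact (hU j i).symm
  have hCh : CharZero P.RF := charZero_of_injective_algebraMap (algebraMap k P.RF).injective
  have h2 : P.resHom U.det ≠ 0 := by
    rw [RingHom.map_det]
    have h3 : P.resHom.mapMatrix U = Matrix.of fun j i : Fin n =>
        (pp (P.red (lam * σ)) (P.red (lam * (D lam / lam))) i).eval
          ((P.ord (z j) : P.RF) * res0 P D lam) := by
      ext j i
      rw [RingHom.mapMatrix_apply, Matrix.map_apply, Matrix.of_apply,
        ← (red_uu P hD hl0 hl hσ (hz j) i).2, P.red_of_reg (red_uu P hD hl0 hl hσ (hz j) i).1]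
      congr 1
      exact Subtype.ext (hU j i)
    rw [h3, ← Matrix.det_eval_matrixOfPolynomials_eq_det_vandermonde _ _ (fun i => pp_deg _ _ _)
      (fun i => pp_monic _ _ _), Matrix.det_vandermonde_ne_zero_iff]
    intro j j' h
    have h4 := mul_right_cancel₀ (ge_res0 P hD hl0 hl).2 h
    exact hinj (Int.cast_injective h4)
  rw [h1, ← RingHom.map_det]
  have h3 : Ge P 0 ((U.det : P.O) : K) := U.det.2
  have h4 : P.red ((U.det : P.O) : K) ≠ 0 := by
    rw [P.red_of_reg h3]
    exact h2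
  rw [Ne, P.red_eq_zero_iff h3, not_or] at h4
  refine ⟨h4.1, ?_⟩
  rcases h3 with h5 | h5
  · exact absurd h5 h4.1
  · have h6 : ¬ 0 < P.ord ((U.det : P.O) : K) := h4.2
    have h7 : P.ord (P.O.subtype U.det) = P.ord ((U.det : P.O) : K) := rfl
    omega

end Pool.Agent.E8helper35.IN
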