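import Pool.Agent.E8helper35.IN.Cov

/-!
Pseudo algebraic hyperbolicity, up to inflection points, of the varieties which are not covered by
rational curves.
-/

set_option autoImplicit false
set_option linter.unusedSectionVars false

open MvPolynomial FF

namespace Pool.Agent.E8helper35.IN

open Pool.Agent.TH143.GT (Covered FunField Pluricanonical)
open Pool.Agent.W603.LV Pool.Agent.W603.PV

variable {N : ℕ}

theorem not_covered_of_trdeg {L : Type} [Field L] [Algebra ℂ L] (h : Algebra.trdeg ℂ L = 0) :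
    ¬ Covered L := by
  rintro ⟨M, _, _, φ, r, hr⟩
  have h1 : Algebra.IsAlgebraic ℂ L := trdeg_eq_zero_iff.1 h
  obtain ⟨c, hc⟩ := (IsAlgClosed.algebraMap_bijective_of_isIntegral (k := ℂ) (K := L)).2 r
  apply hr (algebraMap ℂ M c)
  rw [← hc, φ.commutes]
  exact IsScalarTower.algebraMap_apply ℂ M (RatFunc M) c

theorem aeval_rad {S : Set (MvPolynomial (Fin (N + 1)) ℂ)} {R : Type} [CommRing R] [IsReduced R]
    [Algebra ℂ R] {x : Fin (N + 1) → R} (hx : ∀ F ∈ S, aeval x F = 0) :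
    ∀ H ∈ (Ideal.span S).radical, aeval x H = 0 := by
  intro H hH
  have h1 : Ideal.span S ≤ RingHom.ker (aeval x : MvPolynomial (Fin (N + 1)) ℂ →ₐ[ℂ] R) := by
    rw [Ideal.span_le]
    exact hx
  obtain ⟨n, hn⟩ := hH
  have h2 : aeval x (H ^ n) = 0 := h1 hn
  rw [map_pow] at h2
  exact IsNilpotent.eq_zero ⟨n, h2⟩

theorem pseudo (N D : ℕ) :
    ∃ A : ℕ,
      (∀ S T : Set (MvPolynomial (Fin (N + 1)) ℂ),
        (∀ F ∈ S, ∃ d ≤ D, F.IsHomogeneous d) → (∀ F ∈ T, ∃ d, F.IsHomogeneous d) →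
        RationalIn A S T →
        ∀ (K : Type) [Field K] [Algebra ℂ K] [IsFF ℂ K] (x : Fin (N + 1) → K), (∃ j, x j ≠ 0) →
          (∀ F ∈ S, aeval x F = 0) → (∃ G ∈ T, aeval x G ≠ 0) →
          {P : Place ℂ K | Inflection P x}.Finite ∧
          pht ℂ x ≤ A * (canDeg ℂ K + 2 + {P : Place ℂ K | Inflection P x}.ncard)) ∧
      ∀ S : Set (MvPolynomial (Fin (N + 1)) ℂ), (∀ F ∈ S, ∃ d ≤ D, F.IsHomogeneous d) →
        ∀ (L : Type) [Field L] [Algebra ℂ L] (w : ℕ) (y : Fin (N + 1) → L),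
          FunField (Ideal.span S).radical 1 L w y →
          (¬ Covered L ∨ ∃ n : ℕ, 0 < n ∧ ∃ ω : (Fin w → Derivation ℂ L L) → L,
            Pluricanonical w n ω ∧ ω ≠ 0) →
          ∃ G : MvPolynomial (Fin (N + 1)) ℂ, (∃ d, G.IsHomogeneous d) ∧ aeval y G ≠ 0 ∧
            ∀ (K : Type) [Field K] [Algebra ℂ K] [IsFF ℂ K] (x : Fin (N + 1) → K),
              (∃ j, x j ≠ 0) → (∀ F ∈ S, aeval x F = 0) → aeval x G ≠ 0 →
              {P : Place ℂ K | Inflection P x}.Finite ∧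
              pht ℂ x ≤ A * (canDeg ℂ K + 2 + {P : Place ℂ K | Inflection P x}.ncard) := by
  obtain ⟨A, hA⟩ := main2' N D
  refine ⟨A, hA, fun S hS L _ _ w y hy hcov => ?_⟩
  have hnc : ¬ Covered L := by
    rcases hcov with h | ⟨n, hn, ω, h1, h2⟩
    · exact h
    · rcases Nat.eq_zero_or_pos w with hw | hw
      · apply not_covered_of_trdeg
        rw [hy.sub.dim, hw, Nat.cast_zero]
      · intro hc
        exact h2 (Pool.Agent.Y288.IL.t_PL N _ L w y hy hw hc n hn ω h1)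
  obtain ⟨G, hG1, hG2, hG3⟩ := exc_form hy hnc A
  refine ⟨G, hG1, fun h => hG2 (hy.mem G hG1 h), fun K _ _ _ x hx0 hx hxG => ?_⟩
  refine hA S {G} hS (fun F hF => ?_) (fun q hq hqc hqS F hF => ?_) K x hx0 hx
    ⟨G, Set.mem_singleton G, hxG⟩
  · rw [Set.mem_singleton_iff.1 hF]
    exact hG1
  · rw [Set.mem_singleton_iff.1 hF]
    exact hG3 q hq hqc (aeval_rad hqS)

end Pool.Agent.E8helper35.IN
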