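import Pool.Agent.E8helper35.IN.Main
import Pool.Agent.W603.PV.Main

/-!
Rational curves as points of projective space over rational function fields, and the theorem without
the constant term.
-/

set_option autoImplicit false

open FF MvPolynomial

namespace Pool.Agent.E8helper35.IN

open Pool.Agent.W603.LV Pool.Agent.W603.PV Pool.Agent.E8helper90.RM Pool.Agent.W619.PQ
open IntermediateField (adjoin)
open scoped IntermediateField

variable {K : Type} [Field K] [Algebra ℂ K] [IsFF ℂ K] {N : ℕ}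

/-- function fields which are not rational have canonical divisors of degree at least zero -/
theorem rat_or : (∃ t : K, ℂ⟮t⟯ = ⊤) ∨ 0 ≤ canDeg ℂ K := by
  classical
  by_cases hrat : ∃ t : K, ℂ⟮t⟯ = ⊤
  · exact Or.inl hrat
  · obtain ⟨f, hf0, hf⟩ := exists_regular hrat (der_ne (k := ℂ) (K := K))
    have hfi := inv_ne_zero hf0
    have hD : f⁻¹ • der ℂ K ≠ 0 := by
      intro h
      rcases smul_eq_zero.1 h with h | h
      · exact hfi h
      · exact der_ne h
    have hv : ∀ P : Place ℂ K, vo P (f⁻¹ • der ℂ K) ≤ 0 := by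
      intro P
      rw [vo_smul P der_ne hfi, P.ord_inv]
      have := hf P
      omega
    have h1 := canDeg_finset (k := ℂ) hD (vo_finite hD).toFinset fun P hP => by simpa using hP
    right
    have h2 := Finset.sum_nonpos fun P (_ : P ∈ (vo_finite hD).toFinset) => hv P
    omega

/-- polynomial parametrisations of the rational curves -/
theorem exists_poly {t : K} (ht : ℂ⟮t⟯ = ⊤) {x : Fin (N + 1) → K} (hx : ∃ j, x j ≠ 0) :
    ∃ (p : Fin (N + 1) → Polynomial ℂ) (lam : K), lam ≠ 0 ∧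
      (∀ j, x j = lam * Polynomial.aeval t (p j)) ∧ ∀ j, ((p j).natDegree : ℤ) ≤ pht ℂ x := by
  classical
  have htr : Transcendental ℂ t := transcendental_of_top ht
  have hinj : ∀ q : Polynomial ℂ, q ≠ 0 → Polynomial.aeval t q ≠ 0 := fun q hq h =>
    htr ⟨q, hq, h⟩
  have h1 : ∀ j, ∃ a b : Polynomial ℂ, b ≠ 0 ∧
      x j = Polynomial.aeval t a / Polynomial.aeval t b := by
    intro j
    have h2 : x j ∈ ℂ⟮t⟯ := by rw [ht]; trivial
    obtain ⟨a, b, hab⟩ := (IntermediateField.mem_adjoin_simple_iff ℂ (x j)).1 h2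
    by_cases hb : b = 0
    · refine ⟨0, 1, one_ne_zero, ?_⟩
      rw [hab, hb]
      simp
    · exact ⟨a, b, hb, hab⟩
  choose a b hb hab using h1
  obtain ⟨B, hB⟩ : ∃ B, B = ∏ j, b j := ⟨_, rfl⟩
  have hB0 : B ≠ 0 := by
    rw [hB]
    exact Finset.prod_ne_zero_iff.2 fun j _ => hb j
  obtain ⟨q, hq⟩ : ∃ q : Fin (N + 1) → Polynomial ℂ,
    q = fun j => a j * ∏ i ∈ Finset.univ.erase j, b i := ⟨_, rfl⟩
  have hxq : ∀ j, x j * Polynomial.aeval t B = Polynomial.aeval t (q j) := by
    intro j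
    rw [hq, hB, hab j, ← Finset.mul_prod_erase Finset.univ b (Finset.mem_univ j), map_mul, map_mul]
    have := hinj _ (hb j)
    field_simp
  have hq0 : ∃ j, q j ≠ 0 := by
    obtain ⟨j, hj⟩ := hx
    refine ⟨j, fun h => ?_⟩
    have h2 := hxq j
    rw [h, map_zero] at h2
    exact mul_ne_zero hj (hinj B hB0) h2
  let J : Ideal (Polynomial ℂ) := Ideal.span (Set.range q)
  let g := Submodule.IsPrincipal.generator J
  have hgq : ∀ j, ∃ p, q j = g * p := by
    intro j
    have h2 : q j ∈ J := Ideal.subset_span ⟨j, rfl⟩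
    exact (Submodule.IsPrincipal.mem_iff_generator_dvd J).1 h2
  choose p hp using hgq
  have hg0 : g ≠ 0 := by
    obtain ⟨j, hj⟩ := hq0
    intro h
    apply hj
    rw [hp j, h, zero_mul]
  obtain ⟨u, hu⟩ : ∃ u : Fin (N + 1) → Polynomial ℂ, ∑ j, u j * p j = 1 := by
    have h2 : g ∈ J := Submodule.IsPrincipal.generator_mem J
    obtain ⟨u, hu⟩ := (Ideal.mem_span_range_iff_exists_fun).1 h2
    refine ⟨u, ?_⟩
    apply mul_left_cancel₀ hg0
    rw [mul_one, Finset.mul_sum]
    conv_rhs => rw [← hu]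
    refine Finset.sum_congr rfl fun j _ => ?_
    rw [hp j]
    ring
  obtain ⟨lam, hlam⟩ : ∃ lam, lam = Polynomial.aeval t g / Polynomial.aeval t B := ⟨_, rfl⟩
  have hlam0 : lam ≠ 0 := by
    rw [hlam]
    exact div_ne_zero (hinj _ hg0) (hinj _ hB0)
  have hxp : ∀ j, x j = lam * Polynomial.aeval t (p j) := by
    intro j
    rw [hlam, div_mul_eq_mul_div, ← map_mul, ← hp j, ← hxq j, mul_div_cancel_right₀ _ (hinj B hB0)]
  refine ⟨p, lam, hlam0, hxp, ?_⟩
  obtain ⟨f, hf⟩ : ∃ f : Fin (N + 1) → K, f = fun j => Polynomial.aeval t (p j) := ⟨_, rfl⟩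
  have hf0 : ∃ j, f j ≠ 0 := by
    obtain ⟨j, hj⟩ := hx
    refine ⟨j, fun h => hj ?_⟩
    rw [hf] at h
    change Polynomial.aeval t (p j) = 0 at h
    rw [hxp j, h, mul_zero]
  have hpht : pht ℂ x = pht ℂ f := by
    have h2 : x = fun j => lam * f j := by
      funext j
      rw [hf]
      exact hxp j
    rw [h2, pht_scale hf0 hlam0]
  obtain ⟨P, hP, hP2⟩ := pole_unique ht
  have hreg : ∀ Q : Place ℂ K, Q ≠ P → pord Q f = 0 := by
    intro Q hQ
    have h2 : Ge Q 0 t := by
      refine Or.inr ?_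
      by_contra h
      exact hQ (hP2 Q (by omega))
    obtain ⟨j, hj, h⟩ := exists_pord Q hf0
    have h3 : Ge Q 0 (f j) := by
      rw [hf]
      exact ge_aeval Q h2 (p j)
    have h4 : 0 ≤ pord Q f := by
      rw [← h]
      exact h3.resolve_left hj
    by_contra hne
    have h5 : ∀ i, Ge Q 1 (f i) := fun i => (ge_pord Q f i).mono (by omega)
    have h6 : Ge Q 1 (1 : K) := by
      have h7 : (1 : K) = ∑ i, Polynomial.aeval t (u i) * f i := by
        have h8 := congrArg (Polynomial.aeval t) hu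
        rw [map_sum, map_one] at h8
        rw [← h8, hf]
        exact Finset.sum_congr rfl fun i _ => map_mul _ _ _
      rw [h7]
      refine Ge.sum _ _ fun i _ => ?_
      have := (ge_aeval Q h2 (u i)).mul (h5 i)
      simpa using this
    rcases h6 with h6 | h6
    · exact one_ne_zero h6
    · rw [Q.ord_one] at h6
      omega
  have hval : pht ℂ f = -pord P f := by
    unfold pht
    rw [finsum_eq_single _ P hreg]
  have hle : ∀ j, f j ≠ 0 → ((p j).natDegree : ℤ) ≤ -pord P f := by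
    intro j hj
    have h2 := pord_le P hj
    have h3 : p j ≠ 0 := by
      intro h
      apply hj
      rw [hf]
      change Polynomial.aeval t (p j) = 0
      rw [h, map_zero]
    have h4 := (ord_aeval_of_neg P (x := t) (by omega) h3).2
    rw [hP] at h4
    have h5 : P.ord (f j) = P.ord (Polynomial.aeval t (p j)) := by rw [hf]
    omega
  intro j
  rw [hpht, hval]
  by_cases hj : f j = 0
  · obtain ⟨i, hi⟩ := hf0
    have h3 : p j = 0 := by
      by_contra h
      apply hinj _ h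
      rw [hf] at hj
      exact hj
    rw [h3, Polynomial.natDegree_zero]
    have := hle i hi
    omega
  · exact hle j hj

/-- **The theorem for curves of genus zero and small degree** -/
theorem rational_case {A : ℕ} {S T : Set (MvPolynomial (Fin (N + 1)) ℂ)}
    (hS : ∀ F ∈ S, ∃ d, F.IsHomogeneous d) (hT : ∀ F ∈ T, ∃ d, F.IsHomogeneous d)
    (hR : RationalIn A S T) {t : K} (ht : ℂ⟮t⟯ = ⊤) {x : Fin (N + 1) → K} (hx0 : ∃ j, x j ≠ 0)
    (hx : ∀ F ∈ S, aeval x F = 0) (hG : ∃ G ∈ T, aeval x G ≠ 0) (hA : pht ℂ x ≤ A) :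
    pht ℂ x ≤ 0 := by
  classical
  by_contra hcon
  have htr : Transcendental ℂ t := transcendental_of_top ht
  have hinj : ∀ q : Polynomial ℂ, q ≠ 0 → Polynomial.aeval t q ≠ 0 := fun q hq h =>
    htr ⟨q, hq, h⟩
  obtain ⟨p, lam, hlam, hxp, hdeg⟩ := exists_poly ht hx0
  have hval : ∀ F : MvPolynomial (Fin (N + 1)) ℂ, (∃ d, F.IsHomogeneous d) →
      ∃ d : ℕ, aeval x F = lam ^ d * Polynomial.aeval t (aeval p F) := by
    rintro F ⟨d, hd⟩
    refine ⟨d, ?_⟩
    have h1 : x = fun j => lam * Polynomial.aeval t (p j) := funext hxp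
    rw [h1, aeval_scale hd]
    congr 1
    exact (MvPolynomial.comp_aeval_apply (f := p) (Polynomial.aeval t : Polynomial ℂ →ₐ[ℂ] K) F).symm
  have hnc : ∃ (s t : ℂ) (j l : Fin (N + 1)),
      (p j).eval s * (p l).eval t ≠ (p l).eval s * (p j).eval t := by
    by_contra hc
    push Not at hc
    apply hcon
    obtain ⟨l, hl⟩ := hx0
    have hpl : p l ≠ 0 := by
      intro h
      apply hl
      rw [hxp l, h, map_zero, mul_zero]
    obtain ⟨τ, hτ⟩ : ∃ τ, (p l).eval τ ≠ 0 := by
      by_contra h3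
      push Not at h3
      exact hpl (Polynomial.funext fun r => by rw [h3 r, Polynomial.eval_zero])
    refine (pht_le (k := ℂ) x hl).trans (le_of_eq ?_)
    refine Finset.sum_eq_zero fun j _ => ?_
    have h1 : p j = Polynomial.C ((p j).eval τ / (p l).eval τ) * p l := by
      refine Polynomial.funext fun r => ?_
      rw [Polynomial.eval_mul, Polynomial.eval_C]
      field_simp
      have := hc r τ j l
      linear_combination this
    have h2 : x j / x l = algebraMap ℂ K ((p j).eval τ / (p l).eval τ) := by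
      rw [div_eq_iff hl]
      conv_lhs => rw [hxp j, h1]
      rw [hxp l, map_mul, Polynomial.aeval_C]
      ring
    rw [h2, hgt_alg]
  obtain ⟨G, hGT, hG0⟩ := hG
  apply hG0
  obtain ⟨d, hd⟩ := hval G (hT G hGT)
  rw [hd, hR p (fun j => by exact_mod_cast (hdeg j).trans hA) hnc (fun F hF => ?_) G hGT, map_zero,
    mul_zero]
  obtain ⟨e, he⟩ := hval F (hS F hF)
  rw [hx F hF] at he
  by_contra h
  exact mul_ne_zero (pow_ne_zero _ hlam) (hinj _ h) he.symm

/-- **Uniform algebraic hyperbolicity up to inflection points.** -/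
theorem main' (N D : ℕ) :
    ∃ A : ℕ, ∀ S T : Set (MvPolynomial (Fin (N + 1)) ℂ),
      (∀ F ∈ S, ∃ d ≤ D, F.IsHomogeneous d) → (∀ F ∈ T, ∃ d ≤ D, F.IsHomogeneous d) →
      RationalIn A S T →
      ∀ (K : Type) [Field K] [Algebra ℂ K] [IsFF ℂ K] (x : Fin (N + 1) → K), (∃ j, x j ≠ 0) →
        (∀ F ∈ S, aeval x F = 0) → (∃ G ∈ T, aeval x G ≠ 0) →
        {P : Place ℂ K | Inflection P x}.Finite ∧
        pht ℂ x ≤ A * (canDeg ℂ K + 2 + {P : Place ℂ K | Inflection P x}.ncard) := by
  obtain ⟨A, hA⟩ := main N D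
  refine ⟨2 * A, fun S T hS hT hR K _ _ _ x hx0 hx hG => ?_⟩
  have hR' := hR.mono (by omega : A ≤ 2 * A)
  obtain ⟨h1, h2⟩ := hA S T hS hT hR' K x hx0 hx hG
  refine ⟨h1, ?_⟩
  obtain ⟨-, -, -, h3⟩ := exists_small_der (k := ℂ) (K := K)
  have h4 : (0 : ℤ) ≤ {P : Place ℂ K | Inflection P x}.ncard := Int.natCast_nonneg _
  have hA0 : (0 : ℤ) ≤ A := Int.natCast_nonneg _
  by_cases h5 : canDeg ℂ K + 2 + {P : Place ℂ K | Inflection P x}.ncard = 0
  · rw [h5, mul_zero]
    rcases rat_or (K := K) with ⟨t, ht⟩ | h6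
    · refine rational_case (fun F hF => ?_) (fun F hF => ?_) hR' ht hx0 hx hG ?_
      · obtain ⟨d, -, h⟩ := hS F hF
        exact ⟨d, h⟩
      · obtain ⟨d, -, h⟩ := hT F hF
        exact ⟨d, h⟩
      · refine h2.trans ?_
        rw [show canDeg ℂ K + 3 + ({P : Place ℂ K | Inflection P x}.ncard : ℤ) = 1 by omega, mul_one]
    · omega
  · refine h2.trans ?_
    have h6 : 1 ≤ canDeg ℂ K + 2 + ({P : Place ℂ K | Inflection P x}.ncard : ℤ) := by omega
    have h7 := mul_le_mul_of_nonneg_left h6 hA0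
    push_cast
    linarith

end Pool.Agent.E8helper35.IN
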