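import Pool.Agent.E8helper35.IN.Rat
import Pool.Agent.E8helper35.IN.Main2

/-!
The theorem on rational curves of bounded degree without the constant term.
-/

set_option autoImplicit false

open FF MvPolynomial

namespace Pool.Agent.E8helper35.IN

open Pool.Agent.W603.LV Pool.Agent.W603.PV Pool.Agent.E8helper90.RM

/-- **Uniform algebraic hyperbolicity up to inflection points.** -/
theorem main2' (N D : ℕ) :
    ∃ A : ℕ, ∀ S T : Set (MvPolynomial (Fin (N + 1)) ℂ),
      (∀ F ∈ S, ∃ d ≤ D, F.IsHomogeneous d) → (∀ F ∈ T, ∃ d, F.IsHomogeneous d) →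
      RationalIn A S T →
      ∀ (K : Type) [Field K] [Algebra ℂ K] [IsFF ℂ K] (x : Fin (N + 1) → K), (∃ j, x j ≠ 0) →
        (∀ F ∈ S, aeval x F = 0) → (∃ G ∈ T, aeval x G ≠ 0) →
        {P : Place ℂ K | Inflection P x}.Finite ∧
        pht ℂ x ≤ A * (canDeg ℂ K + 2 + {P : Place ℂ K | Inflection P x}.ncard) := by
  obtain ⟨A, hA⟩ := main2 N D
  refine ⟨2 * A, fun S T hS hT hR K _ _ _ x hx0 hx hG => ?_⟩
  have hR' := hR.mono (by omega : A ≤ 2 * A)
  obtain ⟨h1, h2⟩ := hA S T hS hT hR' K x hx0 hx hG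
  refine ⟨h1, ?_⟩
  obtain ⟨-, -, -, h3⟩ := exists_small_der (k := ℂ) (K := K)
  have h4 : (0 : ℤ) ≤ {P : Place ℂ K | Inflection P x}.ncard := Int.natCast_nonneg _
  have hA0 : (0 : ℤ) ≤ A := Int.natCast_nonneg _
  by_cases h5 : canDeg ℂ K + 2 + {P : Place ℂ K | Inflection P x}.ncard = 0
  · rw [h5, mul_zero]
    rcases rat_or (K := K) with ⟨t, ht⟩ | h6
    · refine rational_case (fun F hF => ?_) hT hR' ht hx0 hx hG ?_
      · obtain ⟨d, -, h⟩ := hS F hF
        exact ⟨d, h⟩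
      · refine h2.trans ?_
        rw [show canDeg ℂ K + 3 + ({P : Place ℂ K | Inflection P x}.ncard : ℤ) = 1 by omega, mul_one]
    · omega
  · refine h2.trans ?_
    have h6 : 1 ≤ canDeg ℂ K + 2 + ({P : Place ℂ K | Inflection P x}.ncard : ℤ) := by omega
    have h7 := mul_le_mul_of_nonneg_left h6 hA0
    push_cast
    linarith

end Pool.Agent.E8helper35.IN
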