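import Mathlib

/-!
Ultraproducts of fields over the natural numbers. The ultrapower of the complex numbers is
isomorphic to the field of the complex numbers.
-/

set_option autoImplicit false

open Filter Polynomial

namespace Pool.Agent.E8helper35.IN

/-- the ultrafilter -/
noncomputable abbrev uf : Ultrafilter ℕ := hyperfilter ℕ

section field

variable (L : ℕ → Type) [∀ i, Field (L i)]

/-- the sequences which vanish almost everywhere -/
def ui : Ideal (∀ i, L i) where
  carrier := {x | ∀ᶠ i in (uf : Filter ℕ), x i = 0}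
  add_mem' := by
    intro a b ha hb
    have ha' : ∀ᶠ i in (uf : Filter ℕ), a i = 0 := ha
    have hb' : ∀ᶠ i in (uf : Filter ℕ), b i = 0 := hb
    change ∀ᶠ i in (uf : Filter ℕ), (a + b) i = 0
    filter_upwards [ha', hb'] with i h1 h2
    rw [Pi.add_apply, h1, h2, add_zero]
  zero_mem' := Eventually.of_forall fun _ => rfl
  smul_mem' := by
    intro c x hx
    have hx' : ∀ᶠ i in (uf : Filter ℕ), x i = 0 := hx
    change ∀ᶠ i in (uf : Filter ℕ), (c • x) i = 0
    filter_upwards [hx'] with i h1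
    rw [Pi.smul_apply', h1, smul_zero]

theorem mem_ui {x : ∀ i, L i} : x ∈ ui L ↔ ∀ᶠ i in (uf : Filter ℕ), x i = 0 := Iff.rfl

instance ui_max : (ui L).IsMaximal := by
  rw [Ideal.isMaximal_iff]
  refine ⟨fun h => ?_, fun J x hJ hx hxJ => ?_⟩
  · obtain ⟨i, hi⟩ := ((mem_ui L).1 h).exists
    exact one_ne_zero hi
  · have h1 : ∀ᶠ i in (uf : Filter ℕ), ¬ x i = 0 := Ultrafilter.eventually_not.2 hx
    have h2 : 1 - (fun i => (x i)⁻¹) * x ∈ ui L := by
      rw [mem_ui]
      filter_upwards [h1] with i hi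
      rw [Pi.sub_apply, Pi.mul_apply, Pi.one_apply, inv_mul_cancel₀ hi, sub_self]
    have h3 := J.add_mem (hJ h2) (J.mul_mem_left (fun i => (x i)⁻¹) hxJ)
    rwa [sub_add_cancel] at h3

/-- the ultraproduct -/
def UP : Type := (∀ i, L i) ⧸ ui L

noncomputable instance : Field (UP L) := Ideal.Quotient.field (ui L)

variable {L}

/-- the class of a sequence -/
def um : (∀ i, L i) →+* UP L := Ideal.Quotient.mk (ui L)

theorem um_surj (x : UP L) : ∃ a : ∀ i, L i, um a = x := Ideal.Quotient.mk_surjective x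

theorem um_eq {x y : ∀ i, L i} : um x = um y ↔ ∀ᶠ i in (uf : Filter ℕ), x i = y i := by
  refine (Ideal.Quotient.mk_eq_mk_iff_sub_mem x y).trans ?_
  rw [mem_ui]
  simp only [Pi.sub_apply, sub_eq_zero]

theorem um_zero_iff {x : ∀ i, L i} : um x = 0 ↔ ∀ᶠ i in (uf : Filter ℕ), x i = 0 := by
  unfold um
  exact Ideal.Quotient.eq_zero_iff_mem.trans (mem_ui L)

theorem um_ne_iff {x : ∀ i, L i} : um x ≠ 0 ↔ ∀ᶠ i in (uf : Filter ℕ), x i ≠ 0 := by
  rw [Ne, um_zero_iff]
  exact Ultrafilter.eventually_not.symm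

theorem um_inv (x : ∀ i, L i) : um (fun i => (x i)⁻¹) = (um x)⁻¹ := by
  by_cases h : um x = 0
  · rw [h, inv_zero, um_zero_iff]
    filter_upwards [um_zero_iff.1 h] with i hi
    rw [hi, inv_zero]
  · refine eq_inv_of_mul_eq_one_left ?_
    rw [← map_mul, ← map_one um, um_eq]
    filter_upwards [um_ne_iff.1 h] with i hi
    exact inv_mul_cancel₀ hi

theorem um_div (x y : ∀ i, L i) : um (fun i => x i / y i) = um x / um y := by
  have h : (fun i => x i / y i) = x * fun i => (y i)⁻¹ := by
    funext i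
    exact div_eq_mul_inv _ _
  rw [h, map_mul, um_inv, div_eq_mul_inv]

/-- sums and products are computed componentwise -/
theorem um_sum {ι : Type} (s : Finset ι) (x : ι → ∀ i, L i) :
    um (fun i => ∑ j ∈ s, x j i) = ∑ j ∈ s, um (x j) := by
  have h : (fun i => ∑ j ∈ s, x j i) = ∑ j ∈ s, x j := by
    funext i
    rw [Finset.sum_apply]
  rw [h, map_sum]

theorem um_prod {ι : Type} (s : Finset ι) (x : ι → ∀ i, L i) :
    um (fun i => ∏ j ∈ s, x j i) = ∏ j ∈ s, um (x j) := by
  have h : (fun i => ∏ j ∈ s, x j i) = ∏ j ∈ s, x j := by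
    funext i
    rw [Finset.prod_apply]
  rw [h, map_prod]

end field

/-- the ultrapower of the complex numbers -/
abbrev CS : Type := UP (fun _ => ℂ)

/-- the diagonal embedding -/
noncomputable def dia : ℂ →+* CS := um.comp (Pi.constRingHom ℕ ℂ)

instance : CharZero CS := charZero_of_injective_ringHom dia.injective

instance : IsAlgClosed CS := by
  refine IsAlgClosed.of_exists_root _ fun p hp hirr => ?_
  have hd : 0 < p.natDegree := Irreducible.natDegree_pos hirr
  choose γ hγ using fun j : ℕ => um_surj (p.coeff j)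
  obtain ⟨d, hdd⟩ : ∃ d, d = p.natDegree := ⟨_, rfl⟩
  rw [← hdd] at hd
  have hroot : ∀ i : ℕ, ∃ r : ℂ, r ^ d + ∑ j ∈ Finset.range d, γ j i * r ^ j = 0 := by
    intro i
    obtain ⟨q, hq⟩ : ∃ q : ℂ[X], q = X ^ d + ∑ j ∈ Finset.range d, C (γ j i) * X ^ j := ⟨_, rfl⟩
    have h1 : (∑ j ∈ Finset.range d, C (γ j i) * X ^ j : ℂ[X]).degree < d := by
      rw [degree_lt_iff_coeff_zero]
      intro m hm
      rw [finsetSum_coeff]
      refine Finset.sum_eq_zero fun j hj => ?_
      rw [coeff_C_mul_X_pow, if_neg]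
      have := Finset.mem_range.1 hj
      omega
    have h2 : q.degree = d := by
      rw [hq, degree_add_eq_left_of_degree_lt (by rwa [degree_X_pow]), degree_X_pow]
    obtain ⟨r, hr⟩ := IsAlgClosed.exists_root q (by
      rw [h2]
      exact_mod_cast hd.ne')
    refine ⟨r, ?_⟩
    have h3 : q.eval r = 0 := hr
    rw [hq, eval_add, eval_pow, eval_X, eval_finsetSum] at h3
    simpa using h3
  choose r hr using hroot
  refine ⟨um r, ?_⟩
  have h1 : p.eval (um r) = um fun i => r i ^ d + ∑ j ∈ Finset.range d, γ j i * r i ^ j := by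
    rw [eval_eq_sum_range, Finset.sum_range_succ, hp.coeff_natDegree, one_mul, ← hdd]
    have h2 : (fun i => r i ^ d + ∑ j ∈ Finset.range d, γ j i * r i ^ j) =
        r ^ d + ∑ j ∈ Finset.range d, γ j * r ^ j := by
      funext i
      rw [Pi.add_apply, Finset.sum_apply]
      rfl
    rw [h2, map_add, map_pow, map_sum, add_comm]
    congr 1
    exact Finset.sum_congr rfl fun j _ => by rw [map_mul, map_pow, hγ]
  rw [h1, um_zero_iff]
  exact Eventually.of_forall hr

open Cardinal in
theorem nonempty_iso : Nonempty (ℂ ≃+* CS) := by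
  have h1 : #CS = #ℂ := by
    apply le_antisymm
    · have h2 : #CS ≤ #(ℕ → ℂ) := Cardinal.mk_le_of_surjective (f := (um : (ℕ → ℂ) → CS)) um_surj
      refine h2.trans ?_
      rw [← Cardinal.power_def, Cardinal.mk_complex, Cardinal.mk_nat,
        Cardinal.continuum_power_aleph0]
    · exact Cardinal.mk_le_of_injective dia.injective
  refine IsAlgClosed.ringEquiv_of_equiv_of_charZero ?_ (Cardinal.eq.1 h1.symm)
  rw [Cardinal.mk_complex]
  exact Cardinal.aleph0_lt_continuum

/-- an isomorphism from the complex numbers to the ultrapower -/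
noncomputable def iso : ℂ ≃+* CS := nonempty_iso.some

end Pool.Agent.E8helper35.IN
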