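import Pool.Agent.E8helper35.IN.Ht
import Pool.Agent.E8helper35.IN.Up
import Pool.Agent.Y377.IL.Stm

/-!
The ultraproduct of function fields: constants, derivations, and the field of the elements of small
height.
-/

set_option autoImplicit false
set_option linter.unusedSectionVars false

open FF Filter

namespace Pool.Agent.E8helper35.IN

open Pool.Agent.W603.LV Pool.Agent.E8helper90.RM
open Pool.Agent.Y377.IL (Cst)

section alg

variable {L : ℕ → Type} [∀ i, Field (L i)] [∀ i, Algebra ℂ (L i)]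

/-- the embedding of the constants -/
noncomputable def cst : CS →+* UP L :=
  Ideal.Quotient.lift (ui fun _ => ℂ)
    (um.comp (RingHom.pi fun i => (algebraMap ℂ (L i)).comp (Pi.evalRingHom (fun _ => ℂ) i)))
    (by
      intro a ha
      have h1 : ∀ᶠ i in (uf : Filter ℕ), a i = 0 := ha
      rw [RingHom.comp_apply, um_zero_iff]
      filter_upwards [h1] with i hi
      change algebraMap ℂ (L i) (a i) = 0
      rw [hi, map_zero])

theorem cst_um (γ : ℕ → ℂ) : (cst (um γ) : UP L) = um fun i => algebraMap ℂ (L i) (γ i) := rfl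

noncomputable instance : Algebra ℂ (UP L) := (cst.comp (iso : ℂ →+* CS)).toAlgebra

theorem alg_eq (c : ℂ) {γ : ℕ → ℂ} (h : iso c = um γ) :
    algebraMap ℂ (UP L) c = um fun i => algebraMap ℂ (L i) (γ i) := by
  have h1 : algebraMap ℂ (UP L) c = cst (iso c) := rfl
  rw [h1, h, cst_um]

theorem alg_symm (γ : ℕ → ℂ) :
    algebraMap ℂ (UP L) (iso.symm (um γ)) = um fun i => algebraMap ℂ (L i) (γ i) :=
  alg_eq _ (iso.apply_symm_apply _)

/-- the derivation of the ultraproduct, as a function -/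
noncomputable def Df (D : ∀ i, Derivation ℂ (L i) (L i)) (x : UP L) : UP L :=
  um fun i => D i ((um_surj x).choose i)

theorem Df_um (D : ∀ i, Derivation ℂ (L i) (L i)) (a : ∀ i, L i) :
    Df D (um a) = um fun i => D i (a i) := by
  unfold Df
  rw [um_eq]
  have h1 := um_eq.1 (um_surj (um a)).choose_spec
  filter_upwards [h1] with i hi
  rw [hi]

/-- the derivation of the ultraproduct -/
noncomputable def Du (D : ∀ i, Derivation ℂ (L i) (L i)) : Derivation ℂ (UP L) (UP L) where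
  toFun := Df D
  map_add' := by
    intro x y
    obtain ⟨a, rfl⟩ := um_surj x
    obtain ⟨b, rfl⟩ := um_surj y
    rw [← map_add, Df_um, Df_um, Df_um, ← map_add]
    congr 1
    funext i
    exact map_add (D i) _ _
  map_smul' := by
    intro c x
    obtain ⟨a, rfl⟩ := um_surj x
    obtain ⟨γ, hγ⟩ := um_surj (iso c)
    rw [RingHom.id_apply, Algebra.smul_def, Algebra.smul_def, alg_eq c hγ.symm, ← map_mul,
      Df_um, Df_um, ← map_mul]
    congr 1
    funext i
    change D i (algebraMap ℂ (L i) (γ i) * a i) = algebraMap ℂ (L i) (γ i) * D i (a i)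
    rw [← Algebra.smul_def, (D i).map_smul, Algebra.smul_def]
  map_one_eq_zero' := by
    change Df D 1 = 0
    rw [← map_one um, Df_um, um_zero_iff]
    exact Eventually.of_forall fun i => (D i).map_one_eq_zero
  leibniz' := by
    intro x y
    obtain ⟨a, rfl⟩ := um_surj x
    obtain ⟨b, rfl⟩ := um_surj y
    change Df D (um a * um b) = um a • Df D (um b) + um b • Df D (um a)
    rw [← map_mul, Df_um, Df_um, Df_um, smul_eq_mul, smul_eq_mul, ← map_mul, ← map_mul,
      ← map_add]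
    congr 1
    funext i
    exact (D i).leibniz _ _

theorem Du_um (D : ∀ i, Derivation ℂ (L i) (L i)) (a : ∀ i, L i) :
    Du D (um a) = um fun i => D i (a i) := Df_um D a

theorem tw_um (D : ∀ i, Derivation ℂ (L i) (L i)) (σ a : ∀ i, L i) (r : ℕ) :
    (tw (Du D) (um σ))^[r] (um a) = um fun i => (tw (D i) (σ i))^[r] (a i) := by
  induction r with
  | zero => rfl
  | succ r ih =>
    rw [Function.iterate_succ_apply', ih]
    unfold tw
    rw [Du_um, ← map_mul, ← map_add]
    congr 1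
    funext i
    exact (Function.iterate_succ_apply' (tw (D i) (σ i)) r (a i)).symm

theorem wr_um (D : ∀ i, Derivation ℂ (L i) (L i)) {n : ℕ} (y : ∀ i, Fin n → L i) :
    wr (Du D) (fun j => um fun i => y i j) = um fun i => wr (D i) (y i) := by
  have h1 : tm (Du D) (um fun _ => 0) (fun j => um fun i => y i j) =
      um.mapMatrix (Matrix.of fun (j r : Fin n) i => (tw (D i) 0)^[(r : ℕ)] (y i j)) := by
    ext j r
    rw [RingHom.mapMatrix_apply, Matrix.map_apply, Matrix.of_apply]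
    exact tw_um D (fun _ => 0) _ _
  rw [← det_tm (D := Du D) (um fun _ => 0), h1, ← RingHom.map_det]
  congr 1
  funext i
  have h2 := RingHom.map_det (Pi.evalRingHom L i)
    (Matrix.of fun (j r : Fin n) i => (tw (D i) 0)^[(r : ℕ)] (y i j))
  have h3 : (Matrix.of fun (j r : Fin n) i => (tw (D i) 0)^[(r : ℕ)] (y i j)).det i =
      Pi.evalRingHom L i
        (Matrix.of fun (j r : Fin n) i => (tw (D i) 0)^[(r : ℕ)] (y i j)).det := rfl
  rw [h3, h2, ← det_tm (D := D i) 0]
  rfl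

end alg

section small

variable {L : ℕ → Type} [∀ i, Field (L i)] [∀ i, Algebra ℂ (L i)] [∀ i, IsFF ℂ (L i)]

theorem cst_Du {D : ∀ i, Derivation ℂ (L i) (L i)} (hD : ∀ i, D i ≠ 0) : Cst (Du D) := by
  intro x hx
  obtain ⟨a, rfl⟩ := um_surj x
  rw [Du_um, um_zero_iff] at hx
  have h1 : ∀ i, ∃ c : ℂ, D i (a i) = 0 → a i = algebraMap ℂ (L i) c := by
    intro i
    by_cases h : D i (a i) = 0
    · obtain ⟨c, hc⟩ := const_of_der (hD i) h
      exact ⟨c, fun _ => hc⟩
    · exact ⟨0, fun h' => absurd h' h⟩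
  choose c hc using h1
  refine ⟨iso.symm (um c), ?_⟩
  rw [alg_symm, um_eq]
  filter_upwards [hx] with i hi
  exact hc i hi

theorem hgt_add_le {K : Type} [Field K] [Algebra ℂ K] [IsFF ℂ K] (f g : K) :
    hgt ℂ (f + g) ≤ hgt ℂ f + hgt ℂ g := by
  classical
  let T := (finite_support (k := ℂ) f).toFinset ∪ (finite_support (k := ℂ) g).toFinset
  have h1 : ∀ P : Place ℂ K, P.ord f ≠ 0 → P ∈ T := fun P hP => by
    rw [Finset.mem_union]
    exact Or.inl (by simpa using hP)
  have h2 : ∀ P : Place ℂ K, P.ord g ≠ 0 → P ∈ T := fun P hP => by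
    rw [Finset.mem_union]
    exact Or.inr (by simpa using hP)
  rw [hgt_finset _ T h1, hgt_finset _ T h2, ← Finset.sum_add_distrib]
  refine hgt_le_of (fun P => max (-P.ord f) 0 + max (-P.ord g) 0) T (fun P hP => ?_) (fun P => ?_)
    (fun P => ?_)
  · have h3 : P.ord f = 0 := by
      by_contra h
      exact hP (h1 P h)
    have h4 : P.ord g = 0 := by
      by_contra h
      exact hP (h2 P h)
    change max (-P.ord f) 0 + max (-P.ord g) 0 = 0
    rw [h3, h4]
    rfl
  · have := le_max_right (-P.ord f) 0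
    have := le_max_right (-P.ord g) 0
    change 0 ≤ max (-P.ord f) 0 + max (-P.ord g) 0
    omega
  · have h3 : Ge P (-(max (-P.ord f) 0 + max (-P.ord g) 0)) f := Or.inr (by omega)
    have h4 : Ge P (-(max (-P.ord f) 0 + max (-P.ord g) 0)) g := Or.inr (by omega)
    exact h3.add h4

theorem hgt_mul_le {K : Type} [Field K] [Algebra ℂ K] [IsFF ℂ K] (f g : K) :
    hgt ℂ (f * g) ≤ hgt ℂ f + hgt ℂ g := by
  by_cases hf : f = 0
  · rw [hf, zero_mul, hgt_zero, zero_add]
    exact hgt_nonneg g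
  by_cases hg : g = 0
  · rw [hg, mul_zero, hgt_zero, add_zero]
    exact hgt_nonneg f
  exact hgt_mul hf hg

theorem hgt_alg {K : Type} [Field K] [Algebra ℂ K] [IsFF ℂ K] (c : ℂ) :
    hgt ℂ (algebraMap ℂ K c) = 0 := by
  apply le_antisymm _ (hgt_nonneg _)
  refine (hgt_le_of (fun _ => 0) ∅ (fun _ _ => rfl) (fun _ => le_rfl) fun P => ?_).trans ?_
  · rw [neg_zero]
    exact Ge.const c
  · rw [Finset.sum_empty]

/-- the field of the elements of small height -/
noncomputable def small (χ : ℕ → ℤ) (hχ : ∀ i, 0 ≤ χ i) : IntermediateField ℂ (UP L) where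
  carrier := {x | ∃ a : ∀ i, L i, um a = x ∧ ∃ B : ℕ,
    ∀ᶠ i in (uf : Filter ℕ), hgt ℂ (a i) ≤ B * χ i}
  mul_mem' := by
    rintro _ _ ⟨a, rfl, B, hB⟩ ⟨b, rfl, C, hC⟩
    refine ⟨a * b, map_mul _ _ _, B + C, ?_⟩
    filter_upwards [hB, hC] with i h1 h2
    refine (hgt_mul_le _ _).trans ((add_le_add h1 h2).trans (le_of_eq ?_))
    push_cast
    ring
  add_mem' := by
    rintro _ _ ⟨a, rfl, B, hB⟩ ⟨b, rfl, C, hC⟩
    refine ⟨a + b, map_add _ _ _, B + C, ?_⟩
    filter_upwards [hB, hC] with i h1 h2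
    refine (hgt_add_le _ _).trans ((add_le_add h1 h2).trans (le_of_eq ?_))
    push_cast
    ring
  algebraMap_mem' := by
    intro c
    obtain ⟨γ, hγ⟩ := um_surj (iso c)
    refine ⟨_, (alg_eq c hγ.symm).symm, 0, Eventually.of_forall fun i => ?_⟩
    rw [hgt_alg]
    simp
  inv_mem' := by
    rintro _ ⟨a, rfl, B, hB⟩
    refine ⟨_, um_inv a, B, ?_⟩
    filter_upwards [hB] with i h1
    rw [hgt_inv]
    exact h1

theorem mem_small {χ : ℕ → ℤ} {_hχ : ∀ i, 0 ≤ χ i} {a : ∀ i, L i} :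
    um a ∈ small χ _hχ ↔ ∃ B : ℕ, ∀ᶠ i in (uf : Filter ℕ), hgt ℂ (a i) ≤ B * χ i := by
  constructor
  · rintro ⟨b, hb, B, hB⟩
    refine ⟨B, ?_⟩
    filter_upwards [um_eq.1 hb, hB] with i h1 h2
    rw [← h1]
    exact h2
  · rintro ⟨B, hB⟩
    exact ⟨a, rfl, B, hB⟩

theorem small_der {χ : ℕ → ℤ} {hχ : ∀ i, 0 ≤ χ i} {D : ∀ i, Derivation ℂ (L i) (L i)}
    (hD : ∀ i, D i ≠ 0) {C : ℕ} (hv : ∀ i, vsum ℂ (D i) ≤ C * χ i) :
    ∀ x ∈ (small χ hχ : IntermediateField ℂ (UP L)), Du D x ∈ small χ hχ := by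
  intro x hx
  obtain ⟨a, rfl⟩ := um_surj x
  obtain ⟨B, hB⟩ := mem_small.1 hx
  rw [Du_um, mem_small]
  refine ⟨2 * B + C, ?_⟩
  filter_upwards [hB] with i hi
  refine (hgt_der (hD i) (a i)).trans ?_
  have := hv i
  push_cast
  nlinarith

/-- **The field of the elements of small height is algebraically closed in the ultraproduct.** -/
theorem small_alg {χ : ℕ → ℤ} {hχ : ∀ i, 0 ≤ χ i} {x : UP L}
    (hx : IsAlgebraic (small χ hχ : IntermediateField ℂ (UP L)).toSubalgebra x) :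
    x ∈ small χ hχ := by
  obtain ⟨p, hp0, hp⟩ := hx
  obtain ⟨a, rfl⟩ := um_surj x
  obtain ⟨d, hd⟩ : ∃ d, d = p.natDegree := ⟨_, rfl⟩
  have h1 : ∀ j : ℕ, ∃ (b : ∀ i, L i) (B : ℕ), um b = ((p.coeff j : (small χ hχ :
      IntermediateField ℂ (UP L)).toSubalgebra) : UP L) ∧
      ∀ᶠ i in (uf : Filter ℕ), hgt ℂ (b i) ≤ B * χ i := by
    intro j
    obtain ⟨b, hb, B, hB⟩ := (p.coeff j).2
    exact ⟨b, B, hb, hB⟩
  choose b B hb hB using h1
  have h2 : um (fun i => ∑ j ∈ Finset.range (d + 1), b j i * a i ^ j) = 0 := by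
    rw [um_sum (Finset.range (d + 1)) (fun j i => b j i * a i ^ j)]
    rw [Polynomial.aeval_eq_sum_range] at hp
    rw [← hp, hd]
    refine Finset.sum_congr rfl fun j _ => ?_
    rw [Algebra.smul_def]
    have h3 : (fun i => b j i * a i ^ j) = b j * a ^ j := rfl
    rw [h3, map_mul, map_pow, hb]
    rfl
  have h3 : um (b d) ≠ 0 := by
    rw [hb, hd]
    intro h
    apply hp0
    rw [← Polynomial.leadingCoeff_eq_zero]
    exact Subtype.ext h
  rw [mem_small]
  refine ⟨B d + ∑ j ∈ Finset.range d, B j, ?_⟩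
  have h4 : ∀ᶠ i in (uf : Filter ℕ), ∀ j ∈ Finset.range (d + 1), hgt ℂ (b j i) ≤ B j * χ i := by
    rw [Finset.eventually_all]
    exact fun j _ => hB j
  filter_upwards [um_zero_iff.1 h2, um_ne_iff.1 h3, h4] with i e1 e2 e3
  refine (hgt_root (k := ℂ) (fun j => b j i) e2 (a i) e1).trans ?_
  have e4 := e3 d (Finset.mem_range.2 (Nat.lt_succ_self d))
  have e5 : ∑ j ∈ Finset.range d, hgt ℂ (b j i) ≤ ∑ j ∈ Finset.range d, (B j : ℤ) * χ i :=
    Finset.sum_le_sum fun j hj => e3 j (Finset.mem_range.2 (by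
      have := Finset.mem_range.1 hj
      omega))
  push_cast
  rw [add_mul, Finset.sum_mul]
  exact add_le_add e4 e5

end small

end Pool.Agent.E8helper35.IN
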